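import Pool.Agent.MP_66cee2_co.X.SpecR2

/-
The theorem of Herglotz and Bochner for a countable discrete group.  The measures are built on the
full torus with Fejer kernels in finitely many coordinates.
-/

namespace Pool.Agent.MP_66cee2_co.X

open MeasureTheory Set Filter Complex Topology
open scoped ENNReal NNReal ComplexConjugate ComplexOrder

theorem herg_ch_add (s t : T) : ch (s + t) = ch s * ch t := by
  simp only [ch, fourier_one, AddCircle.toCircle_add, Circle.coe_mul]

theorem herg_ch_zero : ch 0 = 1 := fourier_eval_zero 1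

theorem herg_ch_norm (t : T) : ‖ch t‖ = 1 := by
  simp only [ch, fourier_one, Circle.norm_coe]

theorem herg_ch_neg (t : T) : ch (-t) = conj (ch t) := by
  have := fourier_neg (n := 1) (x := t)
  rw [fourier_apply, neg_smul, one_smul] at this
  rw [ch, fourier_one, this, ch]

theorem herg_ch_cont : Continuous ch := (fourier 1).continuous

theorem herg_ch_half : ch ((1 / 2 : ℝ) : T) = -1 := by
  rw [ch, fourier_coe_apply, ← Complex.exp_pi_mul_I]
  congr 1
  push_cast
  ring

theorem herg_ch_re {t : T} (h : (ch t).re = 1) : t = 0 := by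
  have h1 : ch t = 1 := by
    have h2 := Complex.sq_norm (ch t)
    rw [herg_ch_norm, Complex.normSq_apply, h] at h2
    have h3 : (ch t).im = 0 := by nlinarith
    exact Complex.ext h h3
  refine AddCircle.injective_toCircle (T := 1) one_ne_zero ?_
  rw [ch, fourier_one] at h1
  rw [AddCircle.toCircle_zero]
  exact Circle.ext h1

/-- positivity for families. -/
theorem herg_pd {A ι : Type} [AddCommGroup A] {φ : A → ℂ} (h : PD φ) (I : Finset ι) (g : ι → A)
    (c : ι → ℂ) : 0 ≤ ∑ i ∈ I, ∑ j ∈ I, conj (c i) * c j * φ (g j - g i) := by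
  classical
  have hm : ∀ i ∈ I, g i ∈ I.image g := fun i hi => Finset.mem_image_of_mem g hi
  convert h (I.image g) (fun a => ∑ i ∈ I with g i = a, c i) using 1
  rw [← Finset.sum_fiberwise_of_maps_to hm]
  refine Finset.sum_congr rfl fun a _ => ?_
  simp only [map_sum, Finset.sum_mul]
  rw [Finset.sum_comm (s := I.image g)]
  refine Finset.sum_congr rfl fun i hi => ?_
  rw [← Finset.sum_fiberwise_of_maps_to hm]
  refine Finset.sum_congr rfl fun b _ => ?_
  rw [Finset.mul_sum, Finset.sum_mul]
  refine Finset.sum_congr rfl fun j hj => ?_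
  rw [(Finset.mem_filter.mp hi).2, (Finset.mem_filter.mp hj).2]

/-- limits of finite measures on a compact space. -/
theorem herg_lim {X J : Type} [TopologicalSpace X] [T2Space X] [CompactSpace X]
    [MeasurableSpace X] [BorelSpace X] (l : Filter J) [l.NeBot] (μ : J → FiniteMeasure X) (v0 : ℂ)
    (h0 : Tendsto (fun j => ∫ _, (1 : ℂ) ∂(μ j : Measure X)) l (𝓝 v0)) :
    ∃ ν : FiniteMeasure X, ∀ (f : X → ℂ) (v : ℂ), Continuous f →
      Tendsto (fun j => ∫ x, f x ∂(μ j : Measure X)) l (𝓝 v) → ∫ x, f x ∂(ν : Measure X) = v := by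
  have h1 : ∀ᶠ j in l, (μ j).mass ≤ ‖v0‖₊ + 1 := by
    filter_upwards [h0.norm.eventually (gt_mem_nhds (lt_add_one ‖v0‖))] with j hj
    rw [integral_const, Complex.real_smul, mul_one, Complex.norm_real, Real.norm_eq_abs,
      abs_of_nonneg measureReal_nonneg] at hj
    exact NNReal.coe_le_coe.mp hj.le
  obtain ⟨ν, -, hν⟩ :=
    (isCompact_setOfPred_finiteMeasure_le_of_compactSpace X (‖v0‖₊ + 1)).ultrafilter_le_nhds'
      ((Ultrafilter.of l).map μ) (Ultrafilter.of_le l h1)
  refine ⟨ν, fun f v hf hv => ?_⟩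
  have h2 : Tendsto μ (Ultrafilter.of l) (𝓝 ν) := hν
  have h3 := (FiniteMeasure.tendsto_iff_forall_integral_rclike_tendsto ℂ).mp h2
    (BoundedContinuousFunction.mkOfCompact ⟨f, hf⟩)
  exact tendsto_nhds_unique h3 (hv.mono_left (Ultrafilter.of_le l))

/-- measures with a continuous density. -/
theorem herg_dens {X : Type} [TopologicalSpace X] [CompactSpace X] [MeasurableSpace X]
    [BorelSpace X] (μ : Measure X) [IsFiniteMeasure μ] (ρ : X → ℂ) (hc : Continuous ρ)
    (h0 : ∀ x, 0 ≤ ρ x) :
    ∃ ν : FiniteMeasure X, ∀ g : X → ℂ, ∫ x, g x ∂(ν : Measure X) = ∫ x, ρ x * g x ∂μ := by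
  have hf : Continuous fun x => (ρ x).re.toNNReal :=
    continuous_real_toNNReal.comp (Complex.continuous_re.comp hc)
  have := IsLocallyFiniteMeasure.withDensity_coe (μ := μ) hf
  refine ⟨⟨μ.withDensity fun x => ((ρ x).re.toNNReal : ℝ≥0∞), inferInstance⟩, fun g => ?_⟩
  change ∫ x, g x ∂(μ.withDensity fun x => ((ρ x).re.toNNReal : ℝ≥0∞)) = _
  rw [integral_withDensity_eq_integral_smul hf.measurable]
  refine integral_congr_ae (Eventually.of_forall fun x => ?_)
  have h1 := Complex.nonneg_iff.mp (h0 x)
  change (ρ x).re.toNNReal • g x = ρ x * g x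
  rw [NNReal.smul_def, Real.coe_toNNReal _ h1.1, Complex.real_smul]
  congr 1
  exact Complex.ext rfl (by simpa using h1.2)

/-- the one-dimensional count. -/
theorem herg_count (k : ℤ) :
    Tendsto (fun N : ℕ => ((((Finset.Ico (0 : ℤ) N).filter fun t =>
      t + k ∈ Finset.Ico (0 : ℤ) N).card : ℕ) : ℂ) / N) atTop (𝓝 1) := by
  have h1 : Tendsto (fun N : ℕ => 1 - (k.natAbs : ℂ) / N) atTop (𝓝 (1 - 0)) :=
    tendsto_const_nhds.sub (tendsto_const_div_atTop_nhds_zero_nat _)
  rw [sub_zero] at h1
  refine h1.congr' ?_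
  filter_upwards [eventually_ge_atTop (k.natAbs + 1)] with N hN
  have e : ((Finset.Ico (0 : ℤ) N).filter fun t => t + k ∈ Finset.Ico (0 : ℤ) N) =
      Finset.Ico (max 0 (-k)) (min N (N - k)) := by
    ext t
    simp only [Finset.mem_filter, Finset.mem_Ico]
    omega
  have e2 : (min (N : ℤ) (N - k) - max 0 (-k)).toNat = N - k.natAbs := by omega
  have hN0 : (N : ℂ) ≠ 0 := Nat.cast_ne_zero.mpr (by omega)
  rw [e, Int.card_Ico, e2, Nat.cast_sub (by omega)]
  field_simp

section
variable {A : Type} {S : Finset A}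

/-- the pairing with an integral vector. -/
def hergPr {G : Type} [AddCommGroup G] (x : A → G) (m : S → ℤ) : G := ∑ s : S, m s • x s

theorem hergPr_add {G : Type} [AddCommGroup G] (x : A → G) (m n : S → ℤ) :
    hergPr x (m + n) = hergPr x m + hergPr x n := by
  simp only [hergPr, Pi.add_apply, add_smul, Finset.sum_add_distrib]

theorem hergPr_sub {G : Type} [AddCommGroup G] (x : A → G) (m n : S → ℤ) :
    hergPr x (m - n) = hergPr x m - hergPr x n := by
  simp only [hergPr, Pi.sub_apply, sub_smul, Finset.sum_sub_distrib]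

theorem hergPr_zero {G : Type} [AddCommGroup G] (x : A → G) : hergPr x (0 : S → ℤ) = 0 := by
  simp [hergPr]

theorem hergPr_single [DecidableEq A] {G : Type} [AddCommGroup G] (x : A → G) (s : S) :
    hergPr x (Pi.single s 1 : S → ℤ) = x s := by
  simp [hergPr, Pi.single_apply]

theorem hergPr_cont (m : S → ℤ) : Continuous fun x : A → T => ch (hergPr x m) :=
  herg_ch_cont.comp (continuous_finsetSum _ fun s _ => (continuous_apply s.1).zsmul (m s))

variable [Countable A]

/-- Haar measure of the torus. -/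
noncomputable def hergHaar (A : Type) [Countable A] : Measure (A → T) := Measure.addHaarMeasure ⊤

instance : IsProbabilityMeasure (hergHaar A) :=
  ⟨Measure.addHaarMeasure_self (K₀ := (⊤ : TopologicalSpace.PositiveCompacts (A → T)))⟩

instance : (hergHaar A).IsAddLeftInvariant := by unfold hergHaar; infer_instance

theorem herg_orth [DecidableEq A] (m : S → ℤ) :
    ∫ x, ch (hergPr x m) ∂hergHaar A = if m = 0 then 1 else 0 := by
  split_ifs with h
  · simp [h, hergPr_zero, herg_ch_zero]
  · obtain ⟨s, hs⟩ := Function.ne_iff.mp h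
    have hs' : (m s : ℝ) ≠ 0 := Int.cast_ne_zero.mpr hs
    refine integral_eq_zero_of_add_left_eq_neg
      (g := Pi.single s.1 (((1 / 2 / m s : ℝ) : ℝ) : T)) fun x => ?_
    have e1 : hergPr (Pi.single s.1 (((1 / 2 / m s : ℝ) : ℝ) : T) + x) m =
        ((1 / 2 : ℝ) : T) + hergPr x m := by
      simp only [hergPr, Pi.add_apply, smul_add, Finset.sum_add_distrib]
      congr 1
      rw [Finset.sum_eq_single s]
      · rw [Pi.single_eq_same, ← AddCircle.coe_zsmul, zsmul_eq_mul, mul_div_cancel₀ _ hs']
      · intro t _ ht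
        rw [Pi.single_eq_of_ne (fun e => ht (Subtype.ext e)), smul_zero]
      · simp
    rw [e1, herg_ch_add, herg_ch_half, neg_one_mul]

variable [AddCommGroup A] {φ : A → ℂ}

/-- the Fejer kernels. -/
theorem herg_fejer [DecidableEq A] (h : PD φ) (S : Finset A) (N : ℕ) :
    ∃ ν : FiniteMeasure (A → T), ∀ m : S → ℤ, ∫ x, ch (hergPr x m) ∂(ν : Measure (A → T)) =
      φ (hergPr id m) * ∏ s : S, ((((Finset.Ico (0 : ℤ) N).filter fun t =>
        t + m s ∈ Finset.Ico (0 : ℤ) N).card : ℕ) : ℂ) / N := by
  set B : Finset (S → ℤ) := Fintype.piFinset fun _ => Finset.Ico (0 : ℤ) N with hB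
  obtain ⟨ν, hν⟩ := herg_dens (hergHaar A)
    (fun x => (((∏ _s : S, (N : ℝ))⁻¹ : ℝ) : ℂ) * ∑ c ∈ B, ∑ c' ∈ B,
      conj (conj (ch (hergPr x c))) * conj (ch (hergPr x c')) * φ (hergPr id c' - hergPr id c))
    (continuous_const.mul (continuous_finsetSum _ fun c _ => continuous_finsetSum _ fun c' _ =>
      ((Complex.continuous_conj.comp (Complex.continuous_conj.comp (hergPr_cont c))).mul
        (Complex.continuous_conj.comp (hergPr_cont c'))).mul continuous_const))
    fun x => mul_nonneg (Complex.zero_le_real.mpr (by positivity))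
      (herg_pd h B (fun c => hergPr id c) fun c => conj (ch (hergPr x c)))
  refine ⟨ν, fun m => ?_⟩
  have e1 : ∀ x : A → T, (∑ c ∈ B, ∑ c' ∈ B, conj (conj (ch (hergPr x c))) *
      conj (ch (hergPr x c')) * φ (hergPr id c' - hergPr id c)) * ch (hergPr x m) =
      ∑ c ∈ B, ∑ c' ∈ B, φ (hergPr id c' - hergPr id c) * ch (hergPr x (c + m - c')) := by
    intro x
    simp only [Finset.sum_mul]
    refine Finset.sum_congr rfl fun c _ => Finset.sum_congr rfl fun c' _ => ?_
    rw [hergPr_sub, hergPr_add, sub_eq_add_neg (_ + _), herg_ch_add, herg_ch_add, herg_ch_neg,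
      Complex.conj_conj]
    ring
  have hi : ∀ (a : ℂ) (n : S → ℤ),
      Integrable (fun x : A → T => a * ch (hergPr x n)) (hergHaar A) := fun a n =>
    (continuous_const.mul (hergPr_cont n)).integrable_of_hasCompactSupport
      (HasCompactSupport.of_compactSpace _)
  have e2 : ∀ c, ∑ c' ∈ B, φ (hergPr id c' - hergPr id c) * (if c + m - c' = 0 then 1 else 0) =
      if c + m ∈ B then φ (hergPr id m) else 0 := by
    intro c
    simp only [sub_eq_zero, mul_ite, mul_one, mul_zero, Finset.sum_ite_eq, hergPr_add,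
      add_sub_cancel_left]
  have e3 : B.filter (fun c => c + m ∈ B) = Fintype.piFinset fun s =>
      (Finset.Ico (0 : ℤ) N).filter fun t => t + m s ∈ Finset.Ico (0 : ℤ) N := by
    ext c
    simp only [hB, Finset.mem_filter, Fintype.mem_piFinset, Pi.add_apply, forall_and]
  rw [hν]
  simp only [mul_assoc (((∏ _s : S, (N : ℝ))⁻¹ : ℝ) : ℂ), e1]
  rw [integral_const_mul, integral_finsetSum _ fun c _ => integrable_finsetSum _ fun c' _ => hi _ _,
    Finset.sum_congr rfl fun c _ => integral_finsetSum _ fun c' _ => hi _ _]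
  simp only [integral_const_mul, herg_orth, e2]
  rw [← Finset.sum_filter, Finset.sum_const, e3, Fintype.card_piFinset, Finset.prod_div_distrib,
    nsmul_eq_mul]
  push_cast
  ring

/-- finitely many coordinates. -/
theorem herg_fin [DecidableEq A] (h : PD φ) (S : Finset A) :
    ∃ ν : FiniteMeasure (A → T), ∀ m : S → ℤ,
      ∫ x, ch (hergPr x m) ∂(ν : Measure (A → T)) = φ (hergPr id m) := by
  choose μ hμ using herg_fejer h S
  have key : ∀ m : S → ℤ, Tendsto (fun N => ∫ x, ch (hergPr x m) ∂(μ N : Measure (A → T))) atTop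
      (𝓝 (φ (hergPr id m))) := by
    intro m
    simp only [hμ]
    simpa using (tendsto_finsetProd Finset.univ fun s _ => herg_count (m s)).const_mul
      (φ (hergPr id m))
  obtain ⟨ν, hν⟩ := herg_lim atTop μ (φ (hergPr id (0 : S → ℤ)))
    (by simpa only [hergPr_zero (G := T), herg_ch_zero] using key 0)
  exact ⟨ν, fun m => hν _ _ (hergPr_cont m) (key m)⟩

end

theorem sHerg : SHerg := by
  intro A _ _ φ h
  classical
  choose μ hμ using herg_fin h
  have h0 : ∀ S, ∫ _, (1 : ℂ) ∂(μ S : Measure (A → T)) = φ 0 := fun S => by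
    simpa only [hergPr_zero, herg_ch_zero] using hμ S 0
  obtain ⟨ν, hν⟩ := herg_lim atTop μ (φ 0) (by simpa only [h0] using tendsto_const_nhds)
  have h1 : ∫ _, (1 : ℂ) ∂(ν : Measure (A → T)) = φ 0 :=
    hν _ _ continuous_const (by simpa only [h0] using tendsto_const_nhds)
  refine ⟨ν, inferInstance, ?_, fun a => (hν _ _ (herg_ch_cont.comp (continuous_apply a)) ?_).symm⟩
  · refine ae_all_iff.mpr fun a => ae_all_iff.mpr fun b => ?_
    have hc : Continuous fun x : A → T => ch (x (a + b) - x a - x b) :=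
      herg_ch_cont.comp (by fun_prop)
    have h2 : ∫ x, ch (x (a + b) - x a - x b) ∂(ν : Measure (A → T)) = φ 0 := by
      refine hν _ _ hc (tendsto_const_nhds.congr' ?_)
      filter_upwards [eventually_ge_atTop ({a + b, a, b} : Finset A)] with S hS
      have := hμ S (Pi.single ⟨a + b, hS (by simp)⟩ 1 - Pi.single ⟨a, hS (by simp)⟩ 1 -
        Pi.single ⟨b, hS (by simp)⟩ 1)
      simp only [hergPr_sub, hergPr_single, id, add_sub_cancel_left, sub_self] at this
      exact this.symm
    have hc' : Continuous fun x : A → T => 1 - ch (x (a + b) - x a - x b) := continuous_const.sub hc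
    have hi : ∀ {f : (A → T) → ℂ}, Continuous f → Integrable f (ν : Measure (A → T)) :=
      fun hf => hf.integrable_of_hasCompactSupport (HasCompactSupport.of_compactSpace _)
    have h3 : ∫ x, (1 - ch (x (a + b) - x a - x b)).re ∂(ν : Measure (A → T)) = 0 := by
      have := integral_re (hi hc')
      rw [integral_sub (hi continuous_const) (hi hc), h1, h2, sub_self] at this
      simpa using this
    have h4 := (integral_eq_zero_iff_of_nonneg (fun x => ?_) (hi hc').re).mp h3
    · filter_upwards [h4] with x hx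
      have h5 : (ch (x (a + b) - x a - x b)).re = 1 := by
        have : (1 - ch (x (a + b) - x a - x b)).re = 0 := hx
        rw [Complex.sub_re, Complex.one_re] at this
        linarith
      have := herg_ch_re h5
      rwa [sub_sub, sub_eq_zero] at this
    · change 0 ≤ (1 - ch (x (a + b) - x a - x b)).re
      have := Complex.re_le_norm (ch (x (a + b) - x a - x b))
      rw [herg_ch_norm] at this
      rw [Complex.sub_re, Complex.one_re]
      linarith
  · refine tendsto_const_nhds.congr' ?_
    filter_upwards [eventually_ge_atTop ({a} : Finset A)] with S hS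
    have := hμ S (Pi.single ⟨a, hS (by simp)⟩ 1)
    simp only [hergPr_single, id] at this
    exact this.symm

end Pool.Agent.MP_66cee2_co.X
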