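import Pool.Agent.MP_66cee2_co.X.KitR

/-
Part R, row Ar2: arithmetic of the receiving side.
-/

namespace Pool.Agent.MP_66cee2_co.X

open MeasureTheory Set Filter Complex

theorem ar2_ne (j : ℕ) : gi ⟨5 * j, -1⟩ ≠ 0 := fun h => by
  have := gi_injective (h.trans (map_zero gi).symm)
  simpa using congrArg Zsqrtd.im this

theorem ar2_lam (j : ℕ) : lam j * gi ⟨5 * j, -1⟩ = gi ⟨5 * j, 1⟩ :=
  div_mul_cancel₀ _ (ar2_ne j)

theorem ar2_normb (j : ℕ) : ‖((gi ⟨5 * j, -1⟩ : kk) : ℂ)‖ ≤ 5 * j + 1 := by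
  rw [coe_gi_mk]
  refine (norm_add_le _ _).trans (le_of_eq ?_)
  simp

theorem ar2_norm (j : ℕ) : ‖(lam j : ℂ)‖ = 1 := by
  have h := congrArg (fun z : kk => ‖(z : ℂ)‖) (ar2_lam j)
  have h0 : ‖((gi ⟨5 * j, -1⟩ : kk) : ℂ)‖ ≠ 0 :=
    norm_ne_zero_iff.2 fun e => ar2_ne j (Subtype.ext e)
  have h1 : ‖((gi ⟨5 * j, 1⟩ : kk) : ℂ)‖ = ‖((gi ⟨5 * j, -1⟩ : kk) : ℂ)‖ := by
    rw [coe_gi_mk, coe_gi_mk, ← Complex.norm_conj]
    simp [map_ofNat]
  simp only [Subfield.coe_mul, norm_mul] at h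
  rw [h1] at h
  exact mul_right_cancel₀ h0 (h.trans (one_mul _).symm)

theorem ar2_act {x : kk → T} {y : ℂ} {c : kk} (h : Triv x y c) (j : ℕ) :
    Triv (act (lam j) x) (y * lam j) (c * gi ⟨5 * j, -1⟩) :=
  (Triv.act_iff _).2 (h.of_eq ⟨5 * j, 1⟩ (by rw [← ar2_lam]; ring))

theorem ar2_cop (j j' d : ℕ) (hd : d.Coprime 5) :
    IsCoprime ((⟨5 * j, 1⟩ : GaussianInt) * ⟨5 * j', -1⟩ * d) 5 := by
  refine IsCoprime.mul_left (IsCoprime.mul_left ⟨⟨0, -1⟩, ⟨0, j⟩, ?_⟩ ⟨⟨0, 1⟩, ⟨0, -j'⟩, ?_⟩) ?_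
  · ext <;> simp
    ring
  · ext <;> simp
    ring
  · simpa using hd.cast (R := GaussianInt)

theorem ar2_coe5 : ((5 : kk) : ℂ) = 5 := rfl

theorem ar2_five : (5 : kk) ≠ 0 := by exact_mod_cast (by norm_num : (5 : ℕ) ≠ 0)

theorem ar2_sep (S : Finset ℕ) (H : ℕ) (E : ℝ) (hE : 0 ≤ E) (hS : ∀ a ∈ S, a ≤ H)
    (h : ∀ a ∈ S, ∀ b ∈ S, a < b → 1 ≤ E * (b - a)) : (S.card : ℝ) ≤ E * H + 1 := by
  have key : ∀ a ∈ S, ∀ b ∈ S, a < b → ⌊E * a⌋₊ ≠ ⌊E * b⌋₊ := by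
    intro a ha b hb hab e
    have h1 := h a ha b hb hab
    have h2 := Nat.floor_le (mul_nonneg hE (Nat.cast_nonneg a))
    have h3 := Nat.lt_floor_add_one (E * b)
    rw [← e] at h3
    linarith
  have h1 : S.card ≤ (Finset.range (⌊E * H⌋₊ + 1)).card := by
    refine Finset.card_le_card_of_injOn (fun a => ⌊E * a⌋₊) (fun a ha => ?_) fun a ha b hb e => ?_
    · refine Finset.mem_coe.2 (Finset.mem_range.2 (Nat.lt_succ_of_le (Nat.floor_le_floor ?_)))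
      exact mul_le_mul_of_nonneg_left (Nat.cast_le.2 (hS a ha)) hE
    · rcases lt_trichotomy a b with hab | hab | hab
      · exact absurd e (key a ha b hb hab)
      · exact hab
      · exact absurd e.symm (key b hb a ha hab)
  rw [Finset.card_range] at h1
  have h2 := Nat.floor_le (mul_nonneg hE (Nat.cast_nonneg H))
  have h3 : (S.card : ℝ) ≤ (⌊E * H⌋₊ : ℝ) + 1 := by exact_mod_cast h1
  linarith

theorem ar2_dist {M : ℝ} {y y' : ℂ} (h : ‖y‖ ≤ M) (h' : ‖y'‖ ≤ M) (j j' : ℕ) :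
    ‖y * lam j - y' * lam j'‖ ≤ 2 * M := by
  refine (norm_sub_le _ _).trans ?_
  rw [norm_mul, norm_mul, ar2_norm, ar2_norm]
  linarith

theorem sAr2 : SAr2 := by
  classical
  rintro x'' M H H' k k' hk ⟨j, hj, x, ⟨⟨hx, d, y, d0, dM, d5, hy, ht⟩, hn⟩, rfl⟩ hM
  obtain ⟨e, rfl⟩ := Nat.exists_eq_add_of_lt hk
  have hx'' := hx.act (lam j)
  have M0 : (0 : ℝ) ≤ M := Nat.cast_nonneg M
  have dM' : (d : ℝ) ≤ M := Nat.cast_le.2 dM
  have jH : (j : ℝ) ≤ H := Nat.cast_le.2 (Finset.mem_Icc.1 hj).2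
  set P : ℕ → ℕ → Prop := fun d' j' => d'.Coprime 5 ∧ ∃ y' : ℂ, ‖y'‖ ≤ M ∧
    Triv (act (lam j) x) (y' * lam j') ((d' : kk) / 5 ^ (k + e + 1) * gi ⟨5 * j', -1⟩) with hP
  have hsub : ((Finset.Icc 1 H').filter fun j' =>
      ∃ x' ∈ Qs M (k + e + 1), act (lam j) x = act (lam j') x') ⊆
      (Finset.Icc 1 M).biUnion fun d' => (Finset.Icc 1 H').filter (P d') := by
    intro j' hj'
    obtain ⟨h1, x', ⟨-, d', y', h2, h3, h4, h5, h6⟩, h7⟩ := Finset.mem_filter.1 hj'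
    exact Finset.mem_biUnion.2 ⟨d', Finset.mem_Icc.2 ⟨h2, h3⟩,
      Finset.mem_filter.2 ⟨h1, h4, y', h5, h7 ▸ ar2_act h6 j'⟩⟩
  have hone : ∀ d' ∈ Finset.Icc 1 M, ((((Finset.Icc 1 H').filter (P d')).card : ℕ) : ℝ) ≤
      10 * (M : ℝ) ^ 3 * (5 * H + 1) * H' / 5 ^ k + 1 := by
    intro d' hd'
    obtain ⟨d1, d2⟩ := Finset.mem_Icc.1 hd'
    have d2' : (d' : ℝ) ≤ M := Nat.cast_le.2 d2
    have d1' : (1 : ℝ) ≤ d' := by exact_mod_cast d1
    have dne : (d' : kk) ≠ 0 := Nat.cast_ne_zero.2 (by omega)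
    refine (ar2_sep _ H' (10 * (M : ℝ) ^ 3 * (5 * H + 1) / 5 ^ k) (by positivity)
      (fun a ha => (Finset.mem_Icc.1 (Finset.mem_filter.1 ha).1).2) ?_).trans (le_of_eq (by ring))
    intro a ha b hb hab
    obtain ⟨ha1, d5', ya, hya, hta⟩ := Finset.mem_filter.1 ha
    obtain ⟨hb1, -, yb, hyb, htb⟩ := Finset.mem_filter.1 hb
    have aH : (a : ℝ) ≤ H' := Nat.cast_le.2 (Finset.mem_Icc.1 ha1).2
    have bH : (b : ℝ) ≤ H' := Nat.cast_le.2 (Finset.mem_Icc.1 hb1).2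
    -- the two parameters agree
    have hY : ya * lam a = yb * lam b := by
      refine ((hta.mul ⟨5 * b, -1⟩).uniq (htb.of_eq ⟨5 * a, -1⟩ (by ring))
        (mul_ne_zero (mul_ne_zero (div_ne_zero dne (pow_ne_zero _ ar2_five)) (ar2_ne a))
          (ar2_ne b))).resolve_right (not_le.2 ?_)
      have h1 : (2 : ℝ) * M * (M * (5 * H' + 1)) ^ 2 < 5 ^ (k + e + 1) := by exact_mod_cast hM
      have h2 : ‖(((d' : kk) / 5 ^ (k + e + 1) * gi ⟨5 * a, -1⟩ * gi ⟨5 * b, -1⟩ : kk) : ℂ)‖ ≤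
          M * M / 5 ^ (k + e + 1) * (5 * H' + 1) * (5 * H' + 1) := by
        push_cast
        rw [norm_mul, norm_mul, norm_div, norm_pow, Complex.norm_natCast, ar2_coe5,
          Complex.norm_ofNat]
        have := ar2_normb a
        have := ar2_normb b
        gcongr <;> nlinarith
      refine (mul_le_mul (ar2_dist hya hyb a b) h2 (norm_nonneg _) (by positivity)).trans_lt ?_
      rw [show 2 * (M : ℝ) * (M * M / 5 ^ (k + e + 1) * (5 * H' + 1) * (5 * H' + 1)) =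
        2 * M * (M * (5 * H' + 1)) ^ 2 / 5 ^ (k + e + 1) by ring, div_lt_one (by positivity)]
      exact h1
    -- they differ from the parameter at level `k`
    have hne : y * lam j ≠ ya * lam a := by
      intro hE
      rw [← hE, Triv.act_iff] at hta
      obtain ⟨u, v, huv⟩ := ar2_cop j a d' d5'
      have huv' := congrArg gi huv
      simp only [map_add, map_mul, map_one, map_natCast, map_ofNat, ← ar2_lam j] at huv'
      refine hn ⟨hx, d, y, d0, dM, d5, hy, Triv.bezout hx hta ht (⟨5 * j, -1⟩ * d * 5 ^ e * u) v ?_⟩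
      simp only [map_mul, map_natCast, map_pow, map_ofNat]
      have := ar2_five
      field_simp
      linear_combination (-(5 : kk) ^ (k + e + 1) * 5 ^ k * d) * huv'
    rw [← hY] at htb
    obtain ⟨n, rfl⟩ := Nat.exists_eq_add_of_lt hab
    have e1 : gi ⟨5 * ((a + n + 1 : ℕ) : ℤ), -1⟩ = gi ⟨5 * a, -1⟩ + 5 * ((n + 1 : ℕ) : kk) := by
      apply Subtype.ext
      push_cast [coe_gi_mk, ar2_coe5]
      ring
    have h1 : Triv (act (lam j) x) (ya * lam a)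
        ((d : kk) / 5 ^ k * gi ⟨5 * j, -1⟩ * gi (d' * (n + 1 : ℕ))) := by
      refine (htb.sub hx'' hta).of_eq (5 ^ e * d * ⟨5 * j, -1⟩) ?_
      rw [e1]
      simp only [map_mul, map_natCast, map_pow, map_ofNat]
      have := ar2_five
      field_simp
      ring
    have h2 := (((ar2_act ht j).mul (d' * (n + 1 : ℕ))).uniq h1 (mul_ne_zero (mul_ne_zero
      (div_ne_zero (Nat.cast_ne_zero.2 d0.ne') (pow_ne_zero _ ar2_five)) (ar2_ne j)) (by
        rw [map_mul, map_natCast, map_natCast]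
        exact mul_ne_zero dne (Nat.cast_ne_zero.2 n.succ_ne_zero)))).resolve_left hne
    have h3 : ‖(((d : kk) / 5 ^ k * gi ⟨5 * j, -1⟩ * gi (d' * (n + 1 : ℕ)) : kk) : ℂ)‖ ≤
        M / 5 ^ k * (5 * H + 1) * (M * ((n + 1 : ℕ) : ℝ)) := by
      rw [map_mul, map_natCast, map_natCast, Subfield.coe_mul, Subfield.coe_mul, Subfield.coe_mul,
        Subfield.coe_div, SubmonoidClass.coe_pow, SubringClass.coe_natCast,
        SubringClass.coe_natCast, SubringClass.coe_natCast, norm_mul, norm_mul, norm_mul, norm_div,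
        norm_pow, Complex.norm_natCast, Complex.norm_natCast, Complex.norm_natCast,
        show ‖((5 : kk) : ℂ)‖ = 5 from Complex.norm_ofNat 5]
      have := ar2_normb j
      gcongr
      linarith
    refine (h2.trans (mul_le_mul (ar2_dist hy hya j a) h3 (norm_nonneg _) (by positivity))).trans ?_
    have h4 : (0 : ℝ) ≤ (M : ℝ) ^ 3 * (5 * H + 1) / 5 ^ k * (n + 1) := by positivity
    push_cast
    calc 2 * (M : ℝ) * (M / 5 ^ k * (5 * H + 1) * (M * (n + 1))) =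
          2 * ((M : ℝ) ^ 3 * (5 * H + 1) / 5 ^ k * (n + 1)) := by ring
      _ ≤ 10 * ((M : ℝ) ^ 3 * (5 * H + 1) / 5 ^ k * (n + 1)) := by linarith
      _ = _ := by ring
  have h1 := (Finset.card_le_card hsub).trans Finset.card_biUnion_le
  have h2 := Finset.sum_le_card_nsmul _ _ _ hone
  rw [Nat.card_Icc, Nat.add_sub_cancel, nsmul_eq_mul] at h2
  refine le_trans ?_ h2
  exact_mod_cast h1

end Pool.Agent.MP_66cee2_co.X
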