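import Pool.Agent.MP_66cee2_co.X.KitZ

/-
Part R, row Chain: the pigeonhole principle along the two towers.
-/

namespace Pool.Agent.MP_66cee2_co.X

open Set Complex

/-- the lattices of the tower. -/
noncomputable def chainC (p : kk) (N a b : ℕ) : kk := ((N : kk) * p ^ a * (5 / p) ^ b)⁻¹

/-- the new generator at step `t`. -/
noncomputable def chainG (p : kk) (h t : ℕ) : kk := (5 / p / p) ^ (h * t) * p⁻¹ ^ h

theorem chain_natne {N : ℕ} (hN : N.Coprime 5) : (N : kk) ≠ 0 := by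
  have : N ≠ 0 := by rintro rfl; simp at hN
  exact_mod_cast this

theorem chain_den (p : kk) (hp : IsP p) (F : Finset kk) (hF : ∀ z ∈ F, z ∈ Zp p) :
    ∃ N b : ℕ, N.Coprime 5 ∧ ∀ z ∈ F, ∃ r, (N : kk) * (5 / p) ^ b * z = gi r := by
  classical
  obtain ⟨P, Q, h⟩ := hp.exists_PQ
  induction F using Finset.induction_on with
  | empty => exact ⟨1, 0, by simp, by simp⟩
  | insert a s _ ih =>
    obtain ⟨N, b, hN, hs⟩ := ih fun z hz => hF z (Finset.mem_insert_of_mem hz)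
    obtain ⟨r', N', b', hN', e'⟩ := hF a (Finset.mem_insert_self _ _)
    refine ⟨N * N', b + b', Nat.Coprime.mul_left hN hN', fun z hz => ?_⟩
    rcases Finset.mem_insert.1 hz with rfl | hz
    · refine ⟨r' * (N * Q ^ b), ?_⟩
      simp only [map_mul, map_pow, map_natCast, h.hQ, ← e']
      push_cast
      ring
    · obtain ⟨r, e⟩ := hs z hz
      refine ⟨r * (N' * Q ^ b'), ?_⟩
      simp only [map_mul, map_pow, map_natCast, h.hQ, ← e]
      push_cast
      ring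

theorem chain_eps (F : Finset kk) {ε : ℝ} (hε : 0 < ε) :
    ∃ η : ℝ, 0 < η ∧ ∀ z ∈ F, η * ‖(z : ℂ)‖ ≤ ε := by
  have h0 : 0 ≤ ∑ z ∈ F, ‖(z : ℂ)‖ := Finset.sum_nonneg fun _ _ => norm_nonneg _
  refine ⟨ε / (1 + ∑ z ∈ F, ‖(z : ℂ)‖), by positivity, fun z hz => ?_⟩
  have h1 := Finset.single_le_sum (f := fun z : kk => ‖(z : ℂ)‖) (fun _ _ => norm_nonneg _) hz
  rw [div_mul_eq_mul_div, div_le_iff₀ (by positivity)]
  exact mul_le_mul_of_nonneg_left (by linarith) hε.le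

theorem chain_normu {p : kk} (hp : IsP p) (n : ℕ) (z : kk) :
    ‖(((5 / p / p) ^ n * z : kk) : ℂ)‖ = ‖(z : ℂ)‖ := by
  rw [Subfield.coe_mul, SubmonoidClass.coe_pow, norm_mul, norm_pow, hp.norm_quot, one_pow, one_mul]

theorem chain_normg {p : kk} (hp : IsP p) (h t : ℕ) : ‖(chainG p h t : ℂ)‖ ≤ 1 := by
  unfold chainG
  rw [chain_normu hp, SubmonoidClass.coe_pow, norm_pow, Subfield.coe_inv, norm_inv]
  exact pow_le_one₀ (by positivity) (inv_le_one_of_one_le₀ hp.one_le_norm)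

/-- one step up the tower. -/
theorem chain_step {p : kk} (hp : IsP p) {N : ℕ} (hN : N.Coprime 5) (b h t : ℕ) {ξ : kk → T}
    (hξ : IsChar ξ) {w : ℂ} (ht : Triv ξ w (chainC p N (h * t) b))
    (hg : ξ (chainG p h t) = ee w (chainG p h t)) : Triv ξ w (chainC p N (h * (t + 1)) b) := by
  obtain ⟨P, Q, H⟩ := hp.exists_PQ
  rw [triv_iff] at *
  intro r
  obtain ⟨n, s, hs⟩ := H.gen hN (b + h * t) h r
  have e0 := congrArg gi hs
  simp only [map_sub, map_mul, map_pow, map_natCast, map_intCast, H.hP, H.hQ] at e0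
  have e : chainC p N (h * (t + 1)) b * gi r =
      (n : kk) * chainG p h t + chainC p N (h * t) b * gi s := by
    have h0 := hp.ne_zero
    have h1 := hp.conj_ne_zero
    have h2 := chain_natne hN
    unfold chainC chainG
    rw [eq_add_of_sub_eq e0]
    generalize 5 / p = q at *
    rw [div_pow, inv_pow, mul_add h t 1, mul_one, pow_add, pow_add]
    field_simp
    ring
  rw [e, hξ, ee_add_right, ht, hξ.intCast_mul, (isChar_ee w).intCast_mul, hg]

theorem chain_tors {p : kk} (hp : IsP p) {N : ℕ} (hN : N.Coprime 5) (b h t : ℕ) {ξ : kk → T}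
    (hξ : IsChar ξ) {w : ℂ} (ht : Triv ξ w (chainC p N (h * t) b)) :
    5 ^ h • (ξ (chainG p h t) - ee w (chainG p h t)) = 0 := by
  obtain ⟨P, Q, H⟩ := hp.exists_PQ
  have e : ((5 ^ h : ℕ) : kk) * chainG p h t =
      chainC p N (h * t) b * gi (N * Q ^ (b + h * t + h)) := by
    have h0 := hp.ne_zero
    have h1 := hp.conj_ne_zero
    have h2 := chain_natne hN
    have h3 := hp.mul_conj
    simp only [map_mul, map_pow, map_natCast, H.hQ]
    unfold chainC chainG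
    push_cast
    generalize 5 / p = q at *
    rw [← h3, div_pow, inv_pow, mul_pow, pow_add, pow_add]
    field_simp
  rw [smul_sub, ← hξ.natCast_mul, ← (isChar_ee w).natCast_mul, e, triv_iff.1 ht, sub_self]

/-- one tower. -/
theorem chain_dir {p : kk} (hp : IsP p) {N : ℕ} (hN : N.Coprime 5) (b : ℕ) {h L : ℕ}
    {K : Fin L → Set (kk → T)} {F : Finset kk} {ε : ℝ} (hP : Pred p h K F ε)
    (hF : ∀ z ∈ F, ∃ r, (N : kk) * (5 / p) ^ b * z = gi r) {W : T → Fin (5 ^ h)}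
    (hW : ∀ a a', 5 ^ h • a = 5 ^ h • a' → W a = W a' → a = a') {x x' : kk → T} (hx : IsChar x)
    (hx' : IsChar x') {y y' : ℂ} (h0 : Triv (x - x') (y - y') (chainC p N 0 b))
    (h1 : ∀ z ∈ F, ‖y - y'‖ * ‖(z : ℂ)‖ ≤ ε) (h2 : ‖y - y'‖ ≤ 1 / (2 * 5 ^ h)) (m : ℕ)
    (hc : ∀ t < m, (∃ i, act ((5 / p / p) ^ (h * t)) x ∈ K i ∧
        act ((5 / p / p) ^ (h * t)) x' ∈ K i) ∨
      W (x (chainG p h t) - ee y (chainG p h t)) = W (x' (chainG p h t) - ee y' (chainG p h t))) :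
    Triv (x - x') (y - y') (p ^ (h * m))⁻¹ := by
  obtain ⟨P, Q, H⟩ := hp.exists_PQ
  have p0 := hp.ne_zero
  have q0 := hp.conj_ne_zero
  have N0 := chain_natne hN
  have hξ := hx.sub hx'
  have key : ∀ t ≤ m, Triv (x - x') (y - y') (chainC p N (h * t) b) := by
    intro t
    induction t with
    | zero => exact fun _ => h0
    | succ t ih =>
      intro htm
      have ht := ih (by omega)
      have hz := chain_tors hp hN b h t hξ ht
      refine chain_step hp hN b h t hξ ht ?_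
      rcases hc t (by omega) with ⟨i, hi, hi'⟩ | hd
      · have h3 := hP.2.2 i _ hi _ hi' fun z hz => by
          obtain ⟨r, hr⟩ := hF z hz
          have e : (5 / p / p) ^ (h * t) * z = chainC p N (h * t) b * gi (Q ^ (h * t) * r) := by
            simp only [map_mul, map_pow, H.hQ, ← hr]
            unfold chainC
            generalize 5 / p = q at *
            rw [div_pow]
            field_simp
          have e2 : (x - x') ((5 / p / p) ^ (h * t) * z) =
              ee (y - y') ((5 / p / p) ^ (h * t) * z) := by rw [e, triv_iff.1 ht]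
          show ‖(x - x') ((5 / p / p) ^ (h * t) * z)‖ ≤ ε
          rw [e2]
          refine (norm_ee_le _ _).trans ?_
          rw [chain_normu hp]
          exact h1 z hz
        have h4 : ‖(x - x') (chainG p h t)‖ < 1 / (2 * 5 ^ h) := h3
        have h5 : ‖ee (y - y') (chainG p h t)‖ ≤ 1 / (2 * 5 ^ h) :=
          (norm_ee_le _ _).trans ((mul_le_of_le_one_right (norm_nonneg _)
            (chain_normg hp h t)).trans h2)
        refine sub_eq_zero.1 (torsion_small (by positivity) hz ((norm_sub_le _ _).trans_lt ?_))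
        push_cast
        have : (1 : ℝ) / 5 ^ h = 1 / (2 * 5 ^ h) + 1 / (2 * 5 ^ h) := by field_simp; ring
        linarith
      · rw [Pi.sub_apply, ee_sub_left] at hz ⊢
        have h3 := hW _ _ (by
          rw [← sub_eq_zero, ← smul_sub, ← hz]
          congr 1
          abel) hd
        rw [sub_eq_sub_iff_sub_eq_sub, h3]
  refine (key m le_rfl).of_eq (N * Q ^ b) ?_
  simp only [map_mul, map_pow, map_natCast, H.hQ]
  unfold chainC
  generalize 5 / p = q at *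
  field_simp

open Classical in
/-- the itinerary of a point. -/
noncomputable def chainCode {L B : ℕ} (K : Fin L → Set (kk → T)) (W : T → Fin B) (m : ℕ)
    (v : ℕ → kk → T) (a : ℕ → T) : Fin m → Fin L ⊕ Fin B := fun t =>
  if h : ∃ i, v t ∈ K i then Sum.inl h.choose else Sum.inr (W (a t))

open Classical in
theorem chainCode_card {L B : ℕ} (K : Fin L → Set (kk → T)) (W : T → Fin B) (m : ℕ)
    (v : ℕ → kk → T) (a : ℕ → T) :
    (Finset.univ.filter fun t => (chainCode K W m v a t).isRight).card ≤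
      ((Finset.range m).filter fun t => v t ∉ ⋃ i, K i).card := by
  refine Finset.card_le_card_of_injOn Fin.val (fun t ht => ?_) Fin.val_injective.injOn
  refine Finset.mem_coe.2 (Finset.mem_filter.2 ⟨Finset.mem_range.2 t.2, fun hh => ?_⟩)
  have h1 := (Finset.mem_filter.1 (Finset.mem_coe.1 ht)).2
  unfold chainCode at h1
  rw [dif_pos (mem_iUnion.1 hh)] at h1
  simp at h1

theorem chainCode_eq {L B : ℕ} {K : Fin L → Set (kk → T)} {W : T → Fin B} {m : ℕ}
    {v v' : ℕ → kk → T} {a a' : ℕ → T} (h : chainCode K W m v a = chainCode K W m v' a') :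
    ∀ t < m, (∃ i, v t ∈ K i ∧ v' t ∈ K i) ∨ W (a t) = W (a' t) := by
  intro t ht
  have h1 := congrFun h ⟨t, ht⟩
  unfold chainCode at h1
  split_ifs at h1 with g g'
  · exact Or.inl ⟨_, g.choose_spec, Sum.inl.inj h1 ▸ g'.choose_spec⟩
  · exact Or.inr (Sum.inr.inj h1)

theorem chain_den2 {p : kk} (hp : IsP p) (F F' : Finset kk) (hF : ∀ z ∈ F, z ∈ Zp p)
    (hF' : ∀ z ∈ F', z ∈ Zp (5 / p)) : ∃ N b b' : ℕ, N.Coprime 5 ∧
      (∀ z ∈ F, ∃ r, (N : kk) * (5 / p) ^ b * z = gi r) ∧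
      ∀ z ∈ F', ∃ r, (N : kk) * (5 / (5 / p)) ^ b' * z = gi r := by
  obtain ⟨N1, b, hN1, g⟩ := chain_den p hp F hF
  obtain ⟨N2, b', hN2, g'⟩ := chain_den _ hp.conj F' hF'
  refine ⟨N1 * N2, b, b', Nat.Coprime.mul_left hN1 hN2, fun z hz => ?_, fun z hz => ?_⟩
  · obtain ⟨r, hr⟩ := g z hz
    exact ⟨r * N2, by rw [map_mul, map_natCast, ← hr]; push_cast; ring⟩
  · obtain ⟨r, hr⟩ := g' z hz
    exact ⟨r * N1, by rw [map_mul, map_natCast, ← hr]; push_cast; ring⟩

theorem chain_ne {p : kk} (hp : IsP p) {N : ℕ} (hN : N.Coprime 5) (a b : ℕ) :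
    chainC p N a b ≠ 0 :=
  inv_ne_zero (mul_ne_zero (mul_ne_zero (chain_natne hN) (pow_ne_zero _ hp.ne_zero))
    (pow_ne_zero _ hp.conj_ne_zero))

theorem chain_symm {p : kk} (hp : IsP p) (N a b : ℕ) : chainC (5 / p) N a b = chainC p N b a := by
  unfold chainC
  rw [hp.conj_conj, mul_right_comm]

theorem chain_down {p : kk} (hp : IsP p) {N : ℕ} (hN : N.Coprime 5) {a b : ℕ} {ξ : kk → T} {w : ℂ}
    (h : Triv ξ w (chainC p N a b)) : Triv ξ w (chainC p N 0 b) := by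
  obtain ⟨P, Q, H⟩ := hp.exists_PQ
  have p0 := hp.ne_zero
  have q0 := hp.conj_ne_zero
  have N0 := chain_natne hN
  refine h.of_eq (P ^ a) ?_
  rw [map_pow, H.hP]
  unfold chainC
  generalize 5 / p = q at *
  field_simp

theorem chain_end {p : kk} (hp : IsP p) {n : ℕ} {ξ : kk → T} (hξ : IsChar ξ) {w : ℂ}
    (h : Triv ξ w (p ^ n)⁻¹) (h' : Triv ξ w ((5 / p) ^ n)⁻¹) : Triv ξ w (1 / 5 ^ n) := by
  obtain ⟨P, Q, H⟩ := hp.exists_PQ
  have p0 := hp.ne_zero
  have q0 := hp.conj_ne_zero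
  obtain ⟨u, v, huv⟩ := H.cop.pow (m := n) (n := n)
  have e := congrArg gi huv
  simp only [map_add, map_mul, map_pow, map_one, H.hP, H.hQ] at e
  refine Triv.bezout hξ h h' v u ?_
  have h3 := hp.mul_conj
  generalize 5 / p = q at *
  rw [← h3, mul_pow]
  field_simp
  linear_combination -e

theorem chain_cells {c : kk} (c0 : c ≠ 0) {e : ℝ} (he : 0 < e) : ∃ A : Finset ℂ,
    ∀ x : kk → T, ∃ y a : ℂ, IsChar x → Triv x y c ∧ a ∈ A ∧ dist y a < e := by
  have c0' : 0 < ‖(c : ℂ)‖ := norm_pos_iff.2 fun e => c0 (Subtype.ext e)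
  obtain ⟨A, hA, hAc⟩ := Metric.totallyBounded_iff.1
    (isCompact_closedBall (0 : ℂ) (2 / ‖(c : ℂ)‖)).totallyBounded e he
  refine ⟨hA.toFinset, fun x => ?_⟩
  by_cases hx : IsChar x
  · obtain ⟨y, g1, g2⟩ := Triv.exi hx c0
    obtain ⟨a, ha, ha'⟩ := mem_iUnion₂.1 (hAc (show y ∈ Metric.closedBall 0 _ from
      mem_closedBall_zero_iff.2 ((le_div_iff₀ c0').2 g1)))
    exact ⟨y, a, fun _ => ⟨g2, hA.mem_toFinset.2 ha, ha'⟩⟩
  · exact ⟨0, 0, fun g => absurd g hx⟩

open Classical in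
theorem chain_cnt (h1 : SCnt) {L B : ℕ} (hB : 0 < B) (K : Fin L → Set (kk → T)) (W : T → Fin B)
    (m : ℕ) (r : ℝ) : ∃ C : Finset (Fin m → Fin L ⊕ Fin B),
      (∀ (v : ℕ → kk → T) (a : ℕ → T),
        (((Finset.range m).filter fun t => v t ∉ ⋃ i, K i).card : ℝ) ≤ r →
          chainCode K W m v a ∈ C) ∧ (C.card : ℝ) ≤ ((L : ℝ) + 1) ^ m * (B : ℝ) ^ r :=
  ⟨_, fun v a hc => Finset.mem_filter.2
    ⟨Finset.mem_univ _, (Nat.cast_le.2 (chainCode_card K W m v a)).trans hc⟩, h1 m L B r hB⟩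

theorem chain_card {α β γ : Type} (A : Finset α) (C : Finset β) (C' : Finset γ) {L L' h m s : ℕ}
    {δ : ℝ} (hC : (C.card : ℝ) ≤ ((L : ℝ) + 1) ^ m * ((5 ^ h : ℕ) : ℝ) ^ (δ * m))
    (hC' : (C'.card : ℝ) ≤ ((L' : ℝ) + 1) ^ m * ((5 ^ h : ℕ) : ℝ) ^ (δ * m))
    (hS : (A.card : ℝ) * (((L : ℝ) + 1) * (L' + 1)) ^ m * (5 : ℝ) ^ (2 * h * δ * m) < s) :
    (A ×ˢ C ×ˢ C').card < s := by
  have e5 : (5 : ℝ) ^ (2 * h * δ * m) =
      ((5 ^ h : ℕ) : ℝ) ^ (δ * m) * ((5 ^ h : ℕ) : ℝ) ^ (δ * m) := by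
    rw [Nat.cast_pow, Nat.cast_ofNat, ← Real.rpow_natCast, ← Real.rpow_mul (by norm_num),
      ← Real.rpow_add (by norm_num)]
    congr 1
    ring
  have h3 := mul_le_mul_of_nonneg_left (mul_le_mul hC hC' (by positivity) (by positivity))
    (Nat.cast_nonneg (α := ℝ) A.card)
  rw [Finset.card_product, Finset.card_product, ← Nat.cast_lt (α := ℝ), Nat.cast_mul,
    Nat.cast_mul]
  refine h3.trans_lt (lt_of_eq_of_lt ?_ hS)
  rw [e5, mul_pow]
  ring

theorem sChain (h1 : SCnt) : SChain := by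
  intro p h L L' K F ε K' F' ε' δ hp hh hδ hP hP'
  obtain ⟨N, b, b', hN, gF, gF'⟩ := chain_den2 hp F F' hP.2.1 hP'.2.1
  obtain ⟨η, η0, hη⟩ := chain_eps F hP.1
  obtain ⟨η', η0', hη'⟩ := chain_eps F' hP'.1
  have h5 : 0 < 5 ^ h := by positivity
  obtain ⟨W, -, hW⟩ := exists_digit h5
  obtain ⟨e0, he0⟩ : ∃ e0 : ℝ, e0 = min (1 / (2 * 5 ^ h)) (min η η') := ⟨_, rfl⟩
  have e00 : 0 < e0 := by rw [he0]; positivity
  obtain ⟨A, hA⟩ := chain_cells (chain_ne hp hN b' b) (half_pos e00)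
  choose y a hy using hA
  refine ⟨A.card, fun m S x hx hS => ?_⟩
  obtain ⟨C, hC1, hC2⟩ := chain_cnt h1 h5 K W m (δ * m)
  obtain ⟨C', hC1', hC2'⟩ := chain_cnt h1 h5 K' W m (δ * m)
  obtain ⟨j, hj, j', hj', hne, he⟩ := Finset.exists_ne_map_eq_of_card_lt_of_maps_to
    (chain_card A C C' hC2 hC2' hS)
    (f := fun j => (a (x j),
      chainCode K W m (fun t => act ((5 / p / p) ^ (h * t)) (x j))
        (fun t => x j (chainG p h t) - ee (y (x j)) (chainG p h t)),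
      chainCode K' W m (fun t => act ((p / (5 / p)) ^ (h * t)) (x j))
        (fun t => x j (chainG (5 / p) h t) - ee (y (x j)) (chainG (5 / p) h t))))
    fun j hj => Finset.mem_coe.2 (Finset.mk_mem_product (hy _ (hx j hj).1).2.1
      (Finset.mk_mem_product (hC1 _ _ (hx j hj).2.1) (hC1' _ _ (hx j hj).2.2)))
  obtain ⟨ea, ec⟩ := Prod.mk.inj he
  obtain ⟨ec, ec'⟩ := Prod.mk.inj ec
  have c1 := (hx j hj).1
  have c2 := (hx j' hj').1
  have hd : ‖y (x j) - y (x j')‖ ≤ e0 := by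
    have g1 := (hy _ c1).2.2
    have g2 := (hy _ c2).2.2
    rw [← ea] at g2
    rw [← dist_eq_norm]
    linarith [dist_triangle_right (y (x j)) (y (x j')) (a (x j))]
  rw [he0, le_min_iff, le_min_iff] at hd
  obtain ⟨d1, d2, d3⟩ := hd
  have t0 := (hy _ c1).1.sub_sub (hy _ c2).1
  have t1 := chain_dir hp hN b hP gF hW c1 c2 (chain_down hp hN t0)
    (fun z hz => (mul_le_mul_of_nonneg_right d2 (norm_nonneg _)).trans (hη z hz)) d1 m
    (chainCode_eq ec)
  have t2 := chain_dir hp.conj hN b' hP' gF' hW c1 c2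
    (chain_down hp.conj hN (a := b) ((chain_symm hp N b b').symm ▸ t0))
    (fun z hz => (mul_le_mul_of_nonneg_right d3 (norm_nonneg _)).trans (hη' z hz)) d1 m
    (by rw [hp.conj_conj]; exact chainCode_eq ec')
  refine ⟨j, hj, j', hj', hne, _, d1.trans ?_, chain_end hp (c1.sub c2) t1 t2⟩
  rw [div_le_one (by positivity)]
  have : (1 : ℝ) ≤ 5 ^ h := one_le_pow₀ (by norm_num)
  linarith

end Pool.Agent.MP_66cee2_co.X
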