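import Pool.Agent.MP_66cee2_co.X.SpecR2

/-! The number of itineraries with few failures. -/

namespace Pool.Agent.MP_66cee2_co.X

open Finset

theorem sCnt : SCnt := by
  intro m L B r hB
  have B1 : (1 : ℝ) ≤ B := by exact_mod_cast hB
  have B0 : (0 : ℝ) < B := by positivity
  let w : Fin L ⊕ Fin B → ℝ := fun s => if s.isRight then (B : ℝ)⁻¹ else 1
  have h1 : ∑ c : Fin m → Fin L ⊕ Fin B, ∏ t, w (c t) = ((L : ℝ) + 1) ^ m := by
    rw [← Fintype.piFinset_univ, ← prod_univ_sum]
    simp [w, B0.ne']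
  rw [← h1, sum_mul, card_eq_sum_ones, Nat.cast_sum]
  refine (sum_le_sum fun c hc => ?_).trans (sum_le_sum_of_subset_of_nonneg (filter_subset _ _)
    fun c _ _ => mul_nonneg (prod_nonneg fun t _ => by simp only [w]; positivity) (by positivity))
  simp only [w, prod_ite, prod_const, one_pow, mul_one, Nat.cast_one]
  rw [inv_pow, ← div_eq_inv_mul, one_le_div (by positivity), ← Real.rpow_natCast]
  exact Real.rpow_le_rpow_of_exponent_le B1 (mem_filter.1 hc).2

end Pool.Agent.MP_66cee2_co.X
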