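import Pool.Agent.MP_66cee2_co.X.SpecR2

/-
Row Det: the deterministic part of the mass transport.
-/

namespace Pool.Agent.MP_66cee2_co.X

open Finset

theorem det_sum (w a : ℕ → ℝ) (w0 : ∀ k, 0 ≤ w k) (w1 : ∀ k, w k ≤ 1) (a0 : ∀ k, 0 ≤ a k)
    (hw : ∀ k k', k < k' → 0 < w k → w k' ≤ a k) (ha : ∀ n, ∑ k ∈ range n, a k ≤ 1) (n : ℕ) :
    ∑ k ∈ range n, w k ≤ 2 := by
  have key : ∀ n, ∑ k ∈ range n, w k = 0 ∨
      ∃ l < n, 0 < w l ∧ ∑ k ∈ range n, w k ≤ 1 + ∑ k ∈ range l, a k := by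
    intro n
    induction n with
    | zero => simp
    | succ n ih =>
      rw [sum_range_succ]
      rcases (w0 n).eq_or_lt with h | h
      · rw [← h, add_zero]
        rcases ih with ih | ⟨l, h1, h2, h3⟩
        · exact Or.inl ih
        · exact Or.inr ⟨l, by omega, h2, h3⟩
      · refine Or.inr ⟨n, by omega, h, ?_⟩
        rcases ih with ih | ⟨l, h1, h2, h3⟩
        · have := sum_nonneg (s := range n) fun k _ => a0 k
          rw [ih]; linarith [w1 n]
        · have h4 := hw l n h1 h2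
          have h5 : ∑ k ∈ range (l + 1), a k ≤ ∑ k ∈ range n, a k :=
            sum_le_sum_of_subset_of_nonneg (range_mono (by omega)) fun k _ _ => a0 k
          rw [sum_range_succ] at h5
          linarith
  rcases key n with h | ⟨l, -, -, h⟩
  · rw [h]; norm_num
  · linarith [ha l]

theorem det_geom (n : ℕ) : ∑ i ∈ range n, (1 / 2 : ℝ) ^ (i / 2) ≤ 4 := by
  have key : ∀ t, ∑ i ∈ range (2 * t), (1 / 2 : ℝ) ^ (i / 2) = 4 - 4 * (1 / 2) ^ t := by
    intro t
    induction t with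
    | zero => simp
    | succ t ih =>
      have e1 : 2 * t / 2 = t := by omega
      have e2 : (2 * t + 1) / 2 = t := by omega
      rw [show 2 * (t + 1) = 2 * t + 1 + 1 by ring, sum_range_succ, sum_range_succ, ih, e1, e2]
      ring
  have h : ∑ i ∈ range n, (1 / 2 : ℝ) ^ (i / 2) ≤ ∑ i ∈ range (2 * n), (1 / 2 : ℝ) ^ (i / 2) :=
    sum_le_sum_of_subset_of_nonneg (range_mono (by omega)) fun k _ _ => by positivity
  rw [key] at h
  have : (0 : ℝ) ≤ (1 / 2) ^ n := by positivity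
  linarith

theorem det_pow (i : ℕ) (hi : 10 ≤ i) : 50 * (2 ^ i) ^ 4 < 5 ^ (2 * i) := by
  induction i, hi using Nat.le_induction with
  | base => norm_num
  | succ i _ ih =>
    have e1 : 50 * (2 ^ (i + 1)) ^ 4 = 16 * (50 * (2 ^ i) ^ 4) := by ring
    have e2 : 5 ^ (2 * (i + 1)) = 25 * 5 ^ (2 * i) := by ring
    omega

theorem det_M (j : ℕ) (hj : 7 ≤ j) : (10 * 4 ^ j) ^ 4 ≤ 2 ^ (10 * j) := by
  have h : 10000 ≤ 4 ^ j := le_trans (by norm_num) (Nat.pow_le_pow_right (by norm_num) hj)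
  have e1 : (10 * 4 ^ j) ^ 4 = 10000 * (4 ^ j) ^ 4 := by ring
  have e2 : 2 ^ (10 * j) = 4 ^ j * (4 ^ j) ^ 4 := by
    rw [← pow_succ', ← pow_mul, show (4 : ℕ) = 2 ^ 2 by norm_num, ← pow_mul]
    congr 1; ring
  rw [e1, e2]
  exact Nat.mul_le_mul_right _ h

theorem det_exp (h : ℕ) (C₀ : ℝ) : ∃ j₀ : ℕ, ∀ i, j₀ ≤ i → ∀ k : ℕ,
    k ≤ 20 * i + 50 → 2 * (C₀ * Real.exp (1 / 100 * (h * (2 * k / h + 1 : ℕ)))) ≤ 2 ^ i := by
  obtain ⟨j₀, hj⟩ := pow_unbounded_of_one_lt (2 * |C₀| * Real.exp (h / 100 + 1))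
    (show (1 : ℝ) < 6 / 5 by norm_num)
  refine ⟨j₀, fun i hi k hk => ?_⟩
  have h1 : h * (2 * k / h + 1) ≤ 2 * k + h := by
    have := Nat.mul_div_le (2 * k) h
    rw [mul_add, mul_one]; omega
  have h2 : (h : ℝ) * (2 * k / h + 1 : ℕ) ≤ 2 * k + h := by exact_mod_cast h1
  have h3 : (k : ℝ) ≤ 20 * i + 50 := by exact_mod_cast hk
  have h4 : Real.exp (2 / 5) ≤ 5 / 3 :=
    (Real.exp_bound_div_one_sub_of_interval (by norm_num) (by norm_num)).trans (by norm_num)
  have h5 : Real.exp (1 / 100 * (h * (2 * k / h + 1 : ℕ))) ≤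
      Real.exp (h / 100 + 1) * (5 / 3) ^ i := by
    calc _ ≤ Real.exp (h / 100 + 1 + i * (2 / 5)) := Real.exp_le_exp.2 (by
          generalize (h : ℝ) * (2 * k / h + 1 : ℕ) = t at h2 ⊢; linarith)
      _ = Real.exp (h / 100 + 1) * Real.exp (2 / 5) ^ i := by
          rw [Real.exp_add, Real.exp_nat_mul]
      _ ≤ _ := by gcongr
  have h6 : (6 / 5 : ℝ) ^ j₀ ≤ (6 / 5) ^ i := pow_le_pow_right₀ (by norm_num) hi
  calc _ ≤ 2 * (|C₀| * (Real.exp (h / 100 + 1) * (5 / 3) ^ i)) := by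
        gcongr
        exact le_abs_self _
    _ = 2 * |C₀| * Real.exp (h / 100 + 1) * (5 / 3) ^ i := by ring
    _ ≤ (6 / 5) ^ i * (5 / 3) ^ i := by gcongr; exact hj.le.trans h6
    _ = 2 ^ i := by rw [← mul_pow]; norm_num

open Classical in
theorem det_send (h1 : SAr1) {G : Set (kk → T)} {h : ℕ} {C₀ : ℝ} (hP : Pig G h C₀ (1 / 100))
    {x : kk → T} (hx : IsChar x) {H m : ℕ}
    (hC : 2 * (C₀ * Real.exp (1 / 100 * (h * m))) ≤ H)
    (hH : H < 2 * ((Finset.Icc 1 H).filter fun j => act (lam j) x ∈ G).card) :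
    ∃ (d : ℕ) (y : ℂ), 0 < d ∧ d ≤ 10 * H ∧ ‖y‖ ≤ 4 * (H : ℝ) ^ 2 ∧
      Triv x y ((d : kk) / 5 ^ (h * m)) := by
  have hH' : (H : ℝ) < 2 * ((Finset.Icc 1 H).filter fun j => act (lam j) x ∈ G).card := by
    exact_mod_cast hH
  obtain ⟨j, hj, j', hj', hne, w, hw, ht⟩ := hP m _ (fun j => act (lam j) x)
    (fun j hj => ⟨fun a b => by simp only [act, mul_add]; exact hx _ _, (mem_filter.1 hj).2⟩)
    (lt_of_mul_lt_mul_left (hC.trans_lt hH') zero_le_two)
  exact h1.2.1 x H j j' _ w hx (mem_filter.1 hj).1 (mem_filter.1 hj').1 hne hw ht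

open Classical in
theorem sDet (h1 : SAr1) (h2 : SAr2) : SDet := by
  intro G h C₀ hh hP
  obtain ⟨j₀, hj₀⟩ := det_exp h C₀
  obtain ⟨j, j1, j7⟩ : ∃ j, j₀ ≤ j ∧ 7 ≤ j := ⟨max j₀ 7, le_max_left _ _, le_max_right _ _⟩
  have lev : ∀ k, 2 * k + 1 ≤ h * (2 * k / h + 1) := fun k => Nat.lt_mul_div_succ _ hh
  have hM4 := det_M j j7
  have p4 : (4 : ℕ) ^ j = (2 ^ j) ^ 2 := by rw [← pow_mul, mul_comm, pow_mul]; norm_num
  have p2 : 0 < 2 ^ j := by positivity
  obtain ⟨M, hM⟩ : ∃ M, M = 10 * 4 ^ j := ⟨_, rfl⟩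
  rw [← hM] at hM4
  have M10 : 10 ≤ M := by
    have : 0 < 4 ^ j := by positivity
    omega
  have MH : ∀ k, 20 * j ≤ k → M ^ 4 ≤ 2 ^ (k / 2) := fun k hk =>
    hM4.trans (Nat.pow_le_pow_right (by norm_num) (by omega))
  have H5 : ∀ k, 20 * j ≤ k → 50 * (2 ^ (k / 2)) ^ 4 < 5 ^ k := fun k hk =>
    (det_pow _ (by omega)).trans_le (Nat.pow_le_pow_right (by norm_num) (by omega))
  have MM : 1000 * M ≤ M ^ 4 := by
    calc 1000 * M = 10 ^ 3 * M := by norm_num
      _ ≤ M ^ 3 * M := by gcongr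
      _ = M ^ 4 := by ring
  have HH : ∀ H : ℕ, 0 < H → 10 * H ≤ 50 * H ^ 4 := fun H hH => by
    have : H ≤ H ^ 4 := Nat.le_self_pow (by norm_num) H
    omega
  refine ⟨M, 20 * j, 2 ^ j, fun k => 2 ^ (k / 2), p2, fun k => by positivity, ?_, ?_, ?_⟩
  · intro x hx hH
    obtain ⟨d, y, d0, d1, y1, ht⟩ := det_send h1 hP hx (m := 2 * (20 * j) / h + 1)
      (by have := hj₀ j j1 (20 * j) (by omega); push_cast at this ⊢; exact this) hH
    refine h1.2.2.1 x M _ _ d y hx d0 (by nlinarith) (y1.trans ?_) ?_ ht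
    · have : 4 * (2 ^ j) ^ 2 ≤ M := by omega
      exact_mod_cast this
    · have a1 := H5 (20 * j) le_rfl
      have a2 := HH (2 ^ (20 * j / 2)) (by positivity)
      have a3 : 2 ^ j ≤ 2 ^ (20 * j / 2) := Nat.pow_le_pow_right (by norm_num) (by omega)
      calc d * 5 ^ (20 * j) ≤ 5 ^ (20 * j) * 5 ^ (20 * j) := Nat.mul_le_mul_right _ (by omega)
        _ = 5 ^ (2 * (20 * j)) := by ring
        _ ≤ _ := Nat.pow_le_pow_right (by norm_num) (by have := lev (20 * j); omega)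
  · rintro k hk x ⟨hx, hx'⟩
    by_contra hH
    beta_reduce at hH
    obtain ⟨d, y, d0, d1, y1, ht⟩ := det_send h1 hP hx.1 (m := 2 * k / h + 1)
      (by have := hj₀ (k / 2) (by omega) k (by omega); push_cast at this ⊢; exact this)
      (not_le.1 hH)
    have a1 := H5 k hk
    have a2 := HH (2 ^ (k / 2)) (by positivity)
    have a3 := MH k hk
    refine hx' (h1.2.2.2 x M k _ d y _ hx d0 y1 ?_ ?_ ht)
    · generalize 2 ^ (k / 2) = H at *
      have b1 : M ≤ H := by omega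
      have b2 : H ≤ H ^ 2 := Nat.le_self_pow (by norm_num) H
      have b3 : (M + 4 * H ^ 2) * (M * d) < 5 ^ k := by
        calc (M + 4 * H ^ 2) * (M * d) ≤ (H ^ 2 + 4 * H ^ 2) * (H * (10 * H)) := by
              gcongr; omega
          _ = 50 * H ^ 4 := by ring
          _ < _ := a1
      exact_mod_cast b3
    · calc d * 5 ^ (k + 1) ≤ 5 ^ k * 5 ^ (k + 1) := Nat.mul_le_mul_right _ (by omega)
        _ = 5 ^ (2 * k + 1) := by ring
        _ ≤ _ := Nat.pow_le_pow_right (by norm_num) (lev k)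
  · intro x'' n
    rw [sum_Ico_eq_sum_range]
    beta_reduce
    refine det_sum _ (fun i => 2 * M / (2 ^ ((20 * j + i) / 2) : ℕ)) (fun k => by positivity)
      (fun k => ?_) (fun k => by positivity) (fun k k' hk hw => ?_) (fun n => ?_) _
    · rw [div_le_one (by positivity)]
      exact_mod_cast (card_filter_le _ _).trans (by simp)
    · have c1 := (div_pos_iff_of_pos_right (by positivity)).1 hw
      obtain ⟨i, hi⟩ := card_pos.1 (Nat.cast_pos.1 c1)
      have a1 := H5 (20 * j + k) (by omega)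
      have a3 := MH (20 * j + k) (by omega)
      have a1' := H5 (20 * j + k') (by omega)
      have a4 : 2 ^ ((20 * j + k) / 2) ≤ 2 ^ ((20 * j + k') / 2) :=
        Nat.pow_le_pow_right (by norm_num) (by omega)
      have c2 := h2 x'' M (2 ^ ((20 * j + k) / 2)) (2 ^ ((20 * j + k') / 2)) (20 * j + k)
        (20 * j + k') (by omega) ⟨i, (mem_filter.1 hi).1, (mem_filter.1 hi).2⟩ (by
          generalize 2 ^ ((20 * j + k') / 2) = H' at *
          have b1 : M ^ 4 ≤ H' := a3.trans a4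
          have b2 : H' ≤ H' ^ 2 := Nat.le_self_pow (by norm_num) H'
          calc 2 * M * (M * (5 * H' + 1)) ^ 2 ≤ 2 * M * (M * (6 * H')) ^ 2 := by
                gcongr; omega
            _ = 72 * M ^ 3 * H' ^ 2 := by ring
            _ ≤ (10 * M) * M ^ 3 * H' ^ 2 := by gcongr; omega
            _ = 10 * M ^ 4 * H' ^ 2 := by ring
            _ ≤ 50 * H' ^ 2 * H' ^ 2 := Nat.mul_le_mul_right _ (by omega)
            _ = 50 * H' ^ 4 := by ring
            _ < _ := a1')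
      generalize 2 ^ ((20 * j + k') / 2) = H' at *
      generalize 2 ^ ((20 * j + k) / 2) = H at *
      have r0 : (1 : ℝ) ≤ H := by exact_mod_cast (show 1 ≤ H by omega)
      have r1 : (H : ℝ) ≤ H' := by exact_mod_cast a4
      have r2 : (M : ℝ) ^ 4 ≤ H := by exact_mod_cast a3
      have r3 : 50 * (H : ℝ) ^ 4 ≤ 5 ^ (20 * j + k) := by exact_mod_cast a1.le
      have r4 : (10 : ℝ) ≤ M := by exact_mod_cast M10
      have r5 : (0 : ℝ) < H := by linarith
      have r6 : (0 : ℝ) < H' := by linarith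
      rw [div_le_iff₀ r6]
      refine le_trans (le_trans (Nat.cast_le.2 (card_le_card (monotone_filter_right _
        fun i _ ⟨x, hx, e⟩ => ⟨x, hx.1, e⟩))) c2) ?_
      have r7 : (M : ℝ) ≤ M / H * H' := by
        rw [div_mul_eq_mul_div, le_div_iff₀ r5]; gcongr
      have r8 : 10 * (M : ℝ) ^ 4 * (5 * H + 1) / 5 ^ (20 * j + k) ≤ M / H := by
        rw [div_le_div_iff₀ (by positivity) r5]
        have : (H : ℝ) ^ 3 ≤ H ^ 4 := pow_le_pow_right₀ r0 (by norm_num)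
        calc 10 * (M : ℝ) ^ 4 * (5 * H + 1) * H ≤ 10 * H * (6 * H) * H := by
              gcongr; linarith
          _ = 60 * H ^ 3 := by ring
          _ ≤ 10 * (50 * H ^ 4) := by nlinarith [pow_pos r5 3]
          _ ≤ _ := by gcongr
      calc _ = 10 * (M : ℝ) ^ 4 * (5 * H + 1) / 5 ^ (20 * j + k) * H' + M := by ring
        _ ≤ (M : ℝ) / H * H' + M / H * H' := by gcongr
        _ = _ := by ring
    · have e : ∀ i, (2 * M / (2 ^ ((20 * j + i) / 2) : ℕ) : ℝ) =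
          2 * M / 2 ^ (10 * j) * (1 / 2) ^ (i / 2) := fun i => by
        rw [show (20 * j + i) / 2 = 10 * j + i / 2 by omega]
        push_cast
        rw [pow_add, one_div, inv_pow]
        field_simp
      simp only [e]
      rw [← mul_sum]
      have r1 : 8 * (M : ℝ) ≤ 2 ^ (10 * j) := by exact_mod_cast (show 8 * M ≤ 2 ^ (10 * j) by omega)
      calc _ ≤ 2 * (M : ℝ) / 2 ^ (10 * j) * 4 := by gcongr; exact det_geom n
        _ = 8 * M / 2 ^ (10 * j) := by ring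
        _ ≤ 1 := (div_le_one (by positivity)).2 r1

end Pool.Agent.MP_66cee2_co.X
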