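import Pool.Agent.MP_66cee2_co.X.KitZ

/-
Part R, row Exh: the largest union of injective sets is invariant.
-/

namespace Pool.Agent.MP_66cee2_co.X

open MeasureTheory Set Filter

theorem exh_restrict {ν : Measure (kk → T)} {f : (kk → T) → kk → T}
    (hf : MeasurePreserving f ν ν) {D : Set (kk → T)} (hD : MeasurableSet D)
    (h : f ⁻¹' D =ᵐ[ν] D) : MeasurePreserving f (ν.restrict D) (ν.restrict D) := by
  have := hf.restrict_preimage hD
  rwa [Measure.restrict_congr_set h] at this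

theorem sExh : SExh := by
  intro p ν _ hp hc hinv
  obtain ⟨𝒟, h𝒟, hcount, hmax⟩ := Measure.exists_ae_subset_biUnion_countable ν
    (C := {Y | MeasurableSet Y ∧ Inj p Y}) fun s hs => hs.1
  obtain ⟨Y, hY⟩ := (hcount.insert ∅).exists_eq_range (insert_nonempty _ _)
  have hYm : ∀ j, MeasurableSet (Y j) ∧ Inj p (Y j) := by
    intro j
    have : Y j ∈ insert ∅ 𝒟 := hY ▸ mem_range_self j
    rcases this with e | e
    · rw [e]
      exact ⟨MeasurableSet.empty, fun x hx => absurd hx (notMem_empty x)⟩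
    · exact h𝒟 e
  have hU : ⋃₀ 𝒟 = ⋃ j, Y j := by
    rw [← sUnion_range, ← hY, sUnion_insert, empty_union]
  rw [hU] at hmax
  set D := ⋃ j, Y j with hD
  have hDm : MeasurableSet D := MeasurableSet.iUnion fun j => (hYm j).1
  have key : ∀ l : kk, ‖(l : ℂ)‖ = 1 → act l ⁻¹' D =ᵐ[ν] D := by
    intro l hl
    have hl0 : l ≠ 0 := by
      rintro rfl
      simp at hl
    obtain ⟨a, ha⟩ := Zp_cover hp l
    obtain ⟨W, hWm, hW⟩ := exists_digit (n := 5 ^ a) (by positivity)
    have h1 : ∀ j w, {x | IsChar x ∧ act l x ∈ Y j ∧ W (x (p⁻¹ ^ a)) = w} ≤ᵐ[ν] D := by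
      intro j w
      refine hmax _ ⟨measurableSet_isChar.inter ((measurable_act l (hYm j).1).inter
        ((hWm.comp (measurable_pi_apply (p⁻¹ ^ a))) (measurableSet_singleton w))), ?_⟩
      rintro x ⟨hx, hy, hw⟩ x' ⟨hx', hy', hw'⟩ hag
      have e0 : x (p⁻¹ ^ a) = x' (p⁻¹ ^ a) := by
        refine hW _ _ ?_ (hw.trans hw'.symm)
        rw [hx.five_pow, hx'.five_pow]
        exact hag _ (Zp_pow (Zp_conj hp) a)
      refine act_injective hl0 ((hYm j).2 _ hy _ hy' fun z hz => ?_)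
      exact agree_level hp hx hx' hag e0 (by rw [← mul_assoc]; exact Zp_mul ha hz)
    have h2 : act l ⁻¹' D ≤ᵐ[ν] D := by
      filter_upwards [hc, ae_all_iff.2 fun j => ae_all_iff.2 fun w => h1 j w] with x hx h hmem
      obtain ⟨j, hj⟩ := mem_iUnion.1 hmem
      exact h j _ ⟨hx, hj, rfl⟩
    exact ae_eq_of_ae_subset_of_measure_ge h2
      ((hinv l hl).measure_preimage hDm.nullMeasurableSet).ge
      (measurable_act l hDm).nullMeasurableSet (measure_ne_top _ _)
  refine ⟨D, hDm, ⟨Y, hYm, ?_⟩, fun Z hZ hZ' => ?_, fun l hl => exh_restrict (hinv l hl) hDm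
    (key l hl), fun l hl => exh_restrict (hinv l hl) hDm.compl (key l hl).compl⟩
  · rw [Measure.restrict_apply hDm.compl, compl_inter_self, measure_empty]
  · rw [Measure.restrict_apply hZ]
    exact ae_le_set.1 (hmax Z ⟨hZ, hZ'⟩)

end Pool.Agent.MP_66cee2_co.X
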