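import Pool.Agent.MP_66cee2_co.X.SpecR2

/-
The rigidity theorem from exhaustion, the argument of Host and the deterministic case.
-/

namespace Pool.Agent.MP_66cee2_co.X

open MeasureTheory Set Filter Complex
open scoped ENNReal

theorem H_isP : IsP (gi ⟨2, 1⟩) ∧ IsP (5 / gi ⟨2, 1⟩) := by
  have h : ((gi ⟨2, 1⟩ : kk) : ℂ) = 2 + I := by
    change GaussianInt.toComplex ⟨2, 1⟩ = _
    rw [GaussianInt.toComplex_def']
    simp
  refine ⟨Or.inl h, Or.inr ?_⟩
  have h0 : (2 + I : ℂ) ≠ 0 := fun e => by simpa using congrArg Complex.re e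
  have h5 : ((5 : kk) : ℂ) = 5 := rfl
  rw [Subfield.coe_div, h, h5, div_eq_iff h0]
  linear_combination I_mul_I

theorem H_integrable (ν : Measure (kk → T)) [IsFiniteMeasure ν] (z : kk) :
    Integrable (fun x : kk → T => ch (x z)) ν := by
  have hc : Continuous fun x : kk → T => ch (x z) :=
    (fourier 1 : C(T, ℂ)).continuous.comp (continuous_apply z)
  refine Integrable.of_bound hc.aestronglyMeasurable 1 (Eventually.of_forall fun x => ?_)
  simp [ch, fourier_apply]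

theorem H_cov {p : kk} {μ ν : Measure (kk → T)} (h : μ ≪ ν) (hc : Cov p ν) : Cov p μ := by
  obtain ⟨Y, h1, h2⟩ := hc
  exact ⟨Y, h1, h h2⟩

theorem H_zero (h3 : SPos) {p : kk} (hp : IsP p) (μ : Measure (kk → T)) [IsFiniteMeasure μ]
    (hc : ∀ᵐ x ∂μ, IsChar x) (hi : Inv μ) (c1 : Cov p μ) (c2 : Cov (5 / p) μ) (h0 : μ X0 = 0) :
    μ = 0 := by
  by_contra hne
  have : NeZero μ := ⟨hne⟩
  have hac : (μ univ)⁻¹ • μ ≪ μ := Measure.smul_absolutelyContinuous
  exact h3 p ((μ univ)⁻¹ • μ) hp (hac hc) (fun l hl => (hi l hl).smul_measure _) (H_cov hac c1)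
    (H_cov hac c2) (hac h0)

theorem sH (h1 : SExh) (h2 : SHost) (h3 : SPos) : SH := by
  intro ν _ hc hi h0 z hz
  obtain ⟨hp, hq⟩ := H_isP
  obtain ⟨D, hD, c1, n1, i1, i1'⟩ := h1 _ ν hp hc hi
  have hcD : ∀ᵐ x ∂ν.restrict D, IsChar x := ae_restrict_of_ae hc
  obtain ⟨E, hE, c2, n2, i2, i2'⟩ := h1 _ (ν.restrict D) hq hcD i1
  have hac : (ν.restrict D).restrict E ≪ ν.restrict D := Measure.absolutelyContinuous_restrict
  have e0 : (ν.restrict D).restrict E = 0 :=
    H_zero h3 hp _ (ae_restrict_of_ae hcD) i2 (H_cov hac c1) c2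
      ((hac.trans Measure.absolutelyContinuous_restrict) h0)
  have e1 := h2 _ (ν.restrict Dᶜ) hp (ae_restrict_of_ae hc) i1' n1 z hz
  have e2 := h2 _ ((ν.restrict D).restrict Eᶜ) hq (ae_restrict_of_ae hcD) i2' n2 z hz
  rw [← integral_add_compl hD (H_integrable ν z), e1,
    ← integral_add_compl hE (H_integrable (ν.restrict D) z), e2, e0]
  simp

end Pool.Agent.MP_66cee2_co.X
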