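import Pool.Agent.MP_66cee2_co.X.KitZ

/-
Part R, row Host: diffuse conditional measures force vanishing Fourier coefficients.
-/

namespace Pool.Agent.MP_66cee2_co.X

open MeasureTheory ProbabilityTheory Set Filter Topology
open scoped ENNReal

/-- restriction to `Zp p`. -/
noncomputable def hostPi (p : kk) (x : kk → T) : kk → T := indicator (Zp p) x

theorem hostPi_meas (p : kk) : Measurable (hostPi p) := by
  refine measurable_pi_lambda _ fun z => ?_
  by_cases h : z ∈ Zp p
  · simpa [hostPi, h] using measurable_pi_apply z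
  · simp [hostPi, h]

theorem hostPi_apply {p z : kk} (h : z ∈ Zp p) (x : kk → T) : hostPi p x z = x z :=
  indicator_of_mem h x

theorem hostPi_agree {p : kk} {x x' : kk → T} (h : hostPi p x = hostPi p x') :
    ∀ z ∈ Zp p, x z = x' z := fun z hz => by
  rw [← hostPi_apply hz x, h, hostPi_apply hz]

theorem hostPi_congr {p : kk} {x x' : kk → T} (h : ∀ z ∈ Zp p, x z = x' z) :
    hostPi p x = hostPi p x' := indicator_congr h

/-- fibres on which the kernel lives. -/
def hostGood (p : kk) (κ : Kernel (kk → T) (kk → T)) (b : kk → T) : Prop :=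
  ∀ᵐ x ∂κ b, IsChar x ∧ hostPi p x = b

theorem host_meas_fib (p : kk) :
    MeasurableSet {w : (kk → T) × (kk → T) | IsChar w.2 ∧ hostPi p w.2 = w.1} :=
  (measurable_snd measurableSet_isChar).inter
    (measurableSet_eq_fun ((hostPi_meas p).comp measurable_snd) measurable_fst)

theorem hostGood_meas (p : kk) (κ : Kernel (kk → T) (kk → T)) [IsMarkovKernel κ] :
    MeasurableSet {b | hostGood p κ b} :=
  Kernel.measurable_kernel_prodMk_left (κ := κ) (host_meas_fib p).compl (measurableSet_singleton 0)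

/-- the conditional mass of the class of `x` at level `m`. -/
noncomputable def hostK (p : kk) (κ : Kernel (kk → T) (kk → T)) (m : ℕ)
    (w : (kk → T) × (kk → T)) : ℝ≥0∞ := κ w.1 {x' | x' (p⁻¹ ^ m) = w.2 (p⁻¹ ^ m)}

theorem hostK_meas (p : kk) (κ : Kernel (kk → T) (kk → T)) [IsMarkovKernel κ] (m : ℕ) :
    Measurable (hostK p κ m) := by
  have h : MeasurableSet {w : ((kk → T) × (kk → T)) × (kk → T) |
      w.2 (p⁻¹ ^ m) = w.1.2 (p⁻¹ ^ m)} :=
    measurableSet_eq_fun ((measurable_pi_apply _).comp measurable_snd)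
      ((measurable_pi_apply _).comp (measurable_snd.comp measurable_fst))
  exact Kernel.measurable_kernel_prodMk_left (κ := κ.comap Prod.fst measurable_fst) h

theorem hostK_anti {p : kk} (hp : IsP p) {κ : Kernel (kk → T) (kk → T)} {x : kk → T}
    (hx : IsChar x) (hg : hostGood p κ (hostPi p x)) {m m' : ℕ} (h : m ≤ m') :
    hostK p κ m' (hostPi p x, x) ≤ hostK p κ m (hostPi p x, x) := by
  refine measure_mono_ae ?_
  filter_upwards [hg] with x' hx' e
  exact agree_mono hp hx'.1 hx (hostPi_agree hx'.2) h e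

/-- the classes shrink to mass zero almost everywhere. -/
theorem host_small {p : kk} (hp : IsP p) {ν : Measure (kk → T)} (hno : NoInj p ν)
    (κ : Kernel (kk → T) (kk → T)) [IsMarkovKernel κ] :
    ∀ᵐ x ∂ν, IsChar x → hostGood p κ (hostPi p x) →
      ∀ τ : ℝ≥0∞, 0 < τ → ∃ m, hostK p κ m (hostPi p x, x) ≤ τ := by
  have hW := fun m : ℕ => exists_digit (n := 5 ^ m) (by positivity)
  choose W hWm hW using hW
  have hk : ∀ m, Measurable fun x => hostK p κ m (hostPi p x, x) := fun m =>
    (hostK_meas p κ m).comp ((hostPi_meas p).prodMk measurable_id)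
  let Y : ∀ m : ℕ, Fin (5 ^ m) → Set (kk → T) := fun m w =>
    {x | IsChar x ∧ hostGood p κ (hostPi p x) ∧ W m (x (p⁻¹ ^ m)) = w ∧
      ∀ m', m ≤ m' → hostK p κ m (hostPi p x, x) < 2 * hostK p κ m' (hostPi p x, x)}
  have hY : ∀ m w, ν (Y m w) = 0 := by
    intro m w
    refine hno _ ?_ ?_
    · refine measurableSet_isChar.inter ((hostPi_meas p (hostGood_meas p κ)).inter
        ((((hWm m).comp (measurable_pi_apply (p⁻¹ ^ m))) (measurableSet_singleton w)).inter ?_))
      have : MeasurableSet (⋂ m', ⋂ (_ : m ≤ m'), {x | hostK p κ m (hostPi p x, x) <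
          2 * hostK p κ m' (hostPi p x, x)}) :=
        MeasurableSet.iInter fun m' => MeasurableSet.iInter fun _ =>
          measurableSet_lt (hk m) ((hk m').const_mul 2)
      simp only [← ofPred_forall] at this
      exact this
    · rintro x ⟨hx, hg, hw, h⟩ x' ⟨hx', hg', hw', h'⟩ hag
      have hb : hostPi p x' = hostPi p x := (hostPi_congr hag).symm
      have e0 : x (p⁻¹ ^ m) = x' (p⁻¹ ^ m) := by
        refine hW m _ _ ?_ (hw.trans hw'.symm)
        rw [hx.five_pow, hx'.five_pow]
        exact hag _ (Zp_pow (Zp_conj hp) m)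
      refine agree_all hp hx hx' hag m fun a ha => ?_
      by_contra hne
      have h1 := h a ha
      have h2 := h' a ha
      simp only [hostK, hb] at h1 h2
      rw [← e0] at h2
      have h3 : κ (hostPi p x) {y | y (p⁻¹ ^ a) = x (p⁻¹ ^ a)} +
          κ (hostPi p x) {y | y (p⁻¹ ^ a) = x' (p⁻¹ ^ a)} ≤
          κ (hostPi p x) {y | y (p⁻¹ ^ m) = x (p⁻¹ ^ m)} := by
        rw [← measure_union]
        · refine measure_mono_ae ?_
          filter_upwards [hg] with y hy e
          rcases e with e | e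
          · exact agree_mono hp hy.1 hx (hostPi_agree hy.2) ha e
          · exact (agree_mono hp hy.1 hx' (hostPi_agree (hy.2.trans hb.symm)) ha e).trans e0.symm
        · exact disjoint_left.2 fun y e e' => hne (e.symm.trans e')
        · exact measurable_pi_apply _ (measurableSet_singleton _)
      have h4 := ENNReal.add_lt_add h1 h2
      rw [← mul_add, ← two_mul] at h4
      exact absurd (mul_le_mul_right h3 2) (not_le.2 h4)
  have hae : ∀ᵐ x ∂ν, ∀ m w, x ∉ Y m w :=
    ae_all_iff.2 fun m => ae_all_iff.2 fun w => measure_eq_zero_iff_ae_notMem.1 (hY m w)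
  filter_upwards [hae] with x hx hc hg τ hτ
  by_contra hcon
  push Not at hcon
  set i := ⨅ m, hostK p κ m (hostPi p x, x) with hi
  have h0 : i ≠ 0 := (hτ.trans_le (le_iInf fun m => (hcon m).le)).ne'
  have h1 : i ≠ ⊤ := ne_top_of_le_ne_top (measure_ne_top _ _) (iInf_le _ 0)
  have h2 : i < 2 * i := by
    rw [two_mul]
    exact ENNReal.lt_add_right h1 h0
  obtain ⟨m, hm⟩ := iInf_lt_iff.1 h2
  exact hx m _ ⟨hc, hg, rfl, fun m' _ => hm.trans_le (mul_le_mul_right (iInf_le _ m') 2)⟩

/-- the bound of Bessel on one fibre. -/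
theorem host_fibre (h2 : SHostB) {p : kk} (hp : IsP p) (κ : Kernel (kk → T) (kk → T))
    {b : kk → T} (hg : hostGood p κ b) {m : ℕ} {z : kk} {l : Fin (5 ^ m) → kk}
    {n : Fin (5 ^ m) → ℤ} (hz : ∀ s, l s * z - (n s : kk) * p⁻¹ ^ (m + 1) ∈ Zp p)
    (hn : ∀ s s', (5 : ℤ) ^ (m + 1) ∣ n s - n s' → s = s') (τ : ℝ≥0∞) :
    ∫⁻ x, indicator {w | hostK p κ (m + 1) w ≤ τ}
      (fun w => ‖((5 : ℂ) ^ m)⁻¹ * ∑ s, ch (w.2 (l s * z))‖ₑ ^ 2) (b, x) ∂κ b ≤ 5 * τ := by
  classical
  obtain ⟨W, -, hW⟩ := exists_digit (n := 5 ^ (m + 1)) (by positivity)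
  have hfin : {t : T | 5 ^ (m + 1) • t = b ((5 / p) ^ (m + 1))}.Finite :=
    Set.Finite.of_finite_image (f := W) (toFinite _)
      fun t ht t' ht' e => hW t t' (ht.trans ht'.symm) e
  set g : kk := p⁻¹ ^ (m + 1) with hgdef
  let G : T → ℂ := fun t => ((5 : ℂ) ^ m)⁻¹ * ∑ s, ch (b (l s * z - n s * g)) * ch (n s • t)
  let φ : T → ℝ≥0∞ := fun t => if κ b {y | y g = t} ≤ τ then ‖G t‖ₑ ^ 2 else 0
  have hm : ∀ t, MeasurableSet {y : kk → T | y g = t} := fun t =>
    measurable_pi_apply _ (measurableSet_singleton _)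
  calc _ ≤ ∫⁻ x, ∑ t ∈ hfin.toFinset, indicator {y | y g = t} (fun _ => φ t) x ∂κ b := by
        refine lintegral_mono_ae ?_
        filter_upwards [hg] with x hx
        have hmem : x g ∈ hfin.toFinset := by
          rw [Finite.mem_toFinset, mem_ofPred_eq, hx.1.five_pow, ← hx.2,
            hostPi_apply (Zp_pow (Zp_conj hp) _)]
        refine le_trans ?_ (Finset.single_le_sum (fun _ _ => bot_le) hmem)
        rw [indicator_of_mem (show x ∈ {y : kk → T | y g = x g} from rfl)]
        have e : ((5 : ℂ) ^ m)⁻¹ * ∑ s, ch (x (l s * z)) = G (x g) := by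
          refine congrArg _ (Finset.sum_congr rfl fun s _ => ?_)
          rw [← ch_add, ← hx.2, hostPi_apply (hz s), ← hx.1.intCast_mul, ← hx.1, sub_add_cancel]
        by_cases h : κ b {y | y g = x g} ≤ τ
        · rw [indicator_of_mem (show (b, x) ∈ {w | hostK p κ (m + 1) w ≤ τ} from h)]
          simp only [φ, if_pos h, e, le_refl]
        · rw [indicator_of_notMem (show (b, x) ∉ {w | hostK p κ (m + 1) w ≤ τ} from h)]
          exact bot_le
    _ = ∑ t ∈ hfin.toFinset, φ t * κ b {y | y g = t} := by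
        rw [lintegral_finsetSum _ fun t _ => measurable_const.indicator (hm t)]
        exact Finset.sum_congr rfl fun t _ => lintegral_indicator_const (hm t) _
    _ ≤ ∑ t ∈ hfin.toFinset, ‖G t‖ₑ ^ 2 * τ := by
        refine Finset.sum_le_sum fun t _ => ?_
        by_cases h : κ b {y | y g = t} ≤ τ
        · simp only [φ, if_pos h]
          exact mul_le_mul_right h _
        · simp [φ, if_neg h]
    _ ≤ 5 * τ := by
        rw [← Finset.sum_mul]
        refine mul_le_mul_left ?_ _
        have hB := h2 (5 ^ (m + 1)) (Fin (5 ^ m)) n (fun s => ch (b (l s * z - n s * g)))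
          (b ((5 / p) ^ (m + 1))) hfin.toFinset (by positivity)
          (fun s s' h => hn s s' (by exact_mod_cast h)) (fun s => (norm_ch _).le)
          (fun t ht => hfin.mem_toFinset.1 ht)
        have h5 : ∑ t ∈ hfin.toFinset, ‖G t‖ ^ 2 ≤ 5 := by
          simp only [G, norm_mul, mul_pow, ← Finset.mul_sum, norm_inv, norm_pow,
            Complex.norm_ofNat]
          refine (mul_le_mul_of_nonneg_left hB (by positivity)).trans (le_of_eq ?_)
          simp only [Fintype.card_fin]
          push_cast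
          field_simp
          ring
        calc ∑ t ∈ hfin.toFinset, ‖G t‖ₑ ^ 2
            = ENNReal.ofReal (∑ t ∈ hfin.toFinset, ‖G t‖ ^ 2) := by
              rw [ENNReal.ofReal_sum_of_nonneg fun _ _ => by positivity]
              refine Finset.sum_congr rfl fun t _ => ?_
              rw [ENNReal.ofReal_pow (norm_nonneg _), ofReal_norm]
          _ ≤ ENNReal.ofReal 5 := ENNReal.ofReal_le_ofReal h5
          _ = 5 := by simp

theorem sHost (h1 : SHostA) (h2 : SHostB) : SHost := by
  intro p ν _ hp hc hinv hno z hz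
  let κ : Kernel (kk → T) (kk → T) := condDistrib id (hostPi p) ν
  have hcomp : ν.map (hostPi p) ⊗ₘ κ = ν.map fun x => (hostPi p x, x) :=
    compProd_map_condDistrib aemeasurable_id
  have hpm : Measurable fun x : kk → T => (hostPi p x, x) := (hostPi_meas p).prodMk measurable_id
  have hgood : ∀ᵐ b ∂ν.map (hostPi p), hostGood p κ b := by
    refine Measure.ae_ae_of_ae_compProd (p := fun w => IsChar w.2 ∧ hostPi p w.2 = w.1) ?_
    rw [hcomp, ae_map_iff hpm.aemeasurable (host_meas_fib p)]
    filter_upwards [hc] with x hx using ⟨hx, rfl⟩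
  have hgood' : ∀ᵐ x ∂ν, hostGood p κ (hostPi p x) := ae_of_ae_map (hostPi_meas p).aemeasurable hgood
  have hk : ∀ m, Measurable fun x => hostK p κ m (hostPi p x, x) := fun m =>
    (hostK_meas p κ m).comp hpm
  have hchm : ∀ w : kk, Measurable fun x : kk → T => ch (x w) := fun w =>
    continuous_ch.measurable.comp (measurable_pi_apply w)
  have hint : ∀ w : kk, Integrable (fun x : kk → T => ch (x w)) ν := fun w =>
    Integrable.of_bound (hchm w).aestronglyMeasurable 1 (ae_of_all _ fun x => (norm_ch _).le)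
  have key : ∀ ε : ℝ≥0∞, 0 < ε → ε ≠ ⊤ → ‖∫ x, ch (x z) ∂ν‖ₑ ≤ ε * (1 + 6 * ν univ) := by
    intro ε hε hε'
    have hτ : 0 < ε * ε := ENNReal.mul_pos hε.ne' hε.ne'
    let bad : ℕ → Set (kk → T) := fun m =>
      {x | IsChar x ∧ hostGood p κ (hostPi p x) ∧ ε * ε < hostK p κ m (hostPi p x, x)}
    have hbm : ∀ m, MeasurableSet (bad m) := fun m =>
      measurableSet_isChar.inter ((hostPi_meas p (hostGood_meas p κ)).inter
        (measurableSet_lt measurable_const (hk m)))
    have hanti : Antitone bad := fun m m' h x hx =>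
      ⟨hx.1, hx.2.1, hx.2.2.trans_le (hostK_anti hp hx.1 hx.2.1 h)⟩
    have hlim := tendsto_measure_iInter_atTop (μ := ν) (fun m => (hbm m).nullMeasurableSet) hanti
      ⟨0, measure_ne_top _ _⟩
    have hnull : ν (⋂ m, bad m) = 0 := by
      rw [measure_eq_zero_iff_ae_notMem]
      filter_upwards [host_small hp hno κ] with x hx hmem
      have h0 := mem_iInter.1 hmem
      obtain ⟨m, hm⟩ := hx (h0 0).1 (h0 0).2.1 _ hτ
      exact absurd (h0 m).2.2 (not_lt.2 hm)
    rw [hnull] at hlim
    obtain ⟨m, hm⟩ := (hlim.eventually (ge_mem_nhds hε)).exists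
    have hm' : ν (bad (m + 1)) ≤ ε := (measure_mono (hanti m.le_succ)).trans hm
    obtain ⟨l, n, hl, hzp, hn⟩ := h1 p z m hp hz
    let S : (kk → T) → ℂ := fun x => ((5 : ℂ) ^ m)⁻¹ * ∑ s, ch (x (l s * z))
    have hS : ∫ x, ch (x z) ∂ν = ∫ x, S x ∂ν := by
      have e : ∀ s, ∫ x, ch (x (l s * z)) ∂ν = ∫ x, ch (x z) ∂ν := fun s => by
        conv_rhs => rw [← (hinv (l s) (hl s)).map_eq]
        rw [integral_map (measurable_act _).aemeasurable (hchm z).aestronglyMeasurable]
        rfl
      simp only [S]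
      rw [integral_const_mul, integral_finsetSum _ fun s _ => hint _]
      simp only [e, Finset.sum_const, Finset.card_univ, Fintype.card_fin, nsmul_eq_mul]
      push_cast
      field_simp
    have hS1 : ∀ x, ‖S x‖ₑ ≤ 1 := fun x => by
      rw [← ofReal_norm, ← ENNReal.ofReal_one]
      refine ENNReal.ofReal_le_ofReal ?_
      simp only [S, norm_mul, norm_inv, norm_pow, Complex.norm_ofNat]
      refine (mul_le_mul_of_nonneg_left (norm_sum_le _ _) (by positivity)).trans (le_of_eq ?_)
      simp [norm_ch]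
    let F : (kk → T) × (kk → T) → ℝ≥0∞ :=
      indicator {w | hostK p κ (m + 1) w ≤ ε * ε} fun w => ‖S w.2‖ₑ ^ 2
    have hSm : Measurable S := (Finset.measurable_sum _ fun s _ => hchm _).const_mul _
    have hFm : Measurable F :=
      ((hSm.comp measurable_snd).enorm.pow_const 2).indicator
        (measurableSet_le (hostK_meas p κ _) measurable_const)
    have hF : ∫⁻ x, F (hostPi p x, x) ∂ν ≤ 5 * (ε * ε) * ν univ := by
      rw [← lintegral_map hFm hpm, ← hcomp, Measure.lintegral_compProd hFm]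
      calc _ ≤ ∫⁻ _b, 5 * (ε * ε) ∂ν.map (hostPi p) := by
            refine lintegral_mono_ae ?_
            filter_upwards [hgood] with b hb using host_fibre h2 hp κ hb hzp hn _
        _ = _ := by
            rw [lintegral_const, Measure.map_apply (hostPi_meas p) MeasurableSet.univ,
              preimage_univ]
    have hpt : ∀ᵐ x ∂ν, ‖S x‖ₑ ≤
        indicator (bad (m + 1)) 1 x + (ε + ε⁻¹ * F (hostPi p x, x)) := by
      filter_upwards [hc, hgood'] with x hx hg
      by_cases h : hostK p κ (m + 1) (hostPi p x, x) ≤ ε * ε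
      · refine le_add_left ?_
        have e : F (hostPi p x, x) = ‖S x‖ₑ ^ 2 :=
          indicator_of_mem (show (hostPi p x, x) ∈ {w | hostK p κ (m + 1) w ≤ ε * ε} from h) _
        rw [e]
        rcases le_total ‖S x‖ₑ ε with h' | h'
        · exact le_add_right h'
        · refine le_add_left ?_
          calc ‖S x‖ₑ = ε⁻¹ * (ε * ‖S x‖ₑ) := by
                rw [← mul_assoc, ENNReal.inv_mul_cancel hε.ne' hε', one_mul]
            _ ≤ _ := by rw [sq]; gcongr
      · rw [indicator_of_mem (show x ∈ bad (m + 1) from ⟨hx, hg, not_le.1 h⟩)]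
        exact le_add_right (hS1 x)
    calc ‖∫ x, ch (x z) ∂ν‖ₑ ≤ ∫⁻ x, ‖S x‖ₑ ∂ν := by
          rw [hS]; exact enorm_integral_le_lintegral_enorm _
      _ ≤ _ := lintegral_mono_ae hpt
      _ = ν (bad (m + 1)) + (ε * ν univ + ε⁻¹ * ∫⁻ x, F (hostPi p x, x) ∂ν) := by
          rw [lintegral_add_left (measurable_one.indicator (hbm _)), lintegral_indicator_one (hbm _),
            lintegral_add_left measurable_const, lintegral_const,
            lintegral_const_mul (f := fun x => F (hostPi p x, x)) _ (hFm.comp hpm)]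
      _ ≤ ε + (ε * ν univ + ε⁻¹ * (5 * (ε * ε) * ν univ)) := by gcongr
      _ = ε * (1 + 6 * ν univ) := by
          have : ε⁻¹ * (5 * (ε * ε) * ν univ) = (ε⁻¹ * ε) * (5 * ε * ν univ) := by ring
          rw [this, ENNReal.inv_mul_cancel hε.ne' hε']
          ring
  have hC : (1 + 6 * ν univ) ≠ ⊤ := by finiteness
  have ht : Tendsto (fun k : ℕ => (k : ℝ≥0∞)⁻¹ * (1 + 6 * ν univ)) atTop (𝓝 0) := by
    simpa using ENNReal.Tendsto.mul_const ENNReal.tendsto_inv_nat_nhds_zero (Or.inr hC)
  have : ‖∫ x, ch (x z) ∂ν‖ₑ ≤ 0 := by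
    refine ge_of_tendsto ht ?_
    filter_upwards [eventually_gt_atTop 0] with k hk
    exact key _ (by simp) (by simpa using hk.ne')
  simpa using this

end Pool.Agent.MP_66cee2_co.X
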