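import Pool.Agent.MP_66cee2_co.X.KitZ

/-
Part R, row HostA: rotations that are distinct modulo a power of `p`.
-/

namespace Pool.Agent.MP_66cee2_co.X

theorem hostA_norm (r : GaussianInt) (hr : r ≠ 0) :
    ‖((gi r / gi (star r) : kk) : ℂ)‖ = 1 := by
  have h0 : (r : ℂ) ≠ 0 := fun e => hr (GaussianInt.toComplex_eq_zero.1 e)
  rw [Subfield.coe_div, coe_gi, coe_gi, GaussianInt.toComplex_star, norm_div,
    Complex.norm_conj, div_self (norm_ne_zero_iff.2 h0)]

theorem sHostA : SHostA := by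
  intro p z m hp hz
  obtain ⟨P, Q, h⟩ := hp.exists_PQ
  obtain ⟨j, hu, hu'⟩ := Zp_unit hp hz
  have h0 := hp.ne_zero
  have hq := hp.conj_ne_zero
  have hsQ : star Q = P := by rw [← h.star, star_star]
  let a : Fin (5 ^ m) → GaussianInt := fun s => 1 + P * Q * Q ^ m * (s : ℕ)
  have hsa : ∀ s, star (a s) = 1 + Q * P * P ^ m * (s : ℕ) := fun s => by
    simp only [a, star_add, star_mul', star_pow, star_one, star_natCast, h.star, hsQ]
  have hP1 : ∀ c : GaussianInt, ¬ P ∣ 1 + P * c := fun c hc => by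
    have : P ∣ ((1 : ℤ) : GaussianInt) := by
      simpa using (dvd_add_left (dvd_mul_right P c)).1 hc
    have := h.int 1 this
    omega
  have ha0 : ∀ s, a s ≠ 0 := fun s e => hP1 (Q * Q ^ m * (s : ℕ)) (by
    have : 1 + P * (Q * Q ^ m * (s : ℕ)) = a s := by simp only [a]; ring
    rw [this, e]
    exact dvd_zero _)
  have hinv : ∀ s, (gi (star (a s)))⁻¹ ∈ Zp p := fun s => Zp_inv_gi hp h (by
    have : star (a s) = 1 + P * (Q * P ^ m * (s : ℕ)) := by rw [hsa]; ring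
    rw [this]
    exact hP1 _)
  have hs0 : ∀ s, gi (star (a s)) ≠ 0 := fun s e =>
    ha0 s (star_eq_zero.1 (gi_injective (by rw [e, map_zero])))
  set k : ℤ := j - (m + 1 : ℕ) with hk
  set u : kk := z * p ^ j * (5 / p) ^ (-k) with hudef
  have huZ : u ∈ Zp p := Zp_mul hu (Zp_conj_zpow hp _)
  have hu0 : u ≠ 0 := mul_ne_zero (mul_ne_zero hz (zpow_ne_zero _ h0)) (zpow_ne_zero _ hq)
  have huZ' : u⁻¹ ∈ Zp p := by
    rw [hudef, mul_inv, ← zpow_neg]
    exact Zp_mul hu' (Zp_conj_zpow hp _)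
  have hn := fun s => Zp_gen hp (Zp_mul (Zp_gi p (a s)) huZ) (m + 1)
  choose n hn using hn
  have e1 : (p / (5 / p)) ^ k * z = u * p⁻¹ ^ (m + 1) := by
    have : p ^ j = p ^ k * p ^ (m + 1) := by
      rw [← zpow_natCast, ← zpow_add₀ h0, hk, sub_add_cancel]
    rw [hudef, this, div_zpow, zpow_neg, inv_pow]
    field_simp
  refine ⟨fun s => gi (a s) / gi (star (a s)) * (p / (5 / p)) ^ k, n, fun s => ?_, fun s => ?_,
    fun s s' hss => ?_⟩
  · rw [Subfield.coe_mul, norm_mul, hostA_norm _ (ha0 s), one_mul]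
    have : (((p / (5 / p)) ^ k : kk) : ℂ) = ((p / (5 / p) : kk) : ℂ) ^ k :=
      map_zpow₀ kk.subtype _ _
    rw [this, norm_zpow, hp.norm_quot', one_zpow]
  · have e2 : gi (star (a s)) = 1 + 5 / p * p ^ (m + 1) * (s : ℕ) := by
      rw [hsa]
      simp only [map_add, map_mul, map_pow, map_one, map_natCast, h.hP, h.hQ]
      ring
    have e3 : gi (a s) / gi (star (a s)) * (p / (5 / p)) ^ k * z - n s * p⁻¹ ^ (m + 1) =
        (gi (a s) * u - n s) * p⁻¹ ^ (m + 1) -
          gi (a s) * u * (gi (star (a s)))⁻¹ * (5 / p) * (s : ℕ) := by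
      rw [mul_assoc, e1]
      have := hs0 s
      have e4 : 5 / p * ((s : ℕ) : kk) = (gi (star (a s)) - 1) * p⁻¹ ^ (m + 1) := by
        rw [e2, inv_pow]
        generalize 5 / p = q
        field_simp
        ring
      rw [mul_assoc _ (5 / p), e4]
      field_simp
      ring
    rw [e3]
    exact Zp_sub hp (hn s) (Zp_mul (Zp_mul (Zp_mul (Zp_mul (Zp_gi p _) huZ) (hinv s))
      (Zp_conj hp)) (Zp_nat p _))
  · obtain ⟨c, hc⟩ := hss
    have hc' : (n s : kk) - n s' = (p * (5 / p)) ^ (m + 1) * c := by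
      rw [hp.mul_conj]
      exact_mod_cast congrArg (Int.cast : ℤ → kk) hc
    have e5 : ∀ s, gi (a s) = 1 + p * (5 / p) ^ (m + 1) * (s : ℕ) := fun s => by
      simp only [a, map_add, map_mul, map_pow, map_one, map_natCast, h.hP, h.hQ]
      ring
    have e6 : ((((s : ℕ) : ℤ) - (s' : ℕ) : ℤ) : kk) * p⁻¹ ^ m =
        ((gi (a s) * u - n s) * p⁻¹ ^ (m + 1) - (gi (a s') * u - n s') * p⁻¹ ^ (m + 1) +
          (5 / p) ^ (m + 1) * c) * u⁻¹ * (5 / p)⁻¹ ^ (m + 1) := by
      have : (n s : kk) = n s' + (p * (5 / p)) ^ (m + 1) * c := by rw [← hc']; ring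
      rw [e5, e5, this]
      simp only [inv_pow]
      push_cast
      generalize 5 / p = q at *
      field_simp
      ring
    have hmem : ((((s : ℕ) : ℤ) - (s' : ℕ) : ℤ) : kk) * p⁻¹ ^ m ∈ Zp p := by
      rw [e6]
      exact Zp_mul (Zp_mul (Zp_add hp (Zp_sub hp (hn s) (hn s'))
        (Zp_mul (Zp_pow (Zp_conj hp) _) (Zp_int' p c))) huZ') (Zp_pow (Zp_conj_inv hp) _)
    have hd := Zp_int hp hmem
    have h1 : ((s : ℕ) : ℤ) < 5 ^ m := by exact_mod_cast s.2
    have h2 : ((s' : ℕ) : ℤ) < 5 ^ m := by exact_mod_cast s'.2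
    have h3 := Int.eq_zero_of_abs_lt_dvd hd (by rw [abs_lt]; constructor <;> omega)
    exact Fin.ext (by omega)

end Pool.Agent.MP_66cee2_co.X
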