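import Pool.Agent.MP_66cee2_co.X.SpecR2

/-
Row HostB: the inequality of Bessel on a coset of the torsion of the circle.
-/

namespace Pool.Agent.MP_66cee2_co.X

open Complex Finset
open scoped ComplexConjugate

theorem hostB_add (a b : T) : ch (a + b) = ch a * ch b := by
  simp only [ch, fourier_one, AddCircle.toCircle_add, Circle.coe_mul]

theorem hostB_norm (a : T) : ‖ch a‖ = 1 := by
  simp only [ch, fourier_one, Circle.norm_coe]

theorem hostB_val (N c : ℕ) (k : ℤ) :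
    ch (k • (((c : ℝ) / N * 1 : ℝ) : T)) = (exp (2 * Real.pi * I / N) ^ k) ^ c := by
  rw [← AddCircle.coe_zsmul, ch, fourier_coe_apply, ← exp_int_mul, ← exp_nat_mul]
  congr 1
  simp only [zsmul_eq_mul]
  push_cast
  ring

theorem hostB_orth {N : ℕ} (hN : 0 < N) {k l : ℤ} (h : ¬ (N : ℤ) ∣ k - l) :
    ∑ c ∈ range N, (exp (2 * Real.pi * I / N) ^ k) ^ c *
      conj ((exp (2 * Real.pi * I / N) ^ l) ^ c) = 0 := by
  have hz := isPrimitiveRoot_exp N hN.ne'
  have hn : ‖exp (2 * Real.pi * I / N)‖ = 1 := hz.norm'_eq_one hN.ne'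
  generalize exp (2 * Real.pi * I / N) = ζ at hz hn
  have h0 : ζ ≠ 0 := hz.ne_zero hN.ne'
  have e : ∀ c : ℕ, (ζ ^ k) ^ c * conj ((ζ ^ l) ^ c) = (ζ ^ (k - l)) ^ c := fun c => by
    rw [map_pow, map_zpow₀, ← inv_eq_conj hn, ← mul_pow, inv_zpow, zpow_sub₀ h0, div_eq_mul_inv]
  have h1 : ζ ^ (k - l) ≠ 1 := fun h1 => h ((hz.zpow_eq_one_iff_dvd _).1 h1)
  have h2 : (ζ ^ (k - l)) ^ N = 1 := by
    rw [← zpow_natCast, ← zpow_mul, mul_comm, zpow_mul, zpow_natCast, hz.pow_eq_one, one_zpow]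
  simp only [e]
  rw [geom_sum_eq h1, h2, sub_self, zero_div]

theorem hostB_sum {N : ℕ} (hN : 0 < N) {ι : Type} [Fintype ι] (n : ι → ℤ) (β : ι → ℂ)
    (hn : ∀ s s', (N : ℤ) ∣ n s - n s' → s = s') :
    ∑ c ∈ range N, ‖∑ s, β s * (exp (2 * Real.pi * I / N) ^ n s) ^ c‖ ^ 2 =
      N * ∑ s, ‖β s‖ ^ 2 := by
  classical
  have hz : ‖exp (2 * Real.pi * I / N)‖ = 1 := (isPrimitiveRoot_exp N hN.ne').norm'_eq_one hN.ne'
  have ho := fun k l => hostB_orth hN (k := k) (l := l)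
  generalize exp (2 * Real.pi * I / N) = ζ at hz ho
  apply ofReal_injective
  push_cast
  simp only [← mul_conj', map_sum, sum_mul_sum]
  rw [sum_comm, mul_sum]
  refine sum_congr rfl fun s _ => ?_
  rw [sum_comm, sum_eq_single s]
  · rw [← nsmul_eq_mul, ← card_range N, ← sum_const, card_range]
    refine sum_congr rfl fun c _ => ?_
    rw [map_mul, mul_mul_mul_comm, mul_conj' ((ζ ^ n s) ^ c), norm_pow, norm_zpow, hz]
    simp
  · intro s' _ h
    have h1 := ho (n s) (n s') fun h1 => h (hn s s' h1).symm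
    rw [← mul_zero (β s * conj (β s')), ← h1, mul_sum]
    exact sum_congr rfl fun c _ => by rw [map_mul, mul_mul_mul_comm]
  · exact fun h => absurd (mem_univ s) h

theorem sHostB : SHostB := by
  classical
  intro N ι _ n α b S hN hn hα hS
  rcases S.eq_empty_or_nonempty with rfl | ⟨t0, h0⟩
  · rw [sum_empty]
    positivity
  have hsub : S ⊆ (range N).image fun c : ℕ => t0 + (((c : ℝ) / N * 1 : ℝ) : T) := by
    intro t ht
    have h1 : N • (t - t0) = 0 := by rw [nsmul_sub, hS t ht, hS t0 h0, sub_self]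
    obtain ⟨c, hc, e⟩ := (AddCircle.nsmul_eq_zero_iff hN).1 h1
    exact mem_image.2 ⟨c, mem_range.2 hc, by rw [e, add_sub_cancel]⟩
  refine (sum_le_sum_of_subset_of_nonneg hsub fun _ _ _ => by positivity).trans
    ((sum_image_le_of_nonneg fun _ _ => by positivity).trans ?_)
  simp only [zsmul_add, hostB_add, hostB_val, ← mul_assoc]
  rw [hostB_sum hN n _ hn, ← card_univ, ← mul_one (card univ : ℝ), ← nsmul_eq_mul (card univ),
    ← sum_const]
  refine mul_le_mul_of_nonneg_left (sum_le_sum fun s _ => ?_) (Nat.cast_nonneg _)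
  rw [norm_mul, hostB_norm, mul_one]
  exact pow_le_one₀ (norm_nonneg _) (hα s)

end Pool.Agent.MP_66cee2_co.X
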