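import Pool.Agent.MP_66cee2_co.X.KitR

/-
Part R, row `LevB`: measurability of the levels, characters of level minus infinity.
-/

namespace Pool.Agent.MP_66cee2_co.X

open MeasureTheory Set Filter Complex

theorem levB_meas (q : ℕ) (e : ℤ) : MeasurableSet (Lev q e) := by
  have : Lev q e = ⋃ d₀ : ℕ, ⋃ d : ℕ, ⋃ _ : 0 < d₀ ∧ d.Coprime q,
      {x : kk → T | ∃ y : ℂ, ∀ z ∈ {z : kk |
        (∃ (m : ℕ) (r : GaussianInt), z = (d₀ : kk) / 5 ^ m * gi r) ∨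
          ∃ r : GaussianInt, z = (d : kk) * (q : kk) ^ e * gi r}, x z = ee y z} := by
    ext x
    simp only [Lev, mem_ofPred_eq, mem_iUnion]
    constructor
    · rintro ⟨y, d₀, d, h0, hd, h1, h2⟩
      refine ⟨d₀, d, ⟨h0, hd⟩, y, ?_⟩
      rintro z (⟨m, r, rfl⟩ | ⟨r, rfl⟩)
      · exact h1 m r
      · exact h2 r
    · rintro ⟨d₀, d, ⟨h0, hd⟩, y, h⟩
      exact ⟨y, d₀, d, h0, hd, fun m r => h _ (Or.inl ⟨m, r, rfl⟩),
        fun r => h _ (Or.inr ⟨r, rfl⟩)⟩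
  rw [this]
  exact MeasurableSet.iUnion fun _ => MeasurableSet.iUnion fun _ =>
    MeasurableSet.iUnion fun _ => measurableSet_triv _

theorem levB_split {q : ℕ} (hq : q.Prime) {d : ℕ} (hd : 0 < d) :
    ∃ a d' : ℕ, d'.Coprime q ∧ d = q ^ a * d' := by
  obtain ⟨a, d', h1, h2⟩ := Nat.exists_eq_pow_mul_and_not_dvd hd.ne' q hq.ne_one
  exact ⟨a, d', (hq.coprime_iff_not_dvd.2 h1).symm, h2⟩

theorem levB_ex {q : ℕ} (hq : q.Prime) {x : kk → T} (hx : x ∈ X0) : ∃ e, x ∈ Lev q e := by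
  obtain ⟨y, d, hd, h⟩ := hx
  obtain ⟨a, d', h1, h2⟩ := levB_split hq hd
  refine ⟨a, y, d, d', hd, h1, h, (h 0).of_eq 1 ?_⟩
  rw [h2, zpow_natCast, map_one]
  push_cast
  ring

theorem levB_uniq {x : kk → T} {y y' : ℂ} {d d' : ℕ} (hd : 0 < d) (hd' : 0 < d')
    (h : ∀ m : ℕ, Triv x y ((d : kk) / 5 ^ m)) (h' : ∀ m : ℕ, Triv x y' ((d' : kk) / 5 ^ m)) :
    y = y' := by
  obtain ⟨m, hm⟩ := pow_unbounded_of_one_lt (‖y - y'‖ * (d * d')) (by norm_num : (1 : ℝ) < 5)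
  have h1 := (h m).mul_nat d'
  have h2 : Triv x y' ((d : kk) / 5 ^ m * d') := (h' m).of_eq d (by rw [map_natCast]; ring)
  have hd0 : (d : kk) ≠ 0 := by exact_mod_cast hd.ne'
  have hd1 : (d' : kk) ≠ 0 := by exact_mod_cast hd'.ne'
  refine (h1.uniq h2 (mul_ne_zero (div_ne_zero hd0 (pow_ne_zero _ (by norm_num))) hd1)).resolve_right
    (not_le.2 ?_)
  have h5 : ((5 : kk) : ℂ) = 5 := rfl
  have e : ‖(((d : kk) / 5 ^ m * d' : kk) : ℂ)‖ = (d * d' : ℝ) / 5 ^ m := by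
    push_cast
    rw [h5]
    simp only [norm_mul, norm_div, norm_pow, Complex.norm_natCast, Complex.norm_ofNat]
    ring
  rw [e, ← mul_div_assoc, div_lt_one (by positivity)]
  exact hm

theorem levB_cont {x : kk → T} (hx : IsChar x) (h : ∀ q : ℕ, q.Prime → ∀ e, x ∈ Lev q e) :
    x ∈ Xc := by
  obtain ⟨y, d₀, -, h0, -, h1, -⟩ := h 2 Nat.prime_two 0
  refine mem_Xc.2 ⟨y, fun z => ?_⟩
  rw [← sub_eq_zero, ← AddMonoid.addOrderOf_eq_one_iff]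
  by_contra hne
  obtain ⟨q, hq, hdv⟩ := Nat.exists_prime_and_dvd hne
  obtain ⟨N, r, hN, hz⟩ := exists_den z
  obtain ⟨a, N', hN', hNe⟩ := levB_split hq hN
  obtain ⟨y', d₁, d, h2, hd, h3, h4⟩ := h q hq (-(a : ℤ))
  obtain rfl := levB_uniq h0 h2 h1 h3
  have hq0 : (q : kk) ≠ 0 := by exact_mod_cast hq.ne_zero
  have e : ((d * N' : ℕ) : kk) * z = (d : kk) * (q : kk) ^ (-(a : ℤ)) * gi r := by
    rw [← hz, hNe, zpow_neg, zpow_natCast]
    push_cast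
    field_simp
  have h5 : (d * N') • (x z - ee y z) = 0 := by
    rw [smul_sub, ← hx.natCast_mul, ← (isChar_ee y).natCast_mul, e, triv_iff.1 h4 r, sub_self]
  exact hq.coprime_iff_not_dvd.1 (Nat.Coprime.mul_left hd hN').symm
    (hdv.trans (addOrderOf_dvd_of_nsmul_eq_zero h5))

theorem sLevB : SLevB :=
  ⟨levB_meas, fun _ hq _ hx => levB_ex hq hx, fun _ hx h => levB_cont hx h⟩

end Pool.Agent.MP_66cee2_co.X
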