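import Pool.Agent.MP_66cee2_co.X.SpecR2

/-
Part R, row Light: all finite places die.
-/

namespace Pool.Agent.MP_66cee2_co.X

open MeasureTheory Set Filter Complex

theorem light_rot (q : ℕ) (hq : q.Prime) :
    ∃ l : KK, l ≠ 0 ∧ ‖(l : ℂ)‖ = 1 ∧ l + l⁻¹ = (q : KK)⁻¹ := by
  have hq1 : (1 : ℝ) ≤ q := by exact_mod_cast hq.one_lt.le
  have hq0 : (q : ℂ) ≠ 0 := by exact_mod_cast hq.ne_zero
  set c : ℝ := (2 * (q : ℝ))⁻¹ with hc
  have hc0 : 0 ≤ c := by positivity
  have hc1 : c ≤ 1 := inv_le_one_of_one_le₀ (by linarith)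
  have hs : √(1 - c ^ 2) ^ 2 = 1 - c ^ 2 := Real.sq_sqrt (by nlinarith)
  set s : ℝ := √(1 - c ^ 2)
  have hs' : (s : ℂ) ^ 2 = 1 - (c : ℂ) ^ 2 := by exact_mod_cast hs
  have hc' : 2 * (c : ℂ) = (q : ℂ)⁻¹ := by
    rw [hc]; push_cast; field_simp
  have hmul : ((c : ℂ) + s * I) * (c - s * I) = 1 := by
    linear_combination hs' - (s : ℂ) ^ 2 * I_sq
  have hne : (c : ℂ) + s * I ≠ 0 := left_ne_zero_of_mul_eq_one hmul
  have hmem : (c : ℂ) + s * I ∈ KK := by
    change _ ∈ algebraicClosure ℚ ℂ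
    rw [mem_algebraicClosure_iff]
    refine ⟨Polynomial.X ^ 2 - Polynomial.C ((q : ℚ)⁻¹) * Polynomial.X + 1, fun h => ?_, ?_⟩
    · have := congrArg (Polynomial.eval 0) h
      simp at this
    · simp only [map_add, map_sub, map_mul, map_pow, Polynomial.aeval_X, Polynomial.aeval_C,
        map_one, map_inv₀, map_natCast]
      rw [← hc']
      linear_combination -hmul
  refine ⟨⟨_, hmem⟩, fun h => hne (congrArg Subtype.val h), ?_, ?_⟩
  · change ‖(c : ℂ) + s * I‖ = 1
    rw [Complex.norm_add_mul_I, hs]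
    simp
  · apply Subtype.ext
    push_cast
    rw [← hc', inv_eq_of_mul_eq_one_right hmul]
    ring

theorem light_iter {K : Subfield ℂ} (l : K) (n : ℕ) (x : K → T) :
    (act l)^[n] x = act (l ^ n) x := by
  induction n with
  | zero => funext z; simp [act]
  | succ n ih =>
    rw [Function.iterate_succ_apply', ih]
    funext z
    simp [act, pow_succ, mul_assoc]

theorem light_up {q : ℕ} (hq : q.Prime) {e : ℤ} {x : kk → T} (h : x ∈ Lev q e) :
    x ∈ Lev q (e + 1) := by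
  obtain ⟨y, d₀, d, h0, h1, h2, h3⟩ := h
  refine ⟨y, d₀, d, h0, h1, h2, fun r => ?_⟩
  have hq0 : (q : kk) ≠ 0 := by exact_mod_cast hq.ne_zero
  have e1 : (d : kk) * (q : kk) ^ (e + 1) * gi r = (d : kk) * (q : kk) ^ e * gi (q * r) := by
    rw [zpow_add_one₀ hq0, map_mul, map_natCast]; ring
  rw [e1]
  exact h3 _

theorem light_meas : Measurable res :=
  measurable_pi_lambda _ fun _ => measurable_pi_apply _

theorem sLight (h1 : SLevA) (h2 : SLevB) : SLight := by
  intro μ _ hch hinv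
  have key : ∀ (q : ℕ) (e : ℤ), ∀ᵐ x ∂μ, q.Prime → res x ∈ Lev q e → res x ∈ Lev q (e - 1) := by
    intro q e
    by_cases hq : q.Prime
    swap
    · exact Eventually.of_forall fun x h => absurd h hq
    obtain ⟨l, hl0, hl1, hl⟩ := light_rot q hq
    have hB : MeasurableSet (res ⁻¹' (Lev q e \ Lev q (e - 1))) :=
      light_meas ((h2.1 q e).diff (h2.1 q (e - 1)))
    filter_upwards [hch, (hinv l hl1).conservative.ae_mem_imp_frequently_image_mem
      hB.nullMeasurableSet] with x hx hr _ he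
    by_contra hne
    have hf := frequently_atTop.1 (hr ⟨he, hne⟩)
    obtain ⟨a, ha, hA⟩ := hf 1
    obtain ⟨c, hc, hC⟩ := hf (a + 1)
    rw [light_iter] at hA hC
    exact hA.2 (h1 q l x e a c hq hl0 hl hx ha hc he hC.1)
  rw [measure_eq_zero_iff_ae_notMem]
  filter_upwards [hch, ae_all_iff.2 fun q => ae_all_iff.2 (key q)] with x hx hk
  rintro ⟨h0, hc⟩
  refine hc (h2.2.2 _ (fun a b => ?_) fun q hq e => ?_)
  · simp only [res, map_add]
    exact hx _ _
  · obtain ⟨e₀, he₀⟩ := h2.2.1 q hq _ h0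
    induction e using Int.inductionOn' (b := e₀) with
    | zero => exact he₀
    | succ k _ ih => exact light_up hq ih
    | pred k _ ih => exact hk q k hq ih

end Pool.Agent.MP_66cee2_co.X
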