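import Pool.Agent.MP_66cee2_co.X.SpecR2

/-
Row Max: the maximal ergodic inequality for a set, by the argument of Garsia.
-/

namespace Pool.Agent.MP_66cee2_co.X

open MeasureTheory Set Filter
open scoped ENNReal

/-- the truncated maximal function. -/
noncomputable def maxM {X : Type} (f : X → X) (B : Set X) (d : ℝ≥0∞) : ℕ → X → ℝ≥0∞
  | 0, _ => 0
  | N + 1, x => B.indicator 1 x + maxM f B d N (f x) - d

theorem max_meas {X : Type} [MeasurableSpace X] {f : X → X} {B : Set X} (d : ℝ≥0∞)
    (hf : Measurable f) (hB : MeasurableSet B) (N : ℕ) : Measurable (maxM f B d N) := by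
  induction N with
  | zero => exact measurable_const
  | succ N ih => exact ((measurable_one.indicator hB).add (ih.comp hf)).sub measurable_const

theorem max_le {X : Type} (f : X → X) (B : Set X) (d : ℝ≥0∞) (N : ℕ) :
    ∀ x, maxM f B d N x ≤ N := by
  induction N with
  | zero => intro x; simp [maxM]
  | succ N ih =>
    intro x
    have h1 : B.indicator (1 : X → ℝ≥0∞) x ≤ 1 := by
      by_cases hx : x ∈ B <;> simp [hx]
    calc maxM f B d (N + 1) x ≤ B.indicator 1 x + maxM f B d N (f x) := tsub_le_self
      _ ≤ 1 + N := add_le_add h1 (ih _)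
      _ = ((N + 1 : ℕ) : ℝ≥0∞) := by push_cast; ring

theorem max_mono {X : Type} (f : X → X) (B : Set X) (d : ℝ≥0∞) (N : ℕ) :
    ∀ x, maxM f B d N x ≤ maxM f B d (N + 1) x := by
  induction N with
  | zero => intro x; simp [maxM]
  | succ N ih =>
    intro x
    exact tsub_le_tsub_right (add_le_add le_rfl (ih (f x))) d

open Classical in
theorem max_cnt {X : Type} (f : X → X) (B : Set X) (d : ℝ≥0∞) (m : ℕ) :
    ∀ x, (((Finset.range m).filter fun t => f^[t] x ∈ B).card : ℝ≥0∞) ≤
      maxM f B d m x + d * m := by
  induction m with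
  | zero => intro x; simp
  | succ m ih =>
    intro x
    have h1 : (((Finset.range (m + 1)).filter fun t => f^[t] x ∈ B).card : ℝ≥0∞) =
        B.indicator 1 x + ((Finset.range m).filter fun t => f^[t] (f x) ∈ B).card := by
      rw [Finset.card_filter, Finset.card_filter, Finset.sum_range_succ', Nat.cast_add, add_comm]
      congr 1
      by_cases hx : x ∈ B <;> simp [hx]
    calc _ = _ := h1
      _ ≤ B.indicator 1 x + (maxM f B d m (f x) + d * m) := add_le_add le_rfl (ih _)
      _ = (B.indicator 1 x + maxM f B d m (f x)) + d * m := (add_assoc _ _ _).symm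
      _ ≤ (maxM f B d (m + 1) x + d) + d * m := add_le_add le_tsub_add le_rfl
      _ = _ := by push_cast; ring

theorem max_level {X : Type} [MeasurableSpace X] (μ : Measure X) [IsFiniteMeasure μ]
    {f : X → X} {B : Set X} (d : ℝ≥0∞) (hf : MeasurePreserving f μ μ) (hB : MeasurableSet B)
    (N : ℕ) : d * μ {x | maxM f B d (N + 1) x ≠ 0} ≤ μ B := by
  set E := {x | maxM f B d (N + 1) x ≠ 0} with hE
  have hEm : MeasurableSet E :=
    (max_meas d hf.measurable hB (N + 1) (measurableSet_singleton 0)).compl
  have hpt : ∀ x, E.indicator (fun _ => d) x + maxM f B d (N + 1) x ≤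
      B.indicator 1 x + maxM f B d N (f x) := by
    intro x
    by_cases hx : x ∈ E
    · rw [indicator_of_mem hx]
      have h1 : d ≤ B.indicator 1 x + maxM f B d N (f x) := by
        by_contra hcon
        exact hx (tsub_eq_zero_of_le (not_le.mp hcon).le)
      exact (add_tsub_cancel_of_le h1).le
    · have h0 : maxM f B d (N + 1) x = 0 := not_not.mp hx
      rw [indicator_of_notMem hx, h0, add_zero]
      exact zero_le
  have hint := lintegral_mono (μ := μ) hpt
  rw [lintegral_add_left (measurable_const.indicator hEm),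
    lintegral_add_left (measurable_one.indicator hB), lintegral_indicator_const hEm,
    lintegral_indicator_one hB, hf.lintegral_comp (max_meas d hf.measurable hB N)] at hint
  have hfin : ∫⁻ x, maxM f B d (N + 1) x ∂μ ≠ ⊤ := by
    refine ne_top_of_le_ne_top ?_ (lintegral_mono (max_le f B d (N + 1)))
    rw [lintegral_const]
    exact ENNReal.mul_ne_top (ENNReal.natCast_ne_top _) (measure_ne_top _ _)
  exact (ENNReal.add_le_add_iff_right hfin).mp
    (hint.trans (add_le_add le_rfl (lintegral_mono (max_mono f B d N))))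

theorem sMax : SMax := by
  classical
  intro X _ μ _ f B δ hf hB hδ
  set d := ENNReal.ofReal δ with hd
  have hd0 : d ≠ 0 := (ENNReal.ofReal_pos.mpr hδ).ne'
  have hmono : Monotone fun N : ℕ => {x | maxM f B d (N + 1) x ≠ 0} := by
    refine monotone_nat_of_le_succ fun N x hx h0 => hx ?_
    exact le_antisymm (h0 ▸ max_mono f B d (N + 1) x) zero_le
  calc _ ≤ μ (⋃ N : ℕ, {x | maxM f B d (N + 1) x ≠ 0}) := by
        refine measure_mono fun x hx => ?_
        obtain ⟨m, hm⟩ := hx
        refine mem_iUnion.mpr ⟨m, fun h0 => ?_⟩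
        have h1 : maxM f B d m x = 0 := le_antisymm (h0 ▸ max_mono f B d m x) zero_le
        have h2 := max_cnt f B d m x
        rw [h1, zero_add, hd, ← ENNReal.ofReal_natCast, ← ENNReal.ofReal_natCast m,
          ← ENNReal.ofReal_mul hδ.le, ENNReal.ofReal_le_ofReal_iff (by positivity)] at h2
        exact absurd hm (not_lt.mpr (by convert h2))
    _ = ⨆ N : ℕ, μ {x | maxM f B d (N + 1) x ≠ 0} := hmono.measure_iUnion
    _ ≤ μ B / d := by
        refine iSup_le fun N => ?_
        rw [ENNReal.le_div_iff_mul_le (Or.inl hd0) (Or.inl ENNReal.ofReal_ne_top), mul_comm]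
        exact max_level μ d hf hB N

end Pool.Agent.MP_66cee2_co.X
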