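import Pool.Agent.MP_66cee2_co.X.SpecR2

/-
Part R, row Pig: zero entropy in the form of a covering bound.
-/

namespace Pool.Agent.MP_66cee2_co.X

open MeasureTheory Set Filter Complex
open scoped ENNReal

theorem pig_act_iter (l : kk) (t : ℕ) (x : kk → T) : (act l)^[t] x = act (l ^ t) x := by
  induction t generalizing x with
  | zero => funext z; simp [act]
  | succ t ih =>
    rw [Function.iterate_succ_apply, ih]
    funext z
    simp only [act]
    congr 1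
    ring

theorem pig_norm (p : kk) (hp : IsP p) : ‖(p : ℂ)‖ ^ 2 = 5 := by
  rw [← Complex.normSq_eq_norm_sq]
  rcases hp with h | h <;> rw [h, Complex.normSq_apply] <;> simp <;> norm_num

theorem pig_norm1 (p : kk) (hp : IsP p) : ‖((5 / p / p : kk) : ℂ)‖ = 1 := by
  have h := pig_norm p hp
  have h0 : ‖(p : ℂ)‖ ≠ 0 := by
    intro h0
    rw [h0] at h
    norm_num at h
  have e : ((5 / p / p : kk) : ℂ) = 5 / (p : ℂ) / (p : ℂ) := by
    push_cast
    rfl
  rw [e, norm_div, norm_div]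
  have : ‖(5 : ℂ)‖ = 5 := by simp
  rw [this]
  field_simp
  linarith

theorem pig_norm2 (p : kk) (hp : IsP p) : ‖((p / (5 / p) : kk) : ℂ)‖ = 1 := by
  have h := pig_norm1 p hp
  have e : (p / (5 / p) : kk) = (5 / p / p)⁻¹ := by rw [inv_div]
  rw [e]
  have : (((5 / p / p : kk)⁻¹ : kk) : ℂ) = (((5 / p / p : kk) : ℂ))⁻¹ := by push_cast; rfl
  rw [this, norm_inv, h, inv_one]

open Classical in
/-- a measurable set of good points for one tower. -/
theorem pig_good (h1 : SMax) (ν : Measure (kk → T)) [IsProbabilityMeasure ν] (hinv : Inv ν)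
    (l : kk) (hl : ‖(l : ℂ)‖ = 1) (h : ℕ) (U : Set (kk → T)) (hU : MeasurableSet U) (d : ℝ)
    (hd : 0 < d) (hν : ν Uᶜ ≤ ENNReal.ofReal (d ^ 2)) :
    ∃ G : Set (kk → T), MeasurableSet G ∧ ν Gᶜ ≤ ENNReal.ofReal d ∧ ∀ x ∈ G, ∀ m : ℕ,
      (((Finset.range m).filter fun t => act (l ^ (h * t)) x ∉ U).card : ℝ) ≤ d * m := by
  have hl' : ‖((l ^ h : kk) : ℂ)‖ = 1 := by
    have : ((l ^ h : kk) : ℂ) = (l : ℂ) ^ h := by push_cast; rfl
    rw [this, norm_pow, hl, one_pow]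
  have hb := h1 (kk → T) ν (act (l ^ h)) Uᶜ d (hinv _ hl') hU.compl hd
  obtain ⟨Bad, hb, hBad⟩ : ∃ Bad : Set (kk → T), ν Bad ≤ ν Uᶜ / ENNReal.ofReal d ∧
      ∀ x, x ∉ Bad → ∀ m : ℕ,
        (((Finset.range m).filter fun t => act (l ^ (h * t)) x ∉ U).card : ℝ) ≤ d * m := by
    refine ⟨_, hb, fun x hx m => ?_⟩
    by_contra hlt
    refine hx ⟨m, (not_le.1 hlt).trans_eq ?_⟩
    congr 2
    ext t
    simp only [Finset.mem_filter, pig_act_iter, mem_compl_iff, pow_mul]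
  refine ⟨(toMeasurable ν Bad)ᶜ, (measurableSet_toMeasurable _ _).compl, ?_, ?_⟩
  · rw [compl_compl, measure_toMeasurable]
    refine hb.trans ?_
    calc ν Uᶜ / ENNReal.ofReal d ≤ ENNReal.ofReal (d ^ 2) / ENNReal.ofReal d := by gcongr
      _ = ENNReal.ofReal (d ^ 2 / d) := (ENNReal.ofReal_div_of_pos hd).symm
      _ = ENNReal.ofReal d := by
          congr 1
          field_simp
  · intro x hx m
    exact hBad x (fun hb => hx (subset_toMeasurable _ _ hb)) m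

theorem pig_exp (A d : ℝ) (h m : ℕ) (hA : 0 < A) (hd : 0 < d) (hh : Real.log A ≤ d * h) :
    A ^ m * (5 : ℝ) ^ (2 * h * d * m) ≤ Real.exp (8 * d * (h * m)) := by
  have h5 : Real.log 5 ≤ 2 := by
    rw [Real.log_le_iff_le_exp (by norm_num)]
    have := Real.exp_one_gt_d9
    have e : Real.exp 2 = Real.exp 1 * Real.exp 1 := by rw [← Real.exp_add]; norm_num
    rw [e]
    nlinarith
  have e1 : A ^ m = Real.exp (Real.log A * m) := by
    rw [mul_comm, Real.exp_nat_mul, Real.exp_log hA]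
  have e2 : (5 : ℝ) ^ (2 * h * d * m) = Real.exp (Real.log 5 * (2 * h * d * m)) :=
    Real.rpow_def_of_pos (by norm_num) _
  rw [e1, e2, ← Real.exp_add]
  apply Real.exp_le_exp.2
  have hm : (0 : ℝ) ≤ m := Nat.cast_nonneg m
  have hh0 : (0 : ℝ) ≤ h := Nat.cast_nonneg h
  have a1 : Real.log A * m ≤ d * h * m := by gcongr
  have a0 : 0 ≤ d * h * m := by positivity
  have a2 : Real.log 5 * (2 * h * d * m) ≤ 2 * (2 * h * d * m) := by gcongr
  nlinarith

theorem sPig (h1 : SMax) (h2 : SPred) (h3 : SChain) : SPig := by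
  intro p ν _ δ hp hinv hc hc' hδ
  set d : ℝ := δ / 8 with hd
  have hd0 : 0 < d := by positivity
  obtain ⟨L, hL⟩ := h2 p ν (d ^ 2) hc (by positivity)
  obtain ⟨L', hL'⟩ := h2 (5 / p) ν (d ^ 2) hc' (by positivity)
  set A : ℝ := ((L : ℝ) + 1) * (L' + 1) with hA
  have hA0 : 0 < A := by positivity
  obtain ⟨n, hn⟩ := exists_nat_ge (Real.log A / d)
  have hh : Real.log A ≤ d * ((n + 1 : ℕ) : ℝ) := by
    rw [div_le_iff₀ hd0] at hn
    push_cast
    nlinarith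
  set h : ℕ := n + 1 with hh'
  have hpos : 0 < h := Nat.succ_pos n
  obtain ⟨K, F, ε, hK, hKν, hP⟩ := hL h
  obtain ⟨K', F', ε', hK', hKν', hP'⟩ := hL' h
  obtain ⟨C₀, hC⟩ := h3 p h L L' K F ε K' F' ε' d hp hpos hd0.le hP hP'
  obtain ⟨G, hG, hGν, hGx⟩ := pig_good h1 ν hinv _ (pig_norm1 p hp) h _
    (MeasurableSet.iUnion hK) d hd0 hKν
  obtain ⟨G', hG', hGν', hGx'⟩ := pig_good h1 ν hinv _ (pig_norm2 p hp) h _
    (MeasurableSet.iUnion hK') d hd0 hKν'
  refine ⟨G ∩ G', h, max C₀ 0, hG.inter hG', hpos, ?_, ?_⟩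
  · rw [compl_inter]
    calc ν (Gᶜ ∪ G'ᶜ) ≤ ν Gᶜ + ν G'ᶜ := measure_union_le _ _
      _ ≤ ENNReal.ofReal d + ENNReal.ofReal d := add_le_add hGν hGν'
      _ = ENNReal.ofReal (d + d) := (ENNReal.ofReal_add hd0.le hd0.le).symm
      _ ≤ ENNReal.ofReal δ := ENNReal.ofReal_le_ofReal (by rw [hd]; linarith)
  · intro m S x hx hS
    refine hC m S x (fun j hj => ⟨(hx j hj).1, ?_, ?_⟩) ?_
    · exact hGx _ (hx j hj).2.1 m
    · exact hGx' _ (hx j hj).2.2 m
    · refine lt_of_le_of_lt ?_ hS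
      have e := pig_exp A d h m hA0 hd0 hh
      have e8 : 8 * d = δ := by rw [hd]; ring
      rw [e8] at e
      have hp0 : 0 ≤ A ^ m * (5 : ℝ) ^ (2 * h * d * m) := by positivity
      calc C₀ * A ^ m * (5 : ℝ) ^ (2 * h * d * m)
          = C₀ * (A ^ m * (5 : ℝ) ^ (2 * h * d * m)) := mul_assoc _ _ _
        _ ≤ max C₀ 0 * (A ^ m * (5 : ℝ) ^ (2 * h * d * m)) :=
          mul_le_mul_of_nonneg_right (le_max_left _ _) hp0
        _ ≤ max C₀ 0 * Real.exp (δ * (h * m)) :=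
          mul_le_mul_of_nonneg_left e (le_max_right _ _)

end Pool.Agent.MP_66cee2_co.X
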