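import Pool.Agent.MP_66cee2_co.X.SpecR2

/-
Row Pos: a deterministic invariant measure charges `X0`.
-/

namespace Pool.Agent.MP_66cee2_co.X

open MeasureTheory Set Filter Complex
open scoped ENNReal

section

variable {X : Type} [MeasurableSpace X] {ν : Measure X} [IsFiniteMeasure ν]

theorem Pos_int {E : Set X} (hE : MeasurableSet E) : Integrable (E.indicator (1 : X → ℝ)) ν :=
  (integrable_const (1 : ℝ)).indicator hE

theorem Pos_sum {ι : Type} (s : Finset ι) {E : ι → Set X} (hE : ∀ i, MeasurableSet (E i)) :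
    Integrable (fun x => ∑ i ∈ s, (E i).indicator (1 : X → ℝ) x) ν ∧
      ∫ x, ∑ i ∈ s, (E i).indicator (1 : X → ℝ) x ∂ν = ∑ i ∈ s, ν.real (E i) :=
  ⟨integrable_finsetSum s fun i _ => Pos_int (hE i), by
    rw [integral_finsetSum s fun i _ => Pos_int (hE i)]
    exact Finset.sum_congr rfl fun i _ => integral_indicator_one (hE i)⟩

open Classical in
theorem Pos_markov {ι : Type} (s : Finset ι) {B : Set X} {E : ι → Set X} (hB : MeasurableSet B)
    (hE : ∀ i, MeasurableSet (E i))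
    (h : ∀ᵐ x ∂ν, x ∈ B → 2 * (s.filter fun i => x ∈ E i).card ≤ s.card) :
    s.card * ν.real B ≤ 2 * ∑ i ∈ s, ν.real (B ∩ (E i)ᶜ) := by
  obtain ⟨k1, k2⟩ := Pos_sum (ν := ν) s fun i => hB.inter (hE i).compl
  rw [← k2, ← integral_indicator_one hB, ← integral_const_mul, ← integral_const_mul]
  refine integral_mono_ae ((Pos_int hB).const_mul _) (k1.const_mul _) (h.mono fun x hx => ?_)
  by_cases k : x ∈ B
  · have a := Finset.card_filter_add_card_filter_not (s := s) fun i => x ∈ E i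
    have b : (s.card : ℝ) ≤ 2 * ((s.filter fun i => x ∉ E i).card : ℝ) := by
      have := hx k
      exact_mod_cast (by omega : s.card ≤ 2 * (s.filter fun i => x ∉ E i).card)
    rw [Finset.natCast_card_filter] at b
    simpa [Set.indicator_apply, k] using b
  · simp [k]

end

theorem Pos_meas (l : kk) : Measurable (act l) :=
  measurable_pi_lambda _ fun _ => measurable_pi_apply _

theorem Pos_act {l : kk} (hl : l ≠ 0) (x : kk → T) :
    act l⁻¹ (act l x) = x ∧ act l (act l⁻¹ x) = x :=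
  ⟨funext fun z => by simp [act, hl], funext fun z => by simp [act, hl]⟩

theorem sPos (h1 : SPig) (h2 : SDet) (h3 : SAr1) (h4 : SQ) : SPos := by
  classical
  intro p ν _ hp hc hi c1 c2 h0
  obtain ⟨G, h, C₀, mG, hh, hG, hP⟩ := h1 p ν (1 / 100) hp hi c1 c2 (by norm_num)
  obtain ⟨M, k₀, H₀, H, p0, pH, a1, a2, a3⟩ := h2 G h C₀ hh hP
  obtain ⟨-, -, mQ, aQ, iQ⟩ := h4
  have g : ν.real Gᶜ ≤ 1 / 100 := ENNReal.toReal_le_of_le_ofReal (by norm_num) hG
  have l0 : ∀ j, lam j ≠ 0 := fun j e => by simpa [e] using h3.1 j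
  have mE : ∀ j, MeasurableSet (act (lam j) ⁻¹' G) := fun j => Pos_meas _ mG
  have pr : ∀ j E, MeasurableSet E → ν.real (act (lam j) ⁻¹' E) = ν.real E := fun j E hE =>
    (hi _ (h3.1 j)).measureReal_preimage hE.nullMeasurableSet
  have b1 : ν.real (Qs M k₀)ᶜ ≤ 2 / 100 := by
    have k := Pos_markov (ν := ν) (Finset.Icc 1 H₀) (mQ M k₀).compl mE (hc.mono fun x hx hq => by
      rw [Nat.card_Icc, Nat.add_sub_cancel]
      exact not_lt.1 fun k => hq (a1 x hx k))
    have k2 := Finset.sum_le_card_nsmul (Finset.Icc 1 H₀)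
      (fun j => ν.real ((Qs M k₀)ᶜ ∩ (act (lam j) ⁻¹' G)ᶜ)) (1 / 100) fun j _ =>
        (measureReal_mono inter_subset_right).trans ((pr j _ mG.compl).trans_le g)
    rw [nsmul_eq_mul] at k2
    have : (0 : ℝ) < (Finset.Icc 1 H₀).card := by simpa using p0
    exact le_of_mul_le_mul_left (by linarith) this
  have mB : ∀ k, MeasurableSet (Qs M k \ Qs M (k + 1)) := fun k => (mQ M k).diff (mQ M _)
  have mC : ∀ k j, MeasurableSet (act (lam j)⁻¹ ⁻¹' (Qs M k \ Qs M (k + 1)) ∩ Gᶜ) :=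
    fun k j => (Pos_meas _ (mB k)).inter mG.compl
  have b2 : ∀ k, k₀ ≤ k → ν.real (Qs M k \ Qs M (k + 1)) ≤ 2 * ((∑ j ∈ Finset.Icc 1 (H k),
      ν.real (act (lam j)⁻¹ ⁻¹' (Qs M k \ Qs M (k + 1)) ∩ Gᶜ)) / H k) := fun k hk => by
    have q := Pos_markov (ν := ν) (Finset.Icc 1 (H k)) (mB k) mE (.of_forall fun x hx => by
      rw [Nat.card_Icc, Nat.add_sub_cancel]
      exact a2 k hk x hx)
    rw [Nat.card_Icc, Nat.add_sub_cancel] at q
    rw [← mul_div_assoc, le_div_iff₀' (by exact_mod_cast pH k)]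
    refine q.trans_eq (congrArg _ (Finset.sum_congr rfl fun j _ => ?_))
    rw [← pr j _ (mC k j), preimage_inter, ← preimage_comp,
      show act (lam j)⁻¹ ∘ act (lam j) = id from funext fun x => (Pos_act (l0 j) x).1]
    rfl
  have b3 : ∀ n, ∑ k ∈ Finset.Ico k₀ n, (∑ j ∈ Finset.Icc 1 (H k),
      ν.real (act (lam j)⁻¹ ⁻¹' (Qs M k \ Qs M (k + 1)) ∩ Gᶜ)) / H k ≤ 2 * ν.real Gᶜ := fun n => by
    have q := fun k => Pos_sum (ν := ν) (Finset.Icc 1 (H k)) (mC k)
    simp only [← (q _).2, ← integral_div]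
    rw [← integral_finsetSum _ fun k _ => (q k).1.div_const _, ← integral_indicator_one mG.compl,
      ← integral_const_mul]
    refine integral_mono (integrable_finsetSum _ fun k _ => (q k).1.div_const _)
      ((Pos_int mG.compl).const_mul _) fun x => ?_
    by_cases k : x ∈ G
    · simp [k]
    · have e : ∀ k j, (∃ y ∈ Qs M k \ Qs M (k + 1), x = act (lam j) y) ↔
          act (lam j)⁻¹ x ∈ Qs M k \ Qs M (k + 1) := fun k j =>
        ⟨fun ⟨y, hy, e⟩ => by rwa [e, (Pos_act (l0 j) y).1],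
          fun hy => ⟨_, hy, (Pos_act (l0 j) x).2.symm⟩⟩
      have := a3 x n
      simp only [e] at this
      simpa [Set.indicator_apply, k] using this
  have b4 : ∀ n, k₀ ≤ n → ν.real (Qs M n)ᶜ ≤
      ν.real (Qs M k₀)ᶜ + ∑ k ∈ Finset.Ico k₀ n, ν.real (Qs M k \ Qs M (k + 1)) := by
    intro n hn
    induction n, hn using Nat.le_induction with
    | base => simp
    | succ n hn ih =>
      rw [Finset.sum_Ico_succ_top hn, ← add_assoc]
      refine ((measureReal_mono fun x hx => ?_).trans (measureReal_union_le _ _)).trans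
        (add_le_add_left ih _)
      by_cases k : x ∈ Qs M n
      exacts [Or.inr ⟨k, hx⟩, Or.inl k]
  have mono : Monotone fun n => (Qs M n)ᶜ :=
    monotone_nat_of_le_succ fun n => compl_subset_compl.2 (aQ M n)
  have b5 : ∀ n, ν (Qs M n)ᶜ ≤ ENNReal.ofReal (6 / 100) := fun n => by
    refine (measure_mono (mono (le_max_left n k₀))).trans
      ((ENNReal.le_ofReal_iff_toReal_le (measure_ne_top _ _) (by norm_num)).2 ?_)
    have q1 := b4 _ (le_max_right n k₀)
    have q2 := Finset.sum_le_sum fun k (hk : k ∈ Finset.Ico k₀ (max n k₀)) =>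
      b2 k (Finset.mem_Ico.1 hk).1
    rw [← Finset.mul_sum] at q2
    have q3 := b3 (max n k₀)
    exact q1.trans (by linarith)
  have b6 : ν X0ᶜ ≤ ENNReal.ofReal (6 / 100) := by
    refine (measure_mono ((compl_subset_compl.2 (iQ M)).trans_eq (compl_iInter _))).trans ?_
    rw [mono.measure_iUnion]
    exact iSup_le b5
  rw [measure_congr (ae_eq_univ.2 (by rwa [compl_compl])), measure_univ] at b6
  exact absurd (ENNReal.one_le_ofReal.1 b6) (by norm_num)

end Pool.Agent.MP_66cee2_co.X
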