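import Pool.Agent.MP_66cee2_co.X.SpecR2

/-
Compact predictors.
-/

namespace Pool.Agent.MP_66cee2_co.X

open MeasureTheory Set Filter Topology
open scoped ENNReal

theorem pred_compact (p : kk) (h : ℕ) {L : ℕ} (K : Fin L → Set (kk → T))
    (hK : ∀ j, IsClosed (K j)) (hI : ∀ j, Inj p (K j)) : ∃ F ε, Pred p h K F ε := by
  classical
  have hc : ∀ z : kk, Continuous fun w : (kk → T) × (kk → T) => ‖w.1 z - w.2 z‖ := fun z =>
    (((continuous_apply z).comp continuous_fst).sub ((continuous_apply z).comp continuous_snd)).norm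
  have hP : IsCompact ((⋃ j, K j ×ˢ K j) ∩
      {w : (kk → T) × (kk → T) | 1 / (2 * 5 ^ h) ≤ ‖w.1 (p⁻¹ ^ h) - w.2 (p⁻¹ ^ h)‖}) :=
    ((isClosed_iUnion_of_finite fun j => (hK j).prod (hK j)).inter
      (isClosed_le continuous_const (hc _))).isCompact
  obtain ⟨t, ht⟩ := hP.elim_finite_subcover
    (fun i : Zp p × ℕ => {w : (kk → T) × (kk → T) | 1 / ((i.2 : ℝ) + 1) < ‖w.1 i.1 - w.2 i.1‖})
    (fun i => isOpen_lt continuous_const (hc _)) (by
      rintro ⟨x, x'⟩ ⟨h1, h2⟩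
      obtain ⟨j, hx, hx'⟩ := mem_iUnion.1 h1
      by_contra hn
      have e : x = x' := hI j x hx x' hx' fun z hz => by
        by_contra hz'
        obtain ⟨n, hn'⟩ := exists_nat_one_div_lt (norm_pos_iff.2 (sub_ne_zero.2 hz'))
        exact hn (mem_iUnion.2 ⟨(⟨z, hz⟩, n), hn'⟩)
      subst e
      simp only [mem_ofPred_eq, sub_self, norm_zero] at h2
      exact absurd h2 (not_le.2 (by positivity)))
  refine ⟨t.image fun i => i.1.1, 1 / ((t.sup fun i => i.2 : ℕ) + 1), by positivity, ?_, ?_⟩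
  · intro z hz
    obtain ⟨i, -, rfl⟩ := Finset.mem_image.1 hz
    exact i.1.2
  · intro j x hx x' hx' hF
    by_contra hn
    have h1 := ht (a := (x, x')) ⟨mem_iUnion.2 ⟨j, hx, hx'⟩, not_lt.1 hn⟩
    obtain ⟨i, hi, h2⟩ := mem_iUnion₂.1 h1
    have h3 := hF _ (Finset.mem_image_of_mem _ hi)
    have h4 : i.2 ≤ t.sup fun i => i.2 := Finset.le_sup (f := fun i : Zp p × ℕ => i.2) hi
    have h5 : 1 / (((t.sup fun i => i.2 : ℕ) : ℝ) + 1) ≤ 1 / ((i.2 : ℝ) + 1) :=
      Nat.one_div_le_one_div h4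
    exact absurd (h2.trans_le (h3.trans h5)) (lt_irrefl _)

theorem sPred : SPred := by
  rintro p ν _ η ⟨Y, hY, hc⟩ hη
  have h1 : Tendsto (fun n => ν (⋃ j : Fin n, Y j)ᶜ) atTop (𝓝 0) := by
    have h := tendsto_measure_iInter_atTop (μ := ν) (s := fun n => (⋃ j : Fin n, Y j)ᶜ)
      (fun n => (MeasurableSet.iUnion fun j => (hY _).1).compl.nullMeasurableSet)
      (fun n m hnm => compl_subset_compl.2 (iUnion_subset fun j =>
        subset_iUnion (fun j : Fin m => Y j) (j.castLE hnm))) ⟨0, measure_ne_top _ _⟩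
    have e : (⋂ n, (⋃ j : Fin n, Y j)ᶜ) = (⋃ j, Y j)ᶜ := by
      rw [← compl_iUnion]
      refine congrArg _ (Subset.antisymm (iUnion₂_subset fun n j => subset_iUnion Y j)
        (iUnion_subset fun j => subset_iUnion₂_of_subset (j + 1) (Fin.last j) subset_rfl))
    rwa [e, hc] at h
  obtain ⟨L, hL⟩ := (h1.eventually (gt_mem_nhds
    (ENNReal.ofReal_pos.2 (half_pos hη)))).exists
  have hδ : ENNReal.ofReal (η / 2 / (L + 1)) ≠ 0 := (ENNReal.ofReal_pos.2 (by positivity)).ne'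
  choose K hKY hKc hKm using fun j : Fin L =>
    (hY j).1.exists_isClosed_sdiff_lt (μ := ν) (measure_ne_top _ _) hδ
  refine ⟨L, fun h => ?_⟩
  obtain ⟨F, ε, hF⟩ := pred_compact p h K hKc fun j x hx x' hx' =>
    (hY j).2 x (hKY j hx) x' (hKY j hx')
  refine ⟨K, F, ε, fun j => (hKc j).measurableSet, ?_, hF⟩
  have h2 : (⋃ j, K j)ᶜ ⊆ (⋃ j : Fin L, Y j)ᶜ ∪ ⋃ j : Fin L, Y j \ K j := by
    intro x hx
    by_cases hx' : x ∈ ⋃ j : Fin L, Y j
    · obtain ⟨j, hj⟩ := mem_iUnion.1 hx'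
      exact Or.inr (mem_iUnion.2 ⟨j, hj, fun hk => hx (mem_iUnion.2 ⟨j, hk⟩)⟩)
    · exact Or.inl hx'
  have h3 : ν (⋃ j : Fin L, Y j \ K j) ≤ ENNReal.ofReal (η / 2) := by
    refine (measure_iUnion_fintype_le _ _).trans
      ((Finset.sum_le_card_nsmul _ _ _ fun j _ => (hKm j).le).trans ?_)
    rw [Finset.card_univ, Fintype.card_fin, nsmul_eq_mul, ← ENNReal.ofReal_natCast,
      ← ENNReal.ofReal_mul (Nat.cast_nonneg _)]
    refine ENNReal.ofReal_le_ofReal ?_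
    rw [mul_div_assoc', div_le_iff₀ (by positivity)]
    nlinarith
  refine (measure_mono h2).trans ((measure_union_le _ _).trans ((add_le_add hL.le h3).trans ?_))
  rw [← ENNReal.ofReal_add (half_pos hη).le (half_pos hη).le, add_halves]

end Pool.Agent.MP_66cee2_co.X
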