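import Pool.Agent.MP_66cee2_co.X.KitR

/-
Row Q: measurability and the limit of the levels.
-/

namespace Pool.Agent.MP_66cee2_co.X

open MeasureTheory Set Filter Complex

theorem q_step {x : kk → T} {y : ℂ} {d : kk} {k : ℕ} (h : Triv x y (d / 5 ^ (k + 1))) :
    Triv x y (d / 5 ^ k) := by
  have e : d / 5 ^ k = d / 5 ^ (k + 1) * ((5 : ℕ) : kk) := by
    have h5 : (5 : kk) ≠ 0 := by norm_num
    push_cast
    field_simp
    ring
  rw [e]
  exact h.mul_nat 5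

theorem q_le {x : kk → T} {y : ℂ} {d : kk} {k n : ℕ} (hkn : k ≤ n) (h : Triv x y (d / 5 ^ n)) :
    Triv x y (d / 5 ^ k) := by
  induction n, hkn using Nat.le_induction with
  | base => exact h
  | succ n _ ih => exact ih (q_step h)

theorem q_X0 : MeasurableSet X0 := by
  have e : X0 = ⋃ d : ℕ, {_x | 0 < d} ∩ {x : kk → T | ∃ y : ℂ,
      ∀ z ∈ {z | ∃ (m : ℕ) (r : GaussianInt), z = (d : kk) / 5 ^ m * gi r}, x z = ee y z} := by
    ext x
    simp only [X0, mem_ofPred_eq, mem_iUnion, mem_inter_iff]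
    constructor
    · rintro ⟨y, d, hd, h⟩
      refine ⟨d, hd, y, ?_⟩
      rintro _ ⟨m, r, rfl⟩
      exact h m r
    · rintro ⟨d, hd, y, h⟩
      exact ⟨y, d, hd, fun m r => h _ ⟨m, r, rfl⟩⟩
  rw [e]
  exact MeasurableSet.iUnion fun d => (MeasurableSet.const _).inter (measurableSet_triv _)

theorem q_Qs (M k : ℕ) : MeasurableSet (Qs M k) := by
  have e : Qs M k = {x | IsChar x} ∩ ⋃ d : ℕ, {_x | 0 < d ∧ d ≤ M ∧ d.Coprime 5} ∩
      {x : kk → T | ∃ y : ℂ, ‖y‖ ≤ M ∧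
        ∀ z ∈ {z | ∃ r : GaussianInt, z = (d : kk) / 5 ^ k * gi r}, x z = ee y z} := by
    ext x
    simp only [Qs, mem_ofPred_eq, mem_iUnion, mem_inter_iff]
    refine and_congr_right fun _ => ⟨?_, ?_⟩
    · rintro ⟨d, y, h1, h2, h3, h4, h⟩
      refine ⟨d, ⟨h1, h2, h3⟩, y, h4, ?_⟩
      rintro _ ⟨r, rfl⟩
      exact h r
    · rintro ⟨d, ⟨h1, h2, h3⟩, y, h4, h⟩
      exact ⟨d, y, h1, h2, h3, h4, fun r => h _ ⟨r, rfl⟩⟩
  rw [e]
  exact measurableSet_isChar.inter (MeasurableSet.iUnion fun d =>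
    (MeasurableSet.const _).inter (isClosed_triv _ _).measurableSet)

theorem q_lim (M : ℕ) : ⋂ k, Qs M k ⊆ X0 := by
  intro x hx
  rw [mem_iInter] at hx
  have h1 : ∃ d : ℕ, 0 < d ∧ ∀ k : ℕ, ∃ y : ℂ, ‖y‖ ≤ M ∧ Triv x y ((d : kk) / 5 ^ k) := by
    by_contra h
    push Not at h
    choose! κ hκ using h
    obtain ⟨-, d, y, hd, hdM, -, hy, ht⟩ := hx ((Finset.range (M + 1)).sup κ)
    exact hκ d hd y hy (q_le (Finset.le_sup (f := κ) (Finset.mem_range.2 (by omega))) ht)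
  obtain ⟨d, hd, h⟩ := h1
  have hcl : ∀ k : ℕ, IsClosed {y : ℂ | ‖y‖ ≤ M ∧ Triv x y ((d : kk) / 5 ^ k)} := by
    intro k
    refine (isClosed_le continuous_norm continuous_const).inter ?_
    have : {y : ℂ | Triv x y ((d : kk) / 5 ^ k)} = ⋂ r : GaussianInt,
        {y | x ((d : kk) / 5 ^ k * gi r) = ee y ((d : kk) / 5 ^ k * gi r)} := by
      ext y
      simp only [mem_ofPred_eq, mem_iInter]
      rfl
    show IsClosed {y : ℂ | Triv x y ((d : kk) / 5 ^ k)}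
    rw [this]
    exact isClosed_iInter fun r => isClosed_eq continuous_const (continuous_ee _)
  obtain ⟨y, hy⟩ := IsCompact.nonempty_iInter_of_sequence_nonempty_isCompact_isClosed
    (fun k : ℕ => {y : ℂ | ‖y‖ ≤ M ∧ Triv x y ((d : kk) / 5 ^ k)})
    (fun k y hy => ⟨hy.1, q_step hy.2⟩) h
    ((isCompact_closedBall (0 : ℂ) M).of_isClosed_subset (hcl 0) fun y hy => by
      simpa using hy.1) hcl
  rw [mem_iInter] at hy
  exact ⟨y, d, hd, fun m => (hy m).2⟩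

theorem sQ : SQ :=
  ⟨q_X0, measurableSet_Xc, q_Qs, fun _ _ _ ⟨h, d, y, h1, h2, h3, h4, h5⟩ =>
    ⟨h, d, y, h1, h2, h3, h4, q_step h5⟩, q_lim⟩

end Pool.Agent.MP_66cee2_co.X
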