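import Pool.Agent.MP_66cee2_co.X.KitR

/-
Part R, row RPD: rotation invariant positive definite functions.
-/

namespace Pool.Agent.MP_66cee2_co.X

open MeasureTheory Set Filter Complex
open scoped ENNReal NNReal ComplexConjugate ComplexOrder

variable {m : ℕ}

/-- the action of a vector of multipliers. -/
noncomputable def rpdAct (l : Fin m → KK) (x : (Fin m → KK) → T) : (Fin m → KK) → T :=
  fun z => x (l * z)

/-- the `j`-th coordinate of a character. -/
noncomputable def rpdCo (j : Fin m) (x : (Fin m → KK) → T) : KK → T :=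
  fun z => x (Pi.single j z)

/-- the value of a character that is not continuous. -/
noncomputable def rpdF (z : kk) : (kk → T) → ℂ := Xcᶜ.indicator fun y => ch (y z)

/-- invariance under the rotations of the `j`-th coordinate. -/
def RpdInv (j : Fin m) (μ : Measure ((Fin m → KK) → T)) : Prop :=
  ∀ l : KK, ‖(l : ℂ)‖ = 1 → MeasurePreserving (rpdAct (Pi.mulSingle j l)) μ μ

theorem rpd_meas_act (l : Fin m → KK) : Measurable (rpdAct l) :=
  measurable_pi_lambda _ fun _ => measurable_pi_apply _

theorem rpd_meas_co (j : Fin m) : Measurable (rpdCo j) :=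
  measurable_pi_lambda _ fun _ => measurable_pi_apply _

theorem rpd_meas_ch {A : Type} (z : A) : Measurable fun y : A → T => ch (y z) :=
  continuous_ch.measurable.comp (measurable_pi_apply z)

theorem rpd_meas_F (z : kk) : Measurable (rpdF z) :=
  (rpd_meas_ch z).indicator measurableSet_Xc.compl

theorem rpd_norm_F (z : kk) (y : kk → T) : ‖rpdF z y‖ ≤ 1 :=
  (norm_indicator_le_norm_self _ _).trans (norm_ch _).le

theorem rpd_co_act (l : Fin m → KK) (j : Fin m) (x : (Fin m → KK) → T) :
    rpdCo j (rpdAct l x) = act (l j) (rpdCo j x) := by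
  funext z
  simp only [rpdCo, rpdAct, act]
  congr 1
  funext i
  by_cases h : i = j
  · subst h; simp
  · simp [h]

theorem rpd_char_co (j : Fin m) {x : (Fin m → KK) → T} (h : IsChar x) : IsChar (rpdCo j x) :=
  fun a b => by simp only [rpdCo, Pi.single_add, h _ _]

theorem rpd_Xc_act {l : kk} (hl : l ≠ 0) (x : kk → T) : act l x ∈ Xc ↔ x ∈ Xc := by
  have h : ∀ (l : kk) (x : kk → T), x ∈ Xc → act l x ∈ Xc := by
    rintro l x ⟨y, hy⟩
    exact ⟨y * l, fun z => (hy (l * z)).trans (ee_mul y l z)⟩
  refine ⟨fun h1 => ?_, h l x⟩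
  have := h l⁻¹ _ h1
  rwa [act_act, mul_inv_cancel₀ hl, act_one] at this

theorem rpd_key0 (h1 : SH) (h2 : SLight) (h5 : SQ) (μ : Measure (KK → T)) [IsFiniteMeasure μ]
    (hc : ∀ᵐ x ∂μ, IsChar x) (hi : Inv μ) (z : kk) (hz : z ≠ 0) :
    ∫ x, rpdF z (res x) ∂μ = 0 := by
  have hp : MeasurePreserving res μ (μ.map res) := ⟨measurable_res, rfl⟩
  have hc' : ∀ᵐ x ∂μ.map res, IsChar x :=
    (ae_map_iff measurable_res.aemeasurable measurableSet_isChar).2 (hc.mono fun _ h => h.res)
  have hi' : Inv ((μ.map res).restrict Xcᶜ) := by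
    intro l hl
    have hl0 : l ≠ 0 := by rintro rfl; simp at hl
    have e1 : MeasurePreserving (act l) (μ.map res) (μ.map res) := by
      refine ⟨measurable_act l, ?_⟩
      rw [Measure.map_map (measurable_act l) measurable_res]
      have e2 : act l ∘ res = res ∘ act (Subfield.inclusion kk_le_KK l) := by
        funext x z
        simp only [Function.comp_apply, act, res, map_mul]
      rw [e2, ← Measure.map_map measurable_res (measurable_act _),
        (hi (Subfield.inclusion kk_le_KK l) hl).map_eq]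
    have e3 := e1.restrict_preimage measurableSet_Xc.compl
    have e4 : act l ⁻¹' Xcᶜ = Xcᶜ := by
      ext x
      simp only [mem_preimage, mem_compl_iff, rpd_Xc_act hl0]
    rwa [e4] at e3
  have h0 : (μ.map res).restrict Xcᶜ X0 = 0 := by
    rw [Measure.restrict_apply h5.1,
      Measure.map_apply measurable_res (h5.1.inter measurableSet_Xc.compl)]
    exact h2 μ hc hi
  have := h1 _ (ae_restrict_of_ae hc') hi' h0 z hz
  rw [← integral_indicator measurableSet_Xc.compl] at this
  rw [← this]
  exact (integral_map measurable_res.aemeasurable (rpd_meas_F z).aestronglyMeasurable).symm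

theorem rpd_key1 (h1 : SH) (h2 : SLight) (h5 : SQ) (μ : Measure ((Fin m → KK) → T))
    [IsFiniteMeasure μ] (hc : ∀ᵐ x ∂μ, IsChar x) (j : Fin m) (hi : RpdInv j μ) (z : kk)
    (hz : z ≠ 0) : ∫ x, rpdF z (res (rpdCo j x)) ∂μ = 0 := by
  have hc' : ∀ᵐ x ∂μ.map (rpdCo j), IsChar x :=
    (ae_map_iff (rpd_meas_co j).aemeasurable measurableSet_isChar).2
      (hc.mono fun _ h => rpd_char_co j h)
  have hi' : Inv (μ.map (rpdCo j)) := by
    intro l hl
    refine ⟨measurable_act l, ?_⟩
    rw [Measure.map_map (measurable_act l) (rpd_meas_co j)]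
    have e2 : act l ∘ rpdCo j = rpdCo j ∘ rpdAct (Pi.mulSingle j l) := by
      funext x
      simp only [Function.comp_apply, rpd_co_act, Pi.mulSingle_eq_same]
    rw [e2, ← Measure.map_map (rpd_meas_co j) (rpd_meas_act _), (hi l hl).map_eq]
  rw [← rpd_key0 h1 h2 h5 _ hc' hi' z hz]
  exact (integral_map (rpd_meas_co j).aemeasurable
    ((rpd_meas_F z).comp measurable_res).aestronglyMeasurable).symm

theorem rpd_key2 (h1 : SH) (h2 : SLight) (h5 : SQ) (μ : Measure ((Fin m → KK) → T))
    [IsFiniteMeasure μ] (hc : ∀ᵐ x ∂μ, IsChar x) (j : Fin m) (hi : RpdInv j μ) (z : kk)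
    (hz : z ≠ 0) (g : ((Fin m → KK) → T) → ℝ) (hg : Measurable g) (hb : ∀ x, |g x| ≤ 1)
    (hinv : ∀ (l : KK) x, g (rpdAct (Pi.mulSingle j l) x) = g x) :
    ∫ x, (g x : ℂ) * rpdF z (res (rpdCo j x)) ∂μ = 0 := by
  set f : ((Fin m → KK) → T) → ℝ≥0 := fun x => (g x + 1).toNNReal with hf
  have hfm : Measurable f := (hg.add_const 1).real_toNNReal
  have hfe : Measurable fun x => (f x : ℝ≥0∞) := hfm.coe_nnreal_ennreal
  have hfin : IsFiniteMeasure (μ.withDensity fun x => (f x : ℝ≥0∞)) := by
    refine isFiniteMeasure_withDensity (ne_top_of_le_ne_top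
      (b := ∫⁻ _, (2 : ℝ≥0∞) ∂μ) (by simp [ENNReal.mul_eq_top]) (lintegral_mono fun x => ?_))
    have : f x ≤ 2 := by
      rw [hf, Real.toNNReal_le_iff_le_coe]
      have := (abs_le.1 (hb x)).2
      push_cast
      linarith
    exact ENNReal.coe_le_coe.2 this
  have hi' : RpdInv j (μ.withDensity fun x => (f x : ℝ≥0∞)) := by
    intro l hl
    refine ⟨rpd_meas_act _, ?_⟩
    ext s hs
    rw [Measure.map_apply (rpd_meas_act _) hs, withDensity_apply _ hs,
      withDensity_apply _ (rpd_meas_act _ hs), ← (hi l hl).setLIntegral_comp_preimage hs hfe]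
    simp only [hf, hinv]
  have e1 := rpd_key1 h1 h2 h5 _ ((withDensity_absolutelyContinuous μ _).ae_le hc) j hi' z hz
  rw [integral_withDensity_eq_integral_smul hfm] at e1
  have e0 := rpd_key1 h1 h2 h5 μ hc j hi z hz
  have hF : Measurable fun x => rpdF z (res (rpdCo j x)) :=
    (rpd_meas_F z).comp (measurable_res.comp (rpd_meas_co j))
  have i0 : Integrable (fun x => rpdF z (res (rpdCo j x))) μ :=
    Integrable.of_bound hF.aestronglyMeasurable 1 (.of_forall fun _ => rpd_norm_F _ _)
  have i1 : Integrable (fun x => (g x : ℂ) * rpdF z (res (rpdCo j x))) μ :=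
    i0.bdd_mul (c := 1) (Complex.measurable_ofReal.comp hg).aestronglyMeasurable
      (.of_forall fun x => by simpa using hb x)
  have e2 : ∀ x, f x • rpdF z (res (rpdCo j x)) =
      (g x : ℂ) * rpdF z (res (rpdCo j x)) + rpdF z (res (rpdCo j x)) := fun x => by
    have : 0 ≤ g x + 1 := by linarith [(abs_le.1 (hb x)).1]
    rw [NNReal.smul_def, hf, Real.coe_toNNReal _ this, Complex.real_smul]
    push_cast
    ring
  simp only [e2] at e1
  rwa [integral_add i1 i0, e0, add_zero] at e1

theorem rpd_key3 (h1 : SH) (h2 : SLight) (h5 : SQ) (μ : Measure ((Fin m → KK) → T))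
    [IsFiniteMeasure μ] (hc : ∀ᵐ x ∂μ, IsChar x) (j : Fin m) (hi : RpdInv j μ) (z : kk)
    (hz : z ≠ 0) (g : ((Fin m → KK) → T) → ℂ) (hg : Measurable g) (hb : ∀ x, ‖g x‖ ≤ 1)
    (hinv : ∀ (l : KK) x, g (rpdAct (Pi.mulSingle j l) x) = g x) :
    ∫ x, g x * rpdF z (res (rpdCo j x)) ∂μ = 0 := by
  have b1 : ∀ x, |(g x).re| ≤ 1 := fun x => (Complex.abs_re_le_norm _).trans (hb x)
  have b2 : ∀ x, |(g x).im| ≤ 1 := fun x => (Complex.abs_im_le_norm _).trans (hb x)
  have m1 := Complex.measurable_re.comp hg
  have m2 := Complex.measurable_im.comp hg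
  have e1 := rpd_key2 h1 h2 h5 μ hc j hi z hz _ m1 b1 fun l x => by simp [hinv]
  have e2 := rpd_key2 h1 h2 h5 μ hc j hi z hz _ m2 b2 fun l x => by simp [hinv]
  have hF : Measurable fun x => rpdF z (res (rpdCo j x)) :=
    (rpd_meas_F z).comp (measurable_res.comp (rpd_meas_co j))
  have i0 : Integrable (fun x => rpdF z (res (rpdCo j x))) μ :=
    Integrable.of_bound hF.aestronglyMeasurable 1 (.of_forall fun _ => rpd_norm_F _ _)
  have i1 : Integrable (fun x => (((g x).re : ℝ) : ℂ) * rpdF z (res (rpdCo j x))) μ :=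
    i0.bdd_mul (c := 1) (Complex.measurable_ofReal.comp m1).aestronglyMeasurable
      (.of_forall fun x => by simpa using b1 x)
  have i2 : Integrable (fun x => (((g x).im : ℝ) : ℂ) * rpdF z (res (rpdCo j x))) μ :=
    i0.bdd_mul (c := 1) (Complex.measurable_ofReal.comp m2).aestronglyMeasurable
      (.of_forall fun x => by simpa using b2 x)
  have e3 : ∀ x, g x * rpdF z (res (rpdCo j x)) =
      (((g x).re : ℝ) : ℂ) * rpdF z (res (rpdCo j x)) +
        I * ((((g x).im : ℝ) : ℂ) * rpdF z (res (rpdCo j x))) := fun x => by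
    conv_lhs => rw [← Complex.re_add_im (g x)]
    ring
  simp only [e3]
  rw [integral_add i1 (i2.const_mul I), integral_const_mul]
  simp only [Function.comp_apply] at e1 e2
  rw [e1, e2, mul_zero, add_zero]

theorem rpd_prod_norm {s : Finset (Fin m)} {c : Fin m → ℂ} (h : ∀ i, ‖c i‖ ≤ 1) :
    ‖∏ i ∈ s, c i‖ ≤ 1 := by
  rw [norm_prod]
  exact Finset.prod_le_one (fun _ _ => norm_nonneg _) fun i _ => h i

theorem rpd_tele (h1 : SH) (h2 : SLight) (h5 : SQ) (μ : Measure ((Fin m → KK) → T))
    [IsFiniteMeasure μ] (hc : ∀ᵐ x ∂μ, IsChar x) (hi : ∀ j, RpdInv j μ) (z : Fin m → kk)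
    (hz : ∀ j, z j ≠ 0) (S : Finset (Fin m)) :
    ∫ x, ∏ j, ch (res (rpdCo j x) (z j)) ∂μ =
      ∫ x, ∏ j, (if j ∈ S then Xc else univ).indicator (fun y => ch (y (z j)))
        (res (rpdCo j x)) ∂μ := by
  induction S using Finset.induction_on with
  | empty => simp
  | insert j S hj ih =>
    set w : Finset (Fin m) → Fin m → ((Fin m → KK) → T) → ℂ := fun S i x =>
      (if i ∈ S then Xc else univ).indicator (fun y => ch (y (z i))) (res (rpdCo i x)) with hw
    have wm : ∀ S i, Measurable (w S i) := fun S i => by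
      refine Measurable.comp ((rpd_meas_ch (z i)).indicator ?_)
        (measurable_res.comp (rpd_meas_co i))
      split_ifs
      · exact measurableSet_Xc
      · exact MeasurableSet.univ
    have wb : ∀ S i x, ‖w S i x‖ ≤ 1 := fun S i x =>
      (norm_indicator_le_norm_self _ _).trans (norm_ch _).le
    have pm : ∀ S s, Measurable fun x => ∏ i ∈ s, w S i x := fun S s =>
      Finset.measurable_prod _ fun i _ => wm S i
    have e0 := rpd_key3 h1 h2 h5 μ hc j (hi j) (z j) (hz j)
      (fun x => ∏ i ∈ Finset.univ.erase j, w S i x) (pm _ _) (fun x => rpd_prod_norm (wb S · x))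
      fun l x => Finset.prod_congr rfl fun i hi => by
        simp only [hw, rpd_co_act, Pi.mulSingle_eq_of_ne (Finset.ne_of_mem_erase hi), act_one]
    have ii : ∀ S, Integrable (fun x => ∏ i, w S i x) μ := fun S =>
      Integrable.of_bound (pm _ _).aestronglyMeasurable 1
        (.of_forall fun x => rpd_prod_norm (wb S · x))
    have e1 : ∀ x, (∏ i ∈ Finset.univ.erase j, w S i x) * rpdF (z j) (res (rpdCo j x)) =
        ∏ i, w S i x - ∏ i, w (insert j S) i x := fun x => by
      rw [← Finset.prod_erase_mul _ _ (Finset.mem_univ j),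
        ← Finset.prod_erase_mul _ _ (Finset.mem_univ j)]
      have : ∏ i ∈ Finset.univ.erase j, w (insert j S) i x =
          ∏ i ∈ Finset.univ.erase j, w S i x := Finset.prod_congr rfl fun i hi => by
        simp only [hw, Finset.mem_insert, Finset.ne_of_mem_erase hi, false_or]
      rw [this, ← mul_sub]
      congr 1
      simp only [hw, hj, Finset.mem_insert, true_or, if_true, if_false, indicator_univ, rpdF]
      rw [indicator_compl, Pi.sub_apply]
    simp only [e1] at e0
    rw [integral_sub (ii _) (ii _), sub_eq_zero] at e0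
    exact ih.trans e0

theorem rpd_ch_sum {ι : Type} (s : Finset ι) (t : ι → T) :
    ch (∑ i ∈ s, t i) = ∏ i ∈ s, ch (t i) := by
  classical
  induction s using Finset.induction_on with
  | empty => simp [ch_zero]
  | insert i s hi ih => rw [Finset.sum_insert hi, Finset.prod_insert hi, ch_add, ih]

theorem sRPD (h1 : SH) (h2 : SLight) (h3 : SHerg) (h4 : SUniq) (h5 : SQ) : SRPD := by
  intro m φ hφ hrot
  obtain ⟨μ, hfin, hc, hμ⟩ := h3 _ φ hφ
  have hi : ∀ j, RpdInv j μ := by
    intro j l hl
    refine ⟨rpd_meas_act _, h4 _ _ _ ?_ hc fun a => ?_⟩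
    · exact (ae_map_iff (rpd_meas_act _).aemeasurable measurableSet_isChar).2
        (hc.mono fun x h a b => by simp only [rpdAct, mul_add, h _ _])
    · rw [integral_map (rpd_meas_act _).aemeasurable (rpd_meas_ch a).aestronglyMeasurable, ← hμ,
        ← hrot (Pi.mulSingle j l) a fun i => by
          by_cases h : i = j
          · subst h; simpa using hl
          · simp [h], hμ]
      rfl
  let v : ℂ → (kk → T) → ℂ := fun w => Xc.indicator fun y => ch (((Ysel y * w).re : ℝ) : T)
  have vc : ∀ y, Continuous fun w => v w y := fun y => by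
    by_cases h : y ∈ Xc
    · simp only [v, indicator_of_mem h]
      exact continuous_ch.comp ((AddCircle.continuous_mk' 1).comp (by fun_prop))
    · simp only [v, indicator_of_notMem h]
      exact continuous_const
  have vm : ∀ w, Measurable (v w) := fun w =>
    Measurable.indicator (continuous_ch.measurable.comp
      ((AddCircle.continuous_mk' 1).measurable.comp
        (Complex.measurable_re.comp (measurable_Ysel.mul_const w)))) measurableSet_Xc
  have vb : ∀ w y, ‖v w y‖ ≤ 1 := fun w y =>
    (norm_indicator_le_norm_self _ _).trans (norm_ch _).le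
  refine ⟨fun w => ∫ x, ∏ j, v (w j) (res (rpdCo j x)) ∂μ, ?_, fun z hz hz0 => ?_⟩
  · refine continuous_of_dominated (bound := fun _ => 1) (fun w => ?_) (fun w => ?_)
      (integrable_const _) (.of_forall fun x => ?_)
    · exact (Finset.measurable_prod _ fun j _ =>
        (vm _).comp (measurable_res.comp (rpd_meas_co j))).aestronglyMeasurable
    · exact .of_forall fun x => rpd_prod_norm fun j => vb _ _
    · exact continuous_finsetProd _ fun j _ => (vc _).comp (continuous_apply j)
  · have e := rpd_tele h1 h2 h5 μ hc hi (fun j => ⟨z j, hz j⟩)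
      (fun j h => hz0 j (Subtype.ext (congrArg (fun t : kk => (t : ℂ)) h))) Finset.univ
    rw [hμ]
    refine Eq.trans (integral_congr_ae (hc.mono fun x hx => ?_)) (e.trans ?_)
    · change ch (x z) = ∏ j, ch (x (Pi.single j (z j)))
      rw [← rpd_ch_sum, ← hx.map_sum, Finset.univ_sum_single]
    · refine integral_congr_ae (.of_forall fun x => Finset.prod_congr rfl fun j _ => ?_)
      rw [if_pos (Finset.mem_univ j)]
      by_cases h : res (rpdCo j x) ∈ Xc
      · simp only [v, indicator_of_mem h]
        rw [Ysel_spec h]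
        rfl
      · simp only [v, indicator_of_notMem h]

end Pool.Agent.MP_66cee2_co.X
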