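import Pool.Agent.MP_66cee2_co.X.SpecR2

/-
Row Uniq: uniqueness of the spectral measure.
-/

namespace Pool.Agent.MP_66cee2_co.X

open MeasureTheory Set Filter Complex BoundedContinuousFunction
open scoped ENNReal ComplexConjugate ComplexOrder

theorem uniq_ch_add (s t : T) : ch (s + t) = ch s * ch t := by
  simp only [ch, fourier_apply, one_zsmul, AddCircle.toCircle_add, Circle.coe_mul]

theorem uniq_ch_zero : ch 0 = 1 := by
  simp [ch]

theorem uniq_ch_neg (t : T) : ch (-t) = conj (ch t) := by
  simp only [ch, fourier_apply, one_zsmul, AddCircle.toCircle_neg, Circle.coe_inv_eq_conj]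

theorem uniq_ch_inj : Function.Injective ch := by
  intro s t h
  simp only [ch, fourier_apply, one_zsmul] at h
  exact AddCircle.injective_toCircle one_ne_zero (Circle.ext h)

theorem uniq_ch_cont : Continuous ch := (fourier 1 : C(T, ℂ)).continuous

theorem uniq_zero {A : Type} [AddCommGroup A] {x : A → T} (h : IsChar x) : x 0 = 0 := by
  have := h 0 0
  rw [add_zero] at this
  exact left_eq_add.1 this

theorem uniq_neg {A : Type} [AddCommGroup A] {x : A → T} (h : IsChar x) (a : A) :
    x (-a) = - x a := by
  have := h a (-a)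
  rw [add_neg_cancel, uniq_zero h] at this
  exact eq_neg_of_add_eq_zero_right this.symm

/-- functions that agree with an evaluation on characters. -/
def uniqM (A : Type) [AddCommGroup A] : Set ((A → T) →ᵇ ℂ) :=
  {g | ∃ a, ∀ x, IsChar x → g x = ch (x a)}

/-- their span. -/
noncomputable def uniqS (A : Type) [AddCommGroup A] : StarSubalgebra ℂ ((A → T) →ᵇ ℂ) where
  toSubalgebra := (Submodule.span ℂ (uniqM A)).toSubalgebra
    (Submodule.subset_span ⟨0, fun x hx => by rw [uniq_zero hx, uniq_ch_zero]; rfl⟩) (by
      intro f g hf hg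
      have h := Submodule.mul_mem_mul hf hg
      rw [Submodule.span_mul_span] at h
      refine Submodule.span_mono ?_ h
      rintro _ ⟨u, ⟨a, ha⟩, v, ⟨b, hb⟩, rfl⟩
      refine ⟨a + b, fun x hx => ?_⟩
      rw [hx a b, uniq_ch_add, ← ha x hx, ← hb x hx]
      rfl)
  star_mem' := by
    intro g hg
    change g ∈ Submodule.span ℂ (uniqM A) at hg
    change star g ∈ Submodule.span ℂ (uniqM A)
    induction hg using Submodule.span_induction with
    | mem u hu =>
      obtain ⟨a, ha⟩ := hu
      refine Submodule.subset_span ⟨-a, fun x hx => ?_⟩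
      rw [uniq_neg hx, uniq_ch_neg, ← ha x hx]
      rfl
    | zero => rw [star_zero]; exact zero_mem _
    | add u v _ _ hu hv => rw [star_add]; exact add_mem hu hv
    | smul c u _ hu => rw [star_smul]; exact Submodule.smul_mem _ _ hu

theorem sUniq : SUniq := by
  intro A _ _ μ ν _ _ hμ hν h
  refine ext_of_forall_mem_subalgebra_integral_eq_of_polish (𝕜 := ℂ) (A := uniqS A) ?_ ?_
  · intro x y hxy
    obtain ⟨a, ha⟩ := Function.ne_iff.1 hxy
    let g : (A → T) →ᵇ ℂ := mkOfCompact ⟨fun x => ch (x a), uniq_ch_cont.comp (continuous_apply a)⟩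
    have hg : g ∈ uniqS A := Submodule.subset_span ⟨a, fun _ _ => rfl⟩
    exact ⟨_, ⟨_, ⟨g, hg, rfl⟩, rfl⟩, fun e => ha (uniq_ch_inj e)⟩
  · intro g hg
    change g ∈ Submodule.span ℂ (uniqM A) at hg
    induction hg using Submodule.span_induction with
    | mem u hu =>
      obtain ⟨a, ha⟩ := hu
      rw [integral_congr_ae (hμ.mono fun x hx => ha x hx),
        integral_congr_ae (hν.mono fun x hx => ha x hx), h a]
    | zero => simp
    | add u v _ _ hu hv =>
      simp only [BoundedContinuousFunction.add_apply]
      rw [integral_add (u.integrable μ) (v.integrable μ),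
        integral_add (u.integrable ν) (v.integrable ν), hu, hv]
    | smul c u _ hu =>
      simp only [BoundedContinuousFunction.smul_apply]
      rw [integral_smul, integral_smul, hu]

end Pool.Agent.MP_66cee2_co.X
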