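import Pool.Agent.MP_66cee2_co.XR.Ar1
import Pool.Agent.MP_66cee2_co.XR.Ar2
import Pool.Agent.MP_66cee2_co.XR.Chain
import Pool.Agent.MP_66cee2_co.XR.Cnt
import Pool.Agent.MP_66cee2_co.XR.Det
import Pool.Agent.MP_66cee2_co.XR.Exh
import Pool.Agent.MP_66cee2_co.XR.H
import Pool.Agent.MP_66cee2_co.XR.Herg
import Pool.Agent.MP_66cee2_co.XR.Host
import Pool.Agent.MP_66cee2_co.XR.HostA
import Pool.Agent.MP_66cee2_co.XR.HostB
import Pool.Agent.MP_66cee2_co.XR.LevA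
import Pool.Agent.MP_66cee2_co.XR.LevB
import Pool.Agent.MP_66cee2_co.XR.Light
import Pool.Agent.MP_66cee2_co.XR.Max
import Pool.Agent.MP_66cee2_co.XR.Pig
import Pool.Agent.MP_66cee2_co.XR.Pos
import Pool.Agent.MP_66cee2_co.XR.Pred
import Pool.Agent.MP_66cee2_co.XR.Q
import Pool.Agent.MP_66cee2_co.XR.RPD
import Pool.Agent.MP_66cee2_co.XR.Uniq

/-
Part R: assembly.
-/

namespace Pool.Agent.MP_66cee2_co.X

theorem sHAll : SH :=
  sH sExh (sHost sHostA sHostB)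
    (sPos (sPig sMax sPred (sChain sCnt)) (sDet sAr1 sAr2) sAr1 sQ)

theorem sLightAll : SLight := sLight sLevA sLevB

theorem sRPDAll : SRPD := sRPD sHAll sLightAll sHerg sUniq sQ

end Pool.Agent.MP_66cee2_co.X
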