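import Pool.Agent.MP_66cee2_co.X.KitR

/-
Part R, row Ar1: arithmetic of the sending side.
-/

namespace Pool.Agent.MP_66cee2_co.X

open MeasureTheory Set Filter Complex

theorem ar1_den_ne (j : ℕ) : ((5 * (j : ℂ) - I)) ≠ 0 := by
  intro h
  have := congrArg Complex.im h
  simp at this

theorem ar1_coe_lam (j : ℕ) : ((lam j : kk) : ℂ) = (5 * (j : ℂ) + I) / (5 * (j : ℂ) - I) := by
  unfold lam
  have : ((gi ⟨5 * j, 1⟩ / gi ⟨5 * j, -1⟩ : kk) : ℂ) =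
      ((gi ⟨5 * j, 1⟩ : kk) : ℂ) / ((gi ⟨5 * j, -1⟩ : kk) : ℂ) := by push_cast; rfl
  rw [this, coe_gi_mk, coe_gi_mk]
  push_cast
  ring

theorem ar1_norm_den (j : ℕ) : ‖5 * (j : ℂ) - I‖ ^ 2 = 25 * (j : ℝ) ^ 2 + 1 := by
  rw [← Complex.normSq_eq_norm_sq, Complex.normSq_apply]
  simp
  ring

theorem ar1_norm_num (j : ℕ) : ‖5 * (j : ℂ) + I‖ ^ 2 = 25 * (j : ℝ) ^ 2 + 1 := by
  rw [← Complex.normSq_eq_norm_sq, Complex.normSq_apply]
  simp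
  ring

theorem ar1_norm_lam (j : ℕ) : ‖(lam j : ℂ)‖ = 1 := by
  rw [ar1_coe_lam, norm_div]
  have h0 : ‖5 * (j : ℂ) - I‖ ≠ 0 := norm_ne_zero_iff.2 (ar1_den_ne j)
  have : ‖5 * (j : ℂ) + I‖ = ‖5 * (j : ℂ) - I‖ := by
    apply (pow_left_inj₀ (norm_nonneg _) (norm_nonneg _) two_ne_zero).1
    rw [ar1_norm_num, ar1_norm_den]
  rw [this, div_self h0]

theorem ar1_lam_sub (j j' : ℕ) : ((lam j - lam j' : kk) : ℂ) =
    10 * I * ((j' : ℂ) - j) / ((5 * (j : ℂ) - I) * (5 * (j' : ℂ) - I)) := by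
  have : ((lam j - lam j' : kk) : ℂ) = (lam j : ℂ) - (lam j' : ℂ) := by push_cast; rfl
  rw [this, ar1_coe_lam, ar1_coe_lam]
  have h1 := ar1_den_ne j
  have h2 := ar1_den_ne j'
  field_simp
  ring

/-- the second part, for `j < j'` or `j' < j` through a sign. -/
theorem ar1_two (x : kk → T) (H j j' n : ℕ) (w : ℂ) (hx : IsChar x) (hj : j ∈ Finset.Icc 1 H)
    (hj' : j' ∈ Finset.Icc 1 H) (hne : j ≠ j') (hw : ‖w‖ ≤ 1)
    (h : Triv (act (lam j) x - act (lam j') x) w (1 / 5 ^ n)) :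
    ∃ (d : ℕ) (y : ℂ), 0 < d ∧ d ≤ 10 * H ∧ ‖y‖ ≤ 4 * (H : ℝ) ^ 2 ∧
      Triv x y ((d : kk) / 5 ^ n) := by
  rw [Finset.mem_Icc] at hj hj'
  set l : kk := lam j - lam j' with hl
  have e1 : act (lam j) x - act (lam j') x = act l x := by
    funext z
    simp only [Pi.sub_apply, act, hl, sub_mul, hx.map_sub]
  have h1 := ar1_den_ne j
  have h2 := ar1_den_ne j'
  have hjj : ((j' : ℂ) - j) ≠ 0 := by
    rw [sub_ne_zero]
    exact_mod_cast hne.symm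
  have hlc : (l : ℂ) = 10 * I * ((j' : ℂ) - j) / ((5 * (j : ℂ) - I) * (5 * (j' : ℂ) - I)) :=
    ar1_lam_sub j j'
  have hl0 : (l : ℂ) ≠ 0 := by
    rw [hlc]
    exact div_ne_zero (mul_ne_zero (mul_ne_zero (by norm_num) I_ne_zero) hjj) (mul_ne_zero h1 h2)
  have ht : Triv x (w / l) (l * (1 / 5 ^ n)) := by
    rw [← Triv.act_iff, div_mul_cancel₀ _ hl0, ← e1]
    exact h
  -- the sign
  obtain ⟨s, D, hD0, hDH, hsD⟩ : ∃ (s : ℤ) (D : ℕ), 0 < D ∧ D ≤ H ∧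
      (s : ℂ) * ((j' : ℂ) - j) = D := by
    rcases lt_or_gt_of_ne hne with hlt | hlt
    · refine ⟨1, j' - j, by omega, by omega, ?_⟩
      rw [Nat.cast_sub hlt.le]; simp
    · refine ⟨-1, j - j', by omega, by omega, ?_⟩
      rw [Nat.cast_sub hlt.le]; simp
  refine ⟨10 * D, w / l, by omega, by omega, ?_, ?_⟩
  · have hn1 : (1 : ℝ) ≤ ‖(j' : ℂ) - j‖ := by
      have : ((j' : ℂ) - j) = (((j' : ℤ) - j : ℤ) : ℂ) := by push_cast; rfl
      rw [this, Complex.norm_intCast]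
      have hz : ((j' : ℤ) - j) ≠ 0 := by omega
      exact_mod_cast Int.one_le_abs hz
    have hH : (1 : ℝ) ≤ H := by exact_mod_cast hj.1.trans hj.2
    have hjH : (j : ℝ) ≤ H := by exact_mod_cast hj.2
    have hjH' : (j' : ℝ) ≤ H := by exact_mod_cast hj'.2
    have hj0 : (0 : ℝ) ≤ j := Nat.cast_nonneg j
    have hj0' : (0 : ℝ) ≤ j' := Nat.cast_nonneg j'
    have a1 : ‖5 * (j : ℂ) - I‖ ≤ 6 * H := by
      apply le_of_sq_le_sq _ (by positivity) |>.trans le_rfl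
      rw [ar1_norm_den]
      nlinarith
    have a2 : ‖5 * (j' : ℂ) - I‖ ≤ 6 * H := by
      apply le_of_sq_le_sq _ (by positivity) |>.trans le_rfl
      rw [ar1_norm_den]
      nlinarith
    rw [hlc, div_div_eq_mul_div, norm_div, norm_mul, norm_mul, norm_mul, norm_mul,
      Complex.norm_I, mul_one]
    have h10 : ‖(10 : ℂ)‖ = 10 := by simp
    rw [h10, div_le_iff₀ (by positivity)]
    have b1 : ‖5 * (j : ℂ) - I‖ * ‖5 * (j' : ℂ) - I‖ ≤ 6 * H * (6 * H) := by gcongr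
    have b2 : ‖w‖ * (‖5 * (j : ℂ) - I‖ * ‖5 * (j' : ℂ) - I‖) ≤ 1 * (6 * H * (6 * H)) := by
      gcongr
    have b3 : 4 * (H : ℝ) ^ 2 * (10 * 1) ≤ 4 * (H : ℝ) ^ 2 * (10 * ‖(j' : ℂ) - j‖) := by
      gcongr
    nlinarith
  · refine ht.of_eq (⟨0, -s⟩ * ⟨5 * j, -1⟩ * ⟨5 * j', -1⟩) ?_
    apply Subtype.ext
    rw [map_mul, map_mul]
    push_cast [coe_gi_mk]
    rw [hlc, ← hsD]
    have e5 : ((5 : kk) : ℂ) = 5 := rfl
    have e10 : ((10 : kk) : ℂ) = 10 := rfl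
    simp only [e5, e10]
    have h1' : (5 * (j : ℂ) + -1 * I) = 5 * (j : ℂ) - I := by ring
    have h2' : (5 * (j' : ℂ) + -1 * I) = 5 * (j' : ℂ) - I := by ring
    rw [h1', h2']
    generalize 5 * (j : ℂ) - I = A at h1 ⊢
    generalize 5 * (j' : ℂ) - I = B at h2 ⊢
    field_simp
    linear_combination (s : ℂ) * I_mul_I

/-- removing the powers of five. -/
theorem ar1_red (x : kk → T) (k n d : ℕ) (y : ℂ) (hd : 0 < d) (hkn : d * 5 ^ k ≤ 5 ^ n)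
    (h : Triv x y ((d : kk) / 5 ^ n)) :
    ∃ d₂ : ℕ, 0 < d₂ ∧ d₂ ≤ d ∧ d₂.Coprime 5 ∧ Triv x y ((d₂ : kk) / 5 ^ k) := by
  obtain ⟨e, d₂, hnd, rfl⟩ := Nat.exists_eq_pow_mul_and_not_dvd hd.ne' 5 (by norm_num)
  have hd₂ : 0 < d₂ := Nat.pos_of_ne_zero (by rintro rfl; simp at hnd)
  have hek : e + k ≤ n := by
    have : 5 ^ (e + k) ≤ 5 ^ n := by
      calc 5 ^ (e + k) = 5 ^ e * 1 * 5 ^ k := by ring
        _ ≤ 5 ^ e * d₂ * 5 ^ k := by gcongr; exact hd₂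
        _ ≤ 5 ^ n := hkn
    exact (Nat.pow_le_pow_iff_right (by norm_num)).1 this
  refine ⟨d₂, hd₂, Nat.le_mul_of_pos_left _ (by positivity), ?_, ?_⟩
  · exact ((Nat.Prime.coprime_iff_not_dvd Nat.prime_five).2 hnd).symm
  · obtain ⟨a, rfl⟩ := Nat.exists_eq_add_of_le hek
    have := h.mul_nat (5 ^ a)
    convert this using 1
    have h5 : (5 : kk) ≠ 0 := by norm_num
    push_cast
    field_simp
    ring

theorem ar1_four (x : kk → T) (M k n d : ℕ) (y : ℂ) (Y : ℝ) (hx : x ∈ Qs M k) (hd : 0 < d)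
    (hy : ‖y‖ ≤ Y) (hlt : (M + Y) * (M * d) < (5 : ℝ) ^ k) (hkn : d * 5 ^ (k + 1) ≤ 5 ^ n)
    (h : Triv x y ((d : kk) / 5 ^ n)) : x ∈ Qs M (k + 1) := by
  obtain ⟨hc, d₀, y₀, hd₀, hd₀M, hcop, hy₀, ht₀⟩ := hx
  obtain ⟨d₂, hd₂, hd₂d, hcop₂, ht₂⟩ := ar1_red x (k + 1) n d y hd hkn h
  have h5 : (5 : kk) ≠ 0 := by norm_num
  have hA : Triv x y₀ ((d₀ : kk) * d₂ / 5 ^ k) := by
    have := ht₀.mul_nat d₂
    convert this using 1
    ring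
  have hB : Triv x y ((d₀ : kk) * d₂ / 5 ^ k) := by
    have := ht₂.mul_nat (5 * d₀)
    convert this using 1
    push_cast
    field_simp
    ring
  have hc0 : ((d₀ : kk) * d₂ / 5 ^ k) ≠ 0 := by
    have a1 : (d₀ : kk) ≠ 0 := by exact_mod_cast hd₀.ne'
    have a2 : (d₂ : kk) ≠ 0 := by exact_mod_cast hd₂.ne'
    positivity
  have hyy : y₀ = y := by
    rcases hA.uniq hB hc0 with e | e
    · exact e
    · exfalso
      have e5 : ((5 : kk) : ℂ) = 5 := rfl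
      have hn : ‖(((d₀ : kk) * d₂ / 5 ^ k : kk) : ℂ)‖ = (d₀ : ℝ) * d₂ / 5 ^ k := by
        push_cast
        rw [e5]
        simp
      rw [hn, ← mul_div_assoc, le_div_iff₀ (by positivity), one_mul] at e
      have b1 : ‖y₀ - y‖ ≤ M + Y := (norm_sub_le _ _).trans (add_le_add hy₀ hy)
      have b2 : (d₀ : ℝ) ≤ M := by exact_mod_cast hd₀M
      have b3 : (d₂ : ℝ) ≤ d := by exact_mod_cast hd₂d
      have b0 : (0 : ℝ) ≤ M + Y := (norm_nonneg _).trans b1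
      have b4 : ‖y₀ - y‖ * ((d₀ : ℝ) * d₂) ≤ (M + Y) * (M * d) := by gcongr
      linarith
  subst hyy
  refine ⟨hc, d₀, y₀, hd₀, hd₀M, hcop, hy₀, ?_⟩
  obtain ⟨u, v, huv⟩ : IsCoprime (d₂ : ℤ) 5 := Nat.isCoprime_iff_coprime.2 hcop₂
  refine Triv.bezout hc ht₀ ht₂ (v : GaussianInt) ((d₀ : GaussianInt) * u) ?_
  have huv' : (u : kk) * d₂ + v * 5 = 1 := by exact_mod_cast congrArg (Int.cast : ℤ → kk) huv
  rw [map_mul, map_intCast, map_intCast, map_natCast]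
  calc (d₀ : kk) / 5 ^ (k + 1) = (d₀ : kk) / 5 ^ (k + 1) * ((u : kk) * d₂ + v * 5) := by
        rw [huv', mul_one]
    _ = _ := by
        field_simp
        ring

theorem sAr1 : SAr1 := by
  refine ⟨ar1_norm_lam, ar1_two, ?_, ar1_four⟩
  intro x M k n d y hx hd hdM hy hkn h
  obtain ⟨d₂, hd₂, hd₂d, hcop₂, ht₂⟩ := ar1_red x k n d y hd hkn h
  exact ⟨hx, d₂, y, hd₂, hd₂d.trans hdM, hcop₂, hy, ht₂⟩

end Pool.Agent.MP_66cee2_co.X
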