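import Pool.Agent.MP_66cee2_co.X.KitR

/-
Row LevA: the maximum principle for the levels along the powers of a rotation.
-/

namespace Pool.Agent.MP_66cee2_co.X

open Set

section

variable {q : ℕ} {e : ℤ} {u v : kk → T}

theorem LevA_add (hu : u ∈ Lev q e) (hv : v ∈ Lev q e) : u + v ∈ Lev q e := by
  obtain ⟨y, a, d, h1, h2, h3, h4⟩ := hu
  obtain ⟨y', a', d', k1, k2, k3, k4⟩ := hv
  exact ⟨y + y', a * a', d * d', Nat.mul_pos h1 k1, h2.mul_left k2,
    fun m => ((h3 m).of_eq a' (by simp; ring)).add_add ((k3 m).of_eq a (by simp; ring)),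
    (h4.of_eq d' (by simp; ring)).add_add (k4.of_eq d (by simp; ring))⟩

theorem LevA_act (hq : (q : kk) ≠ 0) (hu : u ∈ Lev q e) : act (q : kk) u ∈ Lev q (e - 1) := by
  obtain ⟨y, a, d, h1, h2, h3, h4⟩ := hu
  refine ⟨y * (q : kk), a, d, h1, h2, fun m => (Triv.act_iff _).2 ((h3 m).of_eq q (by simp; ring)),
    (Triv.act_iff _).2 ?_⟩
  rwa [zpow_sub_one₀ hq, mul_comm, mul_assoc, inv_mul_cancel_right₀ hq]

theorem LevA_mono (hq : (q : kk) ≠ 0) (hu : u ∈ Lev q e) {e' : ℤ} (h : e ≤ e') :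
    u ∈ Lev q e' := by
  obtain ⟨y, a, d, h1, h2, h3, h4⟩ := hu
  obtain ⟨n, rfl⟩ := Int.le.dest h
  exact ⟨y, a, d, h1, h2, h3, h4.of_eq (q ^ n) (by simp [zpow_add₀ hq, mul_assoc])⟩

theorem LevA_X0 (hu : u ∈ Lev q e) : u ∈ X0 :=
  let ⟨y, a, _, h1, _, h3, _⟩ := hu; ⟨y, a, h1, h3⟩

theorem LevA_ex (hq : q.Prime) (hu : u ∈ X0) : ∃ e, u ∈ Lev q e := by
  obtain ⟨y, a, h1, h3⟩ := hu
  obtain ⟨k, d, hd, e⟩ := Nat.exists_eq_pow_mul_and_not_dvd h1.ne' q hq.ne_one
  exact ⟨k, y, a, d, h1, (hq.coprime_iff_not_dvd.2 hd).symm, h3,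
    (h3 0).of_eq 1 (by simp [e, mul_comm])⟩

theorem LevA_add0 (hu : u ∈ X0) (hv : v ∈ X0) : u + v ∈ X0 := by
  obtain ⟨y, a, h1, h3⟩ := hu
  obtain ⟨y', a', k1, k3⟩ := hv
  exact ⟨y + y', a * a', Nat.mul_pos h1 k1,
    fun m => ((h3 m).of_eq a' (by simp; ring)).add_add ((k3 m).of_eq a (by simp; ring))⟩

theorem LevA_act0 (hu : u ∈ X0) (α : kk) : act α u ∈ X0 := by
  obtain ⟨y, a, h1, h3⟩ := hu
  obtain ⟨N, r, hN, e⟩ := exists_den α
  exact ⟨y * α, a * N, Nat.mul_pos h1 hN, fun m => (Triv.act_iff _).2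
    ((h3 m).of_eq r (by rw [← e]; push_cast; ring))⟩

end

theorem LevA_res_add {x : KK → T} (hx : IsChar x) (w w' : KK) :
    res (act (w + w') x) = res (act w x) + res (act w' x) :=
  funext fun z => by simp only [res, act, add_mul, Pi.add_apply, hx _ _]

theorem LevA_res_mul (x : KK → T) (α : kk) (w : KK) :
    res (act (w * Subfield.inclusion kk_le_KK α) x) = act α (res (act w x)) :=
  funext fun z => by simp only [res, act, map_mul, mul_assoc]

theorem LevA_pow {q : ℕ} {l : KK} (h : (q : KK) * l ^ 2 = l - q) (j : ℕ) :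
    ∃ s t : ℤ, (q : ℤ) ∣ s - 1 ∧ (q : KK) ^ j * l ^ (j + 1) = s * l - q * t := by
  induction j with
  | zero => exact ⟨1, 0, by simp, by simp⟩
  | succ j ih =>
    obtain ⟨s, t, h1, h2⟩ := ih
    refine ⟨s - q ^ 2 * t, s, ?_, ?_⟩
    · rw [sub_right_comm]
      exact h1.sub ((dvd_pow_self _ two_ne_zero).mul_right _)
    · push_cast
      linear_combination q * l * h2 + s * h

theorem sLevA : SLevA := by
  intro q l x e a c hq hl hlq hx a0 ac h0 hc
  have q0 : (q : kk) ≠ 0 := Nat.cast_ne_zero.2 hq.ne_zero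
  have q1 : (q : KK) ≠ 0 := Nat.cast_ne_zero.2 hq.ne_zero
  have hq2 : (q : KK) * l ^ 2 = l - q := by
    have := congrArg (· * (q * l)) hlq
    simp only [add_mul, mul_comm (q : KK) l, inv_mul_cancel_left₀ hl] at this
    rw [mul_comm l (q : KK), inv_mul_cancel_left₀ q1] at this
    linear_combination this
  have z0 : res (act (l ^ 0) x) ∈ Lev q e := by rwa [pow_zero, act_one]
  have lin : ∀ (w w' : KK) (α β : kk), res (act w x) ∈ X0 → res (act w' x) ∈ X0 →
      res (act (w * Subfield.inclusion kk_le_KK α + w' * Subfield.inclusion kk_le_KK β) x) ∈ X0 :=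
    fun w w' α β h h' => by
      rw [LevA_res_add hx, LevA_res_mul, LevA_res_mul]
      exact LevA_add0 (LevA_act0 h _) (LevA_act0 h' _)
  have p1 : res (act l x) ∈ X0 := by
    obtain ⟨j, rfl⟩ : ∃ j, c = j + 1 := ⟨c - 1, by omega⟩
    obtain ⟨s, t, h1, h2⟩ := LevA_pow hq2 j
    have s0 : (s : KK) ≠ 0 := Int.cast_ne_zero.2 fun k => by
      rw [k, zero_sub, Int.dvd_neg] at h1
      exact hq.one_lt.ne' (by exact_mod_cast Int.eq_one_of_dvd_one (Int.natCast_nonneg q) h1)
    convert lin _ _ (q ^ j / s) (q * t / s) (LevA_X0 hc) (LevA_X0 z0) using 3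
    simp only [map_div₀, map_pow, map_mul, map_natCast, map_intCast]
    field_simp
    linear_combination -h2
  have pj : ∀ j, res (act (l ^ j) x) ∈ X0 := fun j => by
    rcases j with _ | j
    · exact LevA_X0 z0
    obtain ⟨s, t, -, h2⟩ := LevA_pow hq2 j
    convert lin _ _ (s / q ^ j) (-(q * t) / q ^ j) p1 (LevA_X0 z0) using 3
    simp only [map_div₀, map_pow, map_mul, map_natCast, map_intCast, map_neg]
    field_simp
    linear_combination h2
  have step : ∀ E, (∀ j ≤ c, res (act (l ^ j) x) ∈ Lev q E) → ∀ j, 0 < j → j < c →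
      res (act (l ^ j) x) ∈ Lev q (E - 1) := fun E h j j0 jc => by
    obtain ⟨j, rfl⟩ : ∃ i, j = i + 1 := ⟨j - 1, by omega⟩
    have := LevA_act q0 (LevA_add (h (j + 2) jc) (h j (by omega)))
    rw [← LevA_res_add hx, ← LevA_res_mul, map_natCast] at this
    convert this using 3
    linear_combination -l ^ j * hq2
  have down : ∀ n : ℕ, (∀ j ≤ c, res (act (l ^ j) x) ∈ Lev q (e + n)) →
      ∀ j ≤ c, res (act (l ^ j) x) ∈ Lev q e := fun n => by
    induction n with
    | zero => simp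
    | succ n ih =>
      refine fun h => ih fun j hj => ?_
      rcases j.eq_zero_or_pos with rfl | j0
      · exact LevA_mono q0 z0 (by omega)
      rcases hj.eq_or_lt with rfl | jc
      · exact LevA_mono q0 hc (by omega)
      · exact LevA_mono q0 (step _ h j j0 jc) (by omega)
  choose E hE using fun j => LevA_ex hq (pj j)
  refine step e (down ((Finset.range (c + 1)).sup fun j => (E j - e).toNat)
    fun j hj => LevA_mono q0 (hE j) ?_) a a0 ac
  have := Finset.le_sup (f := fun j => (E j - e).toNat)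
    (Finset.mem_range.2 (show j < c + 1 by omega))
  omega

end Pool.Agent.MP_66cee2_co.X
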